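import Pool.Agent.Lib.MP_a94b90_nt.ED.Stmt
import Pool.Agent.Lib.MP_a94b90_nt.EX.Z
import Pool.Agent.Lib.MP_a94b90_nt.EX.Down

/-! ED: lower bound for the dimension of the uniformly badly approximable sets. -/

namespace ExOrd
open Set

namespace DBadLow

/-- a point that is good at every level has constant at least `2^(-3e) / 36`. -/
theorem low {r : ℕ} {x t : ℝ} (hg : ∀ j, Good r j x) (hx : x ∈ Icc (0 : ℝ) 1)
    (ht : 36 * t ≤ P (-3 * (2 * r + 2))) (a b c : ℤ) (hne : ¬ (a = 0 ∧ b = 0 ∧ c = 0)) :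
    t ≤ |Lv a b c x| * (Ht a b c : ℝ) ^ 2 := by
  have h1 : 1 ≤ Ht a b c := Nat.one_le_iff_ne_zero.2 fun h => hne (Ht_eq_zero.1 h)
  have h1' : (1 : ℝ) ≤ Ht a b c := by exact_mod_cast h1
  have hH : (0 : ℝ) < (Ht a b c : ℝ) ^ 2 := by positivity
  have ht' : 36 * ((Ht a b c : ℝ) ^ 2 * (t / (Ht a b c : ℝ) ^ 2)) ≤ P (-3 * (2 * r + 2)) := by
    rw [mul_div_cancel₀ _ hH.ne']; exact ht
  have main : ∀ n : ℕ, 3 * (Ht a b c : ℝ) ≤ P (n - (2 * r + 2)) →
      t / (Ht a b c : ℝ) ^ 2 ≤ |Lv a b c x| := by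
    intro n
    induction n with
    | zero =>
      intro hup
      have := hup.trans (P_le_one (by push_cast; omega))
      linarith
    | succ m ih =>
      intro hup
      by_cases hm : 3 * (Ht a b c : ℝ) ≤ P (m - (2 * r + 2))
      · exact ih hm
      exact Down.key z (hg (m + 1)) hx h1 hup (not_le.1 hm) ht' (by push_cast; omega)
  have h2 := main (3 * Ht a b c + (2 * r + 2)) (by
    have := (nat_lt_P (3 * Ht a b c)).le
    push_cast at this ⊢
    exact le_P this (by omega))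
  exact (div_le_iff₀ hH).1 h2

theorem theta {η : ℝ} (h0 : 0 ≤ η) (h1 : η ≤ 1) : 1 ≤ (8 : ℝ) ^ (-(1 - η)) * (8 - η) := by
  have e1 : (8 : ℝ) ^ (-(1 - η)) = 8 ^ η / 8 := by
    rw [neg_sub, Real.rpow_sub (by norm_num), Real.rpow_one]
  have e2 : 7 / 8 ≤ Real.log 8 := by
    have := Real.one_sub_inv_le_log_of_pos (show (0 : ℝ) < 8 by norm_num)
    linarith
  have e3 : 1 + 7 / 8 * η ≤ (8 : ℝ) ^ η := by
    rw [Real.rpow_def_of_pos (by norm_num)]
    have := Real.add_one_le_exp (Real.log 8 * η)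
    nlinarith
  rw [e1]
  have e4 : (1 + 7 / 8 * η) * (8 - η) ≤ (8 : ℝ) ^ η * (8 - η) :=
    mul_le_mul_of_nonneg_right e3 (by linarith)
  nlinarith

end DBadLow

theorem badLow (h1 : Low1Stmt) (h2 : HDStmt) : BadLowStmt := by
  refine ⟨P 1300, P_pos _, fun t ht => ?_⟩
  by_cases hC : 1 - P 1300 * t ≤ 0
  · rw [ENNReal.ofReal_of_nonpos hC]; exact bot_le
  have hC' : P 1300 * t < 1 := by linarith [not_le.1 hC]
  obtain ⟨k, k1, k2⟩ := exists_shell (show 0 < 36 * t by positivity)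
  have hk : k < -1294 := by
    have e1 : P (1300 + -1294) = P 1300 * P (-1294) := P_add _ _
    have e2 : P (1300 + -1294) = 2 ^ 6 * P 0 := P_shift 6 (by norm_num)
    rw [P_zero] at e2
    have hp := P_pos 1300
    have e3 : P 1300 * P k < P 1300 * P (-1294) := by
      have := mul_le_mul_of_nonneg_left k1 hp.le
      rw [← e1, e2]
      nlinarith
    exact lt_of_P_lt (lt_of_mul_lt_mul_left e3 hp.le)
  obtain ⟨r, r1, r2, r3⟩ : ∃ r : ℕ, 200 ≤ r ∧ k + 1 ≤ -3 * (2 * (r : ℤ) + 2) ∧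
      -3 * (2 * (r : ℤ) + 2) - 6 ≤ k :=
    ⟨((-k - 7) / 6).toNat, by omega, by omega, by omega⟩
  have hη0 := P_pos (33 - 3 * (2 * (r : ℤ) + 2))
  have hη1 : P (33 - 3 * (2 * (r : ℤ) + 2)) < 1 := P_lt_one (by omega)
  have hη2 : P (33 - 3 * (2 * (r : ℤ) + 2)) ≤ P 1300 * t := by
    have e1 : P (33 - 3 * (2 * (r : ℤ) + 2)) ≤ P 39 * P k := by
      rw [← P_add]; exact P_le (by omega)
    have e2 : P 45 = 2 ^ 6 * P 39 := P_shift 6 (by norm_num)
    have e3 : P 45 ≤ P 1300 := P_le (by norm_num)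
    have hp := P_pos 39
    have e4 := mul_le_mul_of_nonneg_left k1 hp.le
    have e5 := mul_le_mul_of_nonneg_right e3 ht.le
    have e6 := mul_pos hp ht
    rw [e2] at e5
    nlinarith
  refine (ENNReal.ofReal_le_ofReal (show _ ≤ 1 - P (33 - 3 * (2 * (r : ℤ) + 2)) by linarith)).trans
    (h2 _ _ (P (-10 * (2 * (r : ℤ) + 2))) (by linarith) (P_pos _) fun C hS => ?_)
  obtain ⟨ξ, x1, x2, x3⟩ := h1 r _ C r1 (DBadLow.theta hη0.le hη1.le) hS
    (Real.rpow_le_one_of_one_le_of_nonpos (by norm_num) (by linarith))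
  exact ⟨ξ, ⟨x1, DBadLow.low x2 x1 (le_P k2.le r2)⟩, x3⟩

end ExOrd
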