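import Pool.Agent.Lib.MP_a94b90_nt.ED.Stmt

/-! ED row 22: the upper bound for the dimension of the uniformly badly approximable sets. -/

namespace ExOrd
open Set

namespace DBadUp

open Classical in
/-- descendants of `(m, A)` at level `j` all of whose points are nice. -/
noncomputable def NN (m A j : ℕ) : Finset ℕ :=
  (Finset.Ico (A * 8 ^ (j - m)) ((A + 1) * 8 ^ (j - m))).filter fun i => ∀ x ∈ Node j i, Nice j x

theorem div_of_mem {A t i : ℕ} (h : i ∈ Finset.Ico (A * 8 ^ t) ((A + 1) * 8 ^ t)) :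
    i / 8 ^ t = A :=
  Nat.div_eq_of_lt_le (Finset.mem_Ico.1 h).1 (Finset.mem_Ico.1 h).2

theorem card_NN (h2 : NiceStmt) {κ m t A : ℕ} {x0 : ℝ} (hx : x0 ∈ Node m A) (hk : InK κ x0)
    (h1 : κ + 40 ≤ t) (h3 : t ≤ m) (hn : NoSp κ m (m + t) x0) :
    8 ^ t ≤ 2 * (NN m A (m + t)).card := by
  classical
  have hb := h2 κ m t A x0 hx hk h1 h3 hn
    ((Finset.Ico (A * 8 ^ t) ((A + 1) * 8 ^ t)).filter
      fun i => ¬ ∀ x ∈ Node (m + t) i, Nice (m + t) x) (by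
      intro i hi
      obtain ⟨a1, a2⟩ := Finset.mem_filter.1 hi
      refine ⟨div_of_mem a1, ?_⟩
      by_contra hc
      exact a2 fun x hx' => by
        by_contra hq
        exact hc ⟨x, hx', hq⟩)
  have hs := Finset.card_filter_add_card_filter_not
    (s := Finset.Ico (A * 8 ^ t) ((A + 1) * 8 ^ t)) fun i => ∀ x ∈ Node (m + t) i, Nice (m + t) x
  rw [Nat.card_Ico, show (A + 1) * 8 ^ t - A * 8 ^ t = 8 ^ t by
    rw [add_mul, one_mul, Nat.add_sub_cancel_left]] at hs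
  have e1 : P (3 * t) = 2 ^ 7 * P (3 * t - 7) := P_shift 7 (by push_cast; ring)
  have e2 : P (3 * t) = (8 : ℝ) ^ t := by
    rw [show (3 * t : ℤ) = ((3 * t : ℕ) : ℤ) by push_cast; ring, P_nat, pow_mul]; norm_num
  have e3 : (NN m A (m + t)).card = ((Finset.Ico (A * 8 ^ t) ((A + 1) * 8 ^ t)).filter
      fun i => ∀ x ∈ Node (m + t) i, Nice (m + t) x).card := by
    unfold NN
    rw [Nat.add_sub_cancel_left]
  rw [← e3] at hs
  have hs' := congrArg (Nat.cast : ℕ → ℝ) hs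
  push_cast at hs'
  have hp := P_pos (3 * t - 7)
  have : (8 : ℝ) ^ t ≤ 2 * ((NN m A (m + t)).card : ℝ) := by linarith
  exact_mod_cast this

theorem ten_le (κ : ℕ) : 10 * κ ≤ 8 ^ (κ / 3 + 30) := by
  have h1 : κ < 2 ^ κ := Nat.lt_two_pow_self
  have h2 : 2 ^ (κ + 4) ≤ 2 ^ (3 * (κ / 3 + 30)) := Nat.pow_le_pow_right (by norm_num) (by omega)
  rw [pow_mul, pow_add] at h2
  norm_num at h2 ⊢
  omega

theorem eight_le (κ : ℕ) : (8 : ℝ) ^ (κ / 3 + 30) ≤ P (κ + 90) := by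
  have h2 : 2 ^ (3 * (κ / 3 + 30)) ≤ 2 ^ (κ + 90) := Nat.pow_le_pow_right (by norm_num) (by omega)
  rw [pow_mul] at h2
  rw [show (κ + 90 : ℤ) = ((κ + 90 : ℕ) : ℤ) by push_cast; ring, P_nat]
  have h3 : ((2 ^ 3) ^ (κ / 3 + 30) : ℝ) ≤ 2 ^ (κ + 90) := by exact_mod_cast h2
  rwa [show (2 : ℝ) ^ 3 = 8 by norm_num] at h3

end DBadUp

open DBadUp in
theorem badUp (h1 : FreeStmt) (h2 : NiceStmt) (h3 : GapStmt) (h4 : PorStmt) (h5 : BoxStmt) :
    BadUpStmt := by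
  classical
  intro κ hκ
  have hκ' : (1 : ℝ) ≤ κ := by exact_mod_cast hκ
  have hd : (0 : ℝ) < 8 ^ (κ / 3 + 30) := by positivity
  have h10 : (10 : ℝ) * κ ≤ 8 ^ (κ / 3 + 30) := by exact_mod_cast ten_le κ
  have key := h5 {x : ℝ | InK κ x} (14 * κ + 284) (14 * κ + 284 + (κ / 3 + 30))
    (κ / (4 * 8 ^ (κ / 3 + 30))) (fun x hx => hx.1) (by omega) (by positivity)
    (by rw [div_lt_one (by positivity)]; linarith) (by
      rintro m A hm ⟨x0, hx0, hk0⟩ U hU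
      obtain ⟨j0, a1, a2, a3⟩ := h1 κ m x0 hk0
      have hg : ∀ j i : ℕ, ∃ p, (10 ≤ j → (∀ x ∈ Node j i, Nice j x) →
          p / 8 ^ (κ / 3 + 30) = i ∧ ∀ x ∈ Node (j + (κ / 3 + 30)) p, ¬ InK κ x) := by
        intro j i
        by_cases hc : 10 ≤ j ∧ ∀ x ∈ Node j i, Nice j x
        · obtain ⟨p, hp⟩ := h3 κ j i hc.1 hc.2
          exact ⟨p, fun _ _ => hp⟩
        · exact ⟨0, fun u v => absurd ⟨u, v⟩ hc⟩
      choose gap hgap using hg
      refine h4 m A j0 κ (κ / 3 + 30) (14 * κ + 284 + (κ / 3 + 30)) (NN m A) gap U (by omega)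
        (by omega) (ten_le κ) (fun j b1 b2 => ⟨?_, fun i hi => ?_⟩) (fun p hp => ⟨(hU p hp).1, ?_⟩)
      · obtain ⟨t, rfl⟩ : ∃ t, j = m + t := ⟨j - m, by omega⟩
        rw [Nat.add_sub_cancel_left]
        exact card_NN h2 hx0 hk0 (by omega) (by omega) (a3 _ b1 b2)
      · obtain ⟨c1, c2⟩ := Finset.mem_filter.1 hi
        exact ⟨div_of_mem c1, (hgap j i (by omega) c2).1⟩
      · intro j b1 b2 i hi he
        obtain ⟨c1, c2⟩ := Finset.mem_filter.1 hi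
        obtain ⟨x, hx, hk⟩ := (hU p hp).2
        refine (hgap j i (by omega) c2).2 x ?_ hk
        rw [← he]
        refine node_sub _ _ _ ?_
        rwa [show j + (κ / 3 + 30) + (m + (14 * κ + 284 + (κ / 3 + 30)) - (j + (κ / 3 + 30))) =
          m + (14 * κ + 284 + (κ / 3 + 30)) by omega])
  refine key.trans (ENNReal.ofReal_le_ofReal (sub_le_sub_left ?_ 1))
  have hT : ((14 * κ + 284 + (κ / 3 + 30) : ℕ) : ℝ) ≤ 329 * κ := by
    have : 14 * κ + 284 + (κ / 3 + 30) ≤ 329 * κ := by omega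
    exact_mod_cast this
  have hT0 : (0 : ℝ) < ((14 * κ + 284 + (κ / 3 + 30) : ℕ) : ℝ) := by
    have : 0 < 14 * κ + 284 + (κ / 3 + 30) := by omega
    exact_mod_cast this
  have e1 : P (-κ - 102) * P (κ + 90) = 1 / 4096 := by
    rw [P_mul (show -(κ : ℤ) - 102 + (κ + 90) = -12 by ring)]; unfold P; norm_num
  have e2 := mul_le_mul_of_nonneg_left (eight_le κ) (P_pos (-κ - 102)).le
  have hp := P_pos (-κ - 102)
  rw [div_div, le_div_iff₀ (by positivity)]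
  generalize ((14 * κ + 284 + (κ / 3 + 30) : ℕ) : ℝ) = T at hT hT0
  generalize (8 : ℝ) ^ (κ / 3 + 30) = Q at hd e2
  have e3 : P (-κ - 102) * Q * T ≤ 1 / 4096 * (329 * κ) :=
    mul_le_mul (e2.trans e1.le) hT hT0.le (by norm_num)
  nlinarith

end ExOrd
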