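import Pool.Agent.Lib.MP_a94b90_nt.ED.Stmt

/-! ED: uniform porosity in the 8-adic tree bounds the Hausdorff dimension. -/

namespace ExOrd
open Set MeasureTheory Filter Topology
open scoped ENNReal NNReal

namespace DBox

open Classical in
/-- nodes of level `m` which meet `E`. -/
noncomputable def alive (E : Set ℝ) (m : ℕ) : Finset ℕ :=
  (Finset.range (8 ^ m + 1)).filter fun p => ∃ x ∈ Node m p, x ∈ E

theorem P3 (m : ℕ) : P (-3 * m) = ((8 : ℝ) ^ m)⁻¹ := by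
  have h : P (-3 * m) * P ((3 * m : ℕ) : ℤ) = 1 := by
    rw [P_mul (c := 0) (by push_cast; ring), P_zero]
  rw [P_nat, pow_mul] at h
  have h8 : ((2 : ℝ) ^ 3) = 8 := by norm_num
  rw [h8] at h
  exact eq_inv_of_mul_eq_one_left h

theorem mem_alive {E : Set ℝ} (hE : E ⊆ Icc 0 1) {m p : ℕ} :
    p ∈ alive E m ↔ ∃ x ∈ Node m p, x ∈ E := by
  classical
  unfold alive
  rw [Finset.mem_filter]
  refine ⟨fun h => h.2, fun h => ⟨?_, h⟩⟩
  obtain ⟨x, hx, ex⟩ := h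
  have h1 : (p : ℝ) * P (-3 * m) ≤ 1 := hx.1.trans (hE ex).2
  rw [P3, ← div_eq_mul_inv, div_le_one (by positivity)] at h1
  have h2 : p ≤ 8 ^ m := by exact_mod_cast h1
  exact Finset.mem_range.2 (by omega)

theorem card_zero (E : Set ℝ) (m : ℕ) : ((alive E m).card : ℝ) ≤ 8 ^ m + 1 := by
  classical
  have : (alive E m).card ≤ 8 ^ m + 1 := by
    unfold alive
    exact (Finset.card_filter_le _ _).trans (by rw [Finset.card_range])
  exact_mod_cast this

theorem card_step {E : Set ℝ} (hE : E ⊆ Icc 0 1) {m T : ℕ} {c : ℝ}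
    (h : ∀ A, (∃ x ∈ Node m A, x ∈ E) → ∀ U : Finset ℕ,
      (∀ p ∈ U, p / 8 ^ T = A ∧ ∃ x ∈ Node (m + T) p, x ∈ E) → (U.card : ℝ) ≤ c) :
    ((alive E (m + T)).card : ℝ) ≤ (alive E m).card * c := by
  have h1 : ∀ p ∈ alive E (m + T), p / 8 ^ T ∈ alive E m := fun p hp => by
    obtain ⟨x, hx, ex⟩ := (mem_alive hE).1 hp
    exact (mem_alive hE).2 ⟨x, node_sub m T p hx, ex⟩
  rw [Finset.card_eq_sum_card_fiberwise (f := fun p => p / 8 ^ T) h1]
  push_cast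
  rw [← nsmul_eq_mul]
  refine Finset.sum_le_card_nsmul _ _ _ fun A hA => h A ((mem_alive hE).1 hA) _ fun p hp => ?_
  rw [Finset.mem_filter] at hp
  exact ⟨hp.2, (mem_alive hE).1 hp.1⟩

theorem two_rpow {β : ℝ} (h0 : 0 < β) (h1 : β < 1) : (2 : ℝ) ^ β * (1 - β) ≤ 1 := by
  have h2 : (2 : ℝ) ^ β ≤ Real.exp β := by
    rw [Real.rpow_def_of_pos (by norm_num)]
    refine Real.exp_le_exp.2 ?_
    have : Real.log 2 ≤ 1 := by
      have := Real.log_le_sub_one_of_pos (show (0 : ℝ) < 2 by norm_num)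
      linarith
    nlinarith
  have h3 : 1 - β ≤ Real.exp (-β) := by
    have := Real.add_one_le_exp (-β)
    linarith
  calc (2 : ℝ) ^ β * (1 - β) ≤ Real.exp β * Real.exp (-β) :=
        mul_le_mul h2 h3 (by linarith) (Real.exp_pos _).le
    _ = 1 := by rw [← Real.exp_add, add_neg_cancel, Real.exp_zero]

theorem ediam_node (m p : ℕ) : Metric.ediam (Node m p) = ENNReal.ofReal ((8 : ℝ) ^ m)⁻¹ := by
  unfold Node
  rw [Real.ediam_Icc, P3]
  congr 1
  ring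

end DBox

open DBox in
theorem box : BoxStmt := by
  intro E m0 T β hE hT h0 h1 h
  have hT' : (1 : ℝ) ≤ T := by exact_mod_cast hT
  set s : ℝ := 1 - β / (3 * T) with hs
  have hs0 : 0 ≤ s := by
    have : β / (3 * T) ≤ 1 := by
      rw [div_le_one (by positivity)]; linarith
    linarith
  have hcard : ∀ k : ℕ, ((alive E (m0 + k * T)).card : ℝ) ≤
      (8 ^ m0 + 1) * ((8 : ℝ) ^ T * (1 - β)) ^ k := by
    intro k
    induction k with
    | zero => simpa using card_zero E m0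
    | succ k ih =>
      have h2 := card_step hE (m := m0 + k * T) (T := T) (c := 8 ^ T * (1 - β))
        fun A hA U hU => h _ A (Nat.le_add_right _ _) hA U hU
      rw [show m0 + (k + 1) * T = m0 + k * T + T by ring, pow_succ, ← mul_assoc]
      refine h2.trans (mul_le_mul_of_nonneg_right ih ?_)
      exact mul_nonneg (by positivity) (by linarith)
  have hone : (8 : ℝ) ^ T * (1 - β) * (((8 : ℝ) ^ T)⁻¹) ^ s ≤ 1 := by
    have e1 : (8 : ℝ) ^ T * (((8 : ℝ) ^ T)⁻¹) ^ s = (2 : ℝ) ^ β := by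
      have h8 : (8 : ℝ) ^ T = (2 : ℝ) ^ ((3 * T : ℝ)) := by
        rw [Real.rpow_mul (by norm_num), Real.rpow_natCast]
        norm_num
      rw [h8, ← Real.rpow_neg (by norm_num), ← Real.rpow_mul (by norm_num),
        ← Real.rpow_add (by norm_num)]
      congr 1
      rw [hs]
      field_simp
      ring
    calc (8 : ℝ) ^ T * (1 - β) * (((8 : ℝ) ^ T)⁻¹) ^ s
        = (8 : ℝ) ^ T * (((8 : ℝ) ^ T)⁻¹) ^ s * (1 - β) := by ring
      _ ≤ 1 := by rw [e1]; exact two_rpow h0 h1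
  have hsum : ∀ k : ℕ, ((alive E (m0 + k * T)).card : ℝ) * (((8 : ℝ) ^ (m0 + k * T))⁻¹) ^ s ≤
      8 ^ m0 + 1 := by
    intro k
    have e1 : (((8 : ℝ) ^ (m0 + k * T))⁻¹) ^ s =
        (((8 : ℝ) ^ m0)⁻¹) ^ s * ((((8 : ℝ) ^ T)⁻¹) ^ s) ^ k := by
      rw [pow_add, mul_inv, Real.mul_rpow (by positivity) (by positivity), mul_comm k T, pow_mul,
        ← inv_pow, ← inv_pow, Real.rpow_pow_comm (by positivity)]
    have e2 : (((8 : ℝ) ^ m0)⁻¹) ^ s ≤ 1 :=
      Real.rpow_le_one (by positivity) (inv_le_one_of_one_le₀ (one_le_pow₀ (by norm_num))) hs0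
    have e3 : ((8 : ℝ) ^ T * (1 - β) * (((8 : ℝ) ^ T)⁻¹) ^ s) ^ k ≤ 1 :=
      pow_le_one₀ (mul_nonneg (mul_nonneg (by positivity) (by linarith)) (by positivity)) hone
    rw [mul_pow] at e3
    have e4 : (0 : ℝ) ≤ ((8 : ℝ) ^ T * (1 - β)) ^ k :=
      pow_nonneg (mul_nonneg (by positivity) (by linarith)) k
    have e5 : (0 : ℝ) ≤ ((((8 : ℝ) ^ T)⁻¹) ^ s) ^ k := by positivity
    have e6 : (0 : ℝ) ≤ (((8 : ℝ) ^ m0)⁻¹) ^ s := by positivity
    rw [e1]
    calc ((alive E (m0 + k * T)).card : ℝ) *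
          ((((8 : ℝ) ^ m0)⁻¹) ^ s * ((((8 : ℝ) ^ T)⁻¹) ^ s) ^ k)
        ≤ (8 ^ m0 + 1) * ((8 : ℝ) ^ T * (1 - β)) ^ k * (1 * ((((8 : ℝ) ^ T)⁻¹) ^ s) ^ k) :=
          mul_le_mul (hcard k) (mul_le_mul_of_nonneg_right e2 e5) (mul_nonneg e6 e5)
            (mul_nonneg (by positivity) e4)
      _ = (8 ^ m0 + 1) * (((8 : ℝ) ^ T * (1 - β)) ^ k * ((((8 : ℝ) ^ T)⁻¹) ^ s) ^ k) := by ring
      _ ≤ (8 ^ m0 + 1) * 1 := mul_le_mul_of_nonneg_left e3 (by positivity)
      _ = 8 ^ m0 + 1 := mul_one _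
  have hr : Tendsto (fun k : ℕ => ENNReal.ofReal ((8 : ℝ) ^ (m0 + k * T))⁻¹) atTop (𝓝 0) := by
    rw [← ENNReal.ofReal_zero]
    refine ENNReal.tendsto_ofReal (tendsto_inv_atTop_zero.comp ?_)
    refine (tendsto_pow_atTop_atTop_of_one_lt (by norm_num)).comp ?_
    refine tendsto_atTop_mono (fun k => ?_) tendsto_id
    have : k * 1 ≤ k * T := Nat.mul_le_mul_left k hT
    simp only [id]
    omega
  have hμ := Measure.hausdorffMeasure_le_liminf_sum (ι := fun k : ℕ => alive E (m0 + k * T)) s E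
    (l := atTop) _ hr (fun k i => Node (m0 + k * T) i)
    (Eventually.of_forall fun k i => (ediam_node _ _).le)
    (Eventually.of_forall fun k x hx => by
      obtain ⟨i, hi⟩ := exists_node (m0 + k * T) (hE hx).1
      exact mem_iUnion.2 ⟨⟨i, (mem_alive hE).2 ⟨x, hi, hx⟩⟩, hi⟩)
  have hb : ∀ k : ℕ, ∑ i : alive E (m0 + k * T), Metric.ediam (Node (m0 + k * T) i) ^ s ≤
      ENNReal.ofReal (8 ^ m0 + 1) := by
    intro k
    simp only [ediam_node]
    rw [Finset.sum_const, Finset.card_univ, Fintype.card_coe, nsmul_eq_mul,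
      ENNReal.ofReal_rpow_of_nonneg (by positivity) hs0, ← ENNReal.ofReal_natCast,
      ← ENNReal.ofReal_mul (Nat.cast_nonneg _)]
    exact ENNReal.ofReal_le_ofReal (hsum k)
  have hfin : μH[s] E ≠ ∞ :=
    ((hμ.trans (liminf_le_of_frequently_le' (Frequently.of_forall hb))).trans_lt
      ENNReal.ofReal_lt_top).ne
  have := dimH_le_of_hausdorffMeasure_ne_top (s := E) (d := ⟨s, hs0⟩) hfin
  rwa [ENNReal.ofReal_eq_coe_nnreal hs0]

end ExOrd
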