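import Pool.Agent.Lib.MP_a94b90_nt.ED.Stmt
import Pool.Agent.Lib.MP_a94b90_nt.EX.Cnt

/-! ED: counting forms in a dilated box of any volume. -/

namespace ExOrd
open Set Matrix

namespace DCntG

theorem cr (B : Matrix (Fin 3) (Fin 3) ℤ) (v : Fin 3 → ℤ) :
    B.cramer (B *ᵥ v) = B.det • v := by
  rw [cramer_eq_adjugate_mulVec, mulVec_mulVec, adjugate_mul, smul_mulVec, one_mulVec]

theorem quo (B : Matrix (Fin 3) (Fin 3) ℤ) (h : B.det ≠ 0) :
    Nat.card ((Fin 3 → ℤ) ⧸ LinearMap.range (Matrix.toLin' B)) = B.det.natAbs := by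
  have hi : Function.Injective (Matrix.toLin' B) := by
    rw [injective_iff_map_eq_zero]
    intro v hv
    have := cr B v
    rw [show B *ᵥ v = 0 from hv, map_zero] at this
    exact (smul_eq_zero.1 this.symm).resolve_left h
  rw [← Submodule.natAbs_det_equiv _ (LinearEquiv.ofInjective _ hi), ← LinearMap.det_toLin' B]
  rfl

/-- Integer points whose Cramer coordinates are bounded by the determinant. -/
theorem few (B : Matrix (Fin 3) (Fin 3) ℤ) (h : B.det ≠ 0) (T : Finset (Fin 3 → ℤ))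
    (hT : ∀ s ∈ T, ∀ i, |B.cramer s i| ≤ |B.det|) : T.card ≤ B.det.natAbs * 27 := by
  classical
  have hq := quo B h
  have : Finite ((Fin 3 → ℤ) ⧸ LinearMap.range (Matrix.toLin' B)) :=
    Nat.finite_of_card_ne_zero (by rw [hq]; exact Int.natAbs_ne_zero.2 h)
  have := Fintype.ofFinite ((Fin 3 → ℤ) ⧸ LinearMap.range (Matrix.toLin' B))
  have h0 : 0 < |B.det| := abs_pos.2 h
  have k := Finset.card_le_card_of_injOn (s := T)
    (t := (Finset.univ : Finset ((Fin 3 → ℤ) ⧸ LinearMap.range (Matrix.toLin' B))) ×ˢ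
      Fintype.piFinset fun _ : Fin 3 => Finset.Icc (-1 : ℤ) 1)
    (fun s => (Submodule.Quotient.mk s, fun i => B.cramer s i / |B.det|))
    (fun s hs => Finset.mem_coe.2 (Finset.mem_product.2 ⟨Finset.mem_univ _,
      Fintype.mem_piFinset.2 fun i => by
        obtain ⟨h1, h2⟩ := abs_le.1 (hT s hs i)
        exact Finset.mem_Icc.2 ⟨Int.le_ediv_of_mul_le h0 (by linarith),
          Int.ediv_le_of_le_mul h0 (by linarith)⟩⟩))
    (fun s _ s' _ e => by
      obtain ⟨v, hv⟩ := (Submodule.Quotient.eq _).1 (congrArg Prod.fst e)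
      have c := cr B v
      rw [show B *ᵥ v = s - s' from hv, map_sub] at c
      have z : v = 0 := funext fun i => by
        have c1 : B.cramer s i - B.cramer s' i = B.det * v i := congrFun c i
        have c2 : B.cramer s i / |B.det| = B.cramer s' i / |B.det| :=
          congrFun (congrArg Prod.snd e) i
        have c3 : B.cramer s i % |B.det| = B.cramer s' i % |B.det| :=
          Int.emod_eq_emod_iff_emod_sub_eq_zero.2 (by
            rw [c1]
            exact Int.emod_eq_zero_of_dvd ((abs_dvd _ _).2 (dvd_mul_right _ _)))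
        have c4 := Int.mul_ediv_add_emod (B.cramer s i) |B.det|
        have c5 := Int.mul_ediv_add_emod (B.cramer s' i) |B.det|
        rw [c2, c3, c5] at c4
        rw [c4, sub_self] at c1
        exact (mul_eq_zero.1 c1.symm).resolve_left h
      rw [z, map_zero] at hv
      exact sub_eq_zero.1 hv.symm)
  rwa [Finset.card_product, Finset.card_univ, ← Nat.card_eq_fintype_card, hq,
    Fintype.card_piFinset, Finset.prod_const] at k

/-- A set of integer points of rank three is small if all its determinants are small. -/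
theorem vol (T : Finset (Fin 3 → ℤ)) {D : ℝ}
    (hD : ∀ A : Matrix (Fin 3) (Fin 3) ℤ, (∀ i, A i ∈ T) → |(A.det : ℝ)| ≤ D)
    (A0 : Matrix (Fin 3) (Fin 3) ℤ) (h0 : ∀ i, A0 i ∈ T) (hd : A0.det ≠ 0) :
    (T.card : ℝ) ≤ D * 27 := by
  classical
  obtain ⟨A, hA, mx⟩ := Finset.exists_max_image (Fintype.piFinset fun _ : Fin 3 => T)
    (fun A => |(Matrix.of A).det|) ⟨A0, Fintype.mem_piFinset.2 h0⟩
  have hA' := Fintype.mem_piFinset.1 hA
  have h1 : (Matrix.of A)ᵀ.det ≠ 0 := by
    rw [det_transpose]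
    exact abs_pos.1 ((abs_pos.2 hd).trans_le (mx A0 (Fintype.mem_piFinset.2 h0)))
  have h2 := few _ h1 T fun s hs i => by
    rw [cramer_transpose_apply, det_transpose]
    refine mx ((Matrix.of A).updateRow i s) (Fintype.mem_piFinset.2 fun k => ?_)
    by_cases c : k = i
    · rw [c, updateRow_self]; exact hs
    · rw [updateRow_ne c]; exact hA' k
  rw [det_transpose] at h2
  have h3 : (T.card : ℝ) ≤ |((Matrix.of A).det : ℝ)| * 27 := by
    rw [← Int.cast_abs, ← Int.natCast_natAbs]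
    exact_mod_cast h2
  exact h3.trans (mul_le_mul_of_nonneg_right (hD _ hA') (by norm_num))

theorem ident (x : ℝ) (a b c a' b' c' a'' b'' c'' : ℤ) :
    (((b * a' - a * b') * c'' + (a * c' - c * a') * b'' + (c * b' - b * c') * a'' : ℤ) : ℝ) =
      (Dv a b x * a' - a * Dv a' b' x) * Lv a'' b'' c'' x +
        (a * Lv a' b' c' x - Lv a b c x * a') * Dv a'' b'' x +
        (Lv a b c x * Dv a' b' x - Dv a b x * Lv a' b' c' x) * a'' := by
  unfold Lv Dv; push_cast; ring

end DCntG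

theorem cntG : CntGStmt := by
  classical
  intro α β γ G x h0 T hT
  by_cases hz : ∀ p ∈ T, ∀ q ∈ T, ∀ r ∈ T, (p.2.1 * q.1 - p.1 * q.2.1) * r.2.2 +
      (p.1 * q.2.2 - p.2.2 * q.1) * r.2.1 + (p.2.2 * q.2.1 - p.2.1 * q.2.2) * r.1 = 0
  · refine le_add_of_le_of_nonneg ?_ (P_pos _).le
    refine Cnt.count4 T (fun Q => Lv Q.1 Q.2.1 Q.2.2 x / P α) (fun Q => Dv Q.1 Q.2.1 x / P β)
      (fun Q => (Q.1 : ℝ) / P γ) G (fun Q hQ => Cnt.div_le (hT Q hQ).1)
      (fun Q hQ => Cnt.div_le (hT Q hQ).2.1) (fun Q hQ => Cnt.div_le (hT Q hQ).2.2) ?_ ?_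
    · rintro ⟨a, b, c⟩ _ ⟨a', b', c'⟩ _ h1 h2 h3
      have e1 : Lv (a - a') (b - b') (c - c') x = Lv a b c x - Lv a' b' c' x := by
        unfold Lv; push_cast; ring
      have e2 : Dv (a - a') (b - b') x = Dv a b x - Dv a' b' x := by
        unfold Dv; push_cast; ring
      obtain ⟨z1, z2, z3⟩ := h0 (a - a') (b - b') (c - c')
        ⟨e1 ▸ Cnt.sub_le h1, e2 ▸ Cnt.sub_le h2, by rw [Int.cast_sub]; exact Cnt.sub_le h3⟩
      rw [sub_eq_zero.1 z1, sub_eq_zero.1 z2, sub_eq_zero.1 z3]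
    · rintro ⟨a, b, c⟩ hp ⟨a', b', c'⟩ hq ⟨a'', b'', c''⟩ hr
      have e := DCntG.ident x a b c a' b' c' a'' b'' c''
      have z := hz _ hp _ hq _ hr
      dsimp only at z ⊢
      rw [z, Int.cast_zero] at e
      have hα := (P_pos α).ne'
      have hβ := (P_pos β).ne'
      have hγ := (P_pos γ).ne'
      field_simp
      linarith
  · push Not at hz
    obtain ⟨p, hp, q, hq, r, hr, hz⟩ := hz
    refine le_add_of_nonneg_of_le (P_pos _).le ?_
    let φ : ℤ × ℤ × ℤ → Fin 3 → ℤ := fun Q => ![Q.1, Q.2.1, Q.2.2]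
    have hφ : Function.Injective φ := fun Q Q' e =>
      Prod.ext (congrFun e 0) (Prod.ext (congrFun e 1) (congrFun e 2))
    have dt : ∀ (A : Matrix (Fin 3) (Fin 3) ℤ) (p q r : ℤ × ℤ × ℤ), φ p = A 0 → φ q = A 1 →
        φ r = A 2 → A.det = -((p.2.1 * q.1 - p.1 * q.2.1) * r.2.2 +
          (p.1 * q.2.2 - p.2.2 * q.1) * r.2.1 + (p.2.2 * q.2.1 - p.2.1 * q.2.2) * r.1) := by
      intro A p q r e1 e2 e3
      rw [det_fin_three, ← e1, ← e2, ← e3]
      simp only [φ, cons_val_zero, cons_val_one, cons_val]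
      ring
    have k := DCntG.vol (T.image φ) (D := 3 * P (α + β + γ + 3 * G + 1)) (fun A hA => by
      obtain ⟨⟨a, b, c⟩, hp, e1⟩ := Finset.mem_image.1 (hA 0)
      obtain ⟨⟨a', b', c'⟩, hq, e2⟩ := Finset.mem_image.1 (hA 1)
      obtain ⟨⟨a'', b'', c''⟩, hr, e3⟩ := Finset.mem_image.1 (hA 2)
      obtain ⟨p1, p2, p3⟩ := hT _ hp
      obtain ⟨q1, q2, q3⟩ := hT _ hq
      obtain ⟨r1, r2, r3⟩ := hT _ hr
      rw [dt A _ _ _ e1 e2 e3, Int.cast_neg, abs_neg]
      dsimp only at p1 p2 p3 q1 q2 q3 r1 r2 r3 ⊢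
      have t1 : |(Dv a b x * a' - a * Dv a' b' x) * Lv a'' b'' c'' x| ≤
          P (α + β + γ + 3 * G + 1) :=
        mul_le_P (sub_le_P (c := β + γ + 2 * G + 1) (mul_le_P p2 q3 le_rfl)
          (mul_le_P p3 q2 le_rfl) (by omega) (by omega)) r1 (by omega)
      have t2 : |(a * Lv a' b' c' x - Lv a b c x * a') * Dv a'' b'' x| ≤
          P (α + β + γ + 3 * G + 1) :=
        mul_le_P (sub_le_P (c := α + γ + 2 * G + 1) (mul_le_P p3 q1 le_rfl)
          (mul_le_P p1 q3 le_rfl) (by omega) (by omega)) r2 (by omega)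
      have t3 : |(Lv a b c x * Dv a' b' x - Dv a b x * Lv a' b' c' x) * a''| ≤
          P (α + β + γ + 3 * G + 1) :=
        mul_le_P (sub_le_P (c := α + β + 2 * G + 1) (mul_le_P p1 q2 le_rfl)
          (mul_le_P p2 q1 le_rfl) (by omega) (by omega)) r3 (by omega)
      rw [DCntG.ident x]
      exact (abs_add_three _ _ _).trans (by linarith))
      (Matrix.of ![φ p, φ q, φ r])
      (fun i => by fin_cases i <;> exact Finset.mem_image_of_mem φ (by assumption))
      (by rw [dt _ p q r rfl rfl rfl]; exact neg_ne_zero.2 hz)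
    rw [Finset.card_image_of_injective _ hφ] at k
    have e : P (α + β + γ + 3 * G + 8) = 2 ^ 7 * P (α + β + γ + 3 * G + 1) :=
      P_shift 7 (by push_cast; ring)
    have := P_pos (α + β + γ + 3 * G + 1)
    linarith

end ExOrd
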