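import Pool.Agent.Lib.MP_a94b90_nt.ED.Stmt

/-! ED: a window of levels without forms of small derivative. -/

namespace ExOrd
open Set

namespace DFree

theorem par {a b c a' b' c' : ℤ} (hne : ¬ (a = 0 ∧ b = 0 ∧ c = 0))
    (h1 : b * a' - a * b' = 0) (h2 : a * c' - c * a' = 0) (h3 : c * b' - b * c' = 0) :
    ∃ t : ℝ, (a' : ℝ) = t * a ∧ (b' : ℝ) = t * b ∧ (c' : ℝ) = t * c := by
  have k1 : (b : ℝ) * a' - a * b' = 0 := by exact_mod_cast h1
  have k2 : (a : ℝ) * c' - c * a' = 0 := by exact_mod_cast h2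
  have k3 : (c : ℝ) * b' - b * c' = 0 := by exact_mod_cast h3
  by_cases ha : a = 0
  · by_cases hb : b = 0
    · have hc : (c : ℝ) ≠ 0 := by
        have : c ≠ 0 := fun hc => hne ⟨ha, hb, hc⟩
        exact_mod_cast this
      refine ⟨c' / c, ?_, ?_, ?_⟩ <;> field_simp <;> linarith
    · have hb' : (b : ℝ) ≠ 0 := by exact_mod_cast hb
      refine ⟨b' / b, ?_, ?_, ?_⟩ <;> field_simp <;> linarith
  · have ha' : (a : ℝ) ≠ 0 := by exact_mod_cast ha
    refine ⟨a' / a, ?_, ?_, ?_⟩ <;> field_simp <;> linarith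

theorem small {t u v : ℝ} (ht : |t| ≤ 1) (h : v = t * u) : |v| ≤ |u| := by
  rw [h, abs_mul]
  exact mul_le_of_le_one_left (abs_nonneg u) ht

theorem large {t u v : ℝ} (ht : 1 ≤ |t|) (h : v = t * u) : |u| ≤ |v| := by
  rw [h, abs_mul]
  exact le_mul_of_one_le_left (abs_nonneg u) ht

end DFree

theorem free (h : TRStmt) : FreeStmt := by
  intro κ m x hx
  by_cases h0 : ∀ j, m + 10 * κ + 220 ≤ j → j < m + 10 * κ + 220 + κ → NoSp κ m j x
  · exact ⟨m + 10 * κ + 220, le_rfl, by omega, h0⟩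
  push Not at h0
  obtain ⟨f, f1, f2, hf⟩ := h0
  unfold NoSp at hf
  push Not at hf
  obtain ⟨a, b, c, ⟨hL, hD, ha⟩, hne⟩ := hf
  have hne' : ¬ (a = 0 ∧ b = 0 ∧ c = 0) := fun k => hne k.1 k.2.1 k.2.2
  refine ⟨f + 2 * κ + 64, by omega, by omega, ?_⟩
  intro j j1 j2 a' b' c' ⟨hL', hD', ha'⟩
  have e1 : ((b * a' - a * b' : ℤ) : ℝ) = Dv a b x * a' - a * Dv a' b' x := by
    unfold Dv; push_cast; ring
  have e2 : ((b * a' - a * b' : ℤ) : ℝ) * x - ((a * c' - c * a' : ℤ) : ℝ) =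
      Lv a b c x * a' - a * Lv a' b' c' x := by
    unfold Lv; push_cast; ring
  have e3 : ((b * a' - a * b' : ℤ) : ℝ) * x ^ 2 - 2 * ((a * c' - c * a' : ℤ) : ℝ) * x +
      ((c * b' - b * c' : ℤ) : ℝ) = Lv a b c x * Dv a' b' x - Dv a b x * Lv a' b' c' x := by
    unfold Lv Dv; push_cast; ring
  obtain ⟨z1, z2, z3⟩ := h κ (m + κ + 15) (-(m : ℤ) - 3 * κ - 35) x (b * a' - a * b')
    (a * c' - c * a') (c * b' - b * c') hx
    (by
      rw [e1]
      exact sub_le_P (mul_le_P hD ha' le_rfl) (mul_le_P ha hD' le_rfl) (by omega) (by omega))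
    (by
      rw [e2]
      exact sub_le_P (mul_le_P hL ha' le_rfl) (mul_le_P ha hL' le_rfl) (by omega) (by omega))
    (by
      rw [e3]
      exact sub_le_P (mul_le_P hL hD' le_rfl) (mul_le_P hD hL' le_rfl) (by omega) (by omega))
    (by omega)
  obtain ⟨t, t1, t2, t3⟩ := DFree.par hne' z1 z2 z3
  have tL : Lv a' b' c' x = t * Lv a b c x := by
    unfold Lv; rw [t1, t2, t3]; ring
  have tD : Dv a' b' x = t * Dv a b x := by
    unfold Dv; rw [t1, t2]; ring
  rcases le_total |t| 1 with ht | ht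
  · exact zk (M := f) hx ⟨hL', (DFree.small ht tD).trans hD, (DFree.small ht t1).trans ha⟩
      (by omega) (by omega) le_rfl (by omega)
  · exact absurd (zk (M := f) hx ⟨(DFree.large ht tL).trans hL', hD, ha⟩
      (by omega) (by omega) le_rfl (by omega)) hne'

end ExOrd
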