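import Pool.Agent.Lib.MP_a94b90_nt.ED.Stmt
import Pool.Agent.Lib.MP_a94b90_nt.EX.Vec
import Pool.Agent.Lib.MP_a94b90_nt.EX.Dir

/-! ED row 19: a gap in every nice node. -/

namespace ExOrd
open Set VecAux

theorem gap : GapStmt := by
  intro κ j i hj hN
  obtain ⟨d, hd, hd1⟩ : ∃ d : ℕ, d = κ / 3 + 30 ∧ κ + 88 ≤ 3 * d := ⟨_, rfl, by omega⟩
  rw [← hd]
  clear hd
  have hp1 := P_pos (-3 * j - 2)
  have hP : P (-3 * j) = 2 ^ 2 * P (-3 * j - 2) := P_shift 2 (by push_cast; ring)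
  obtain ⟨x0, hx0⟩ : ∃ x0 : ℝ, x0 = (i : ℝ) * P (-3 * j) + 2 * P (-3 * j - 2) := ⟨_, rfl⟩
  have hin : ∀ x, |x - x0| ≤ 2 * P (-3 * j - 2) → x ∈ Node j i := by
    intro x hx
    have := abs_le.1 hx
    exact ⟨by linarith [this.1], by linarith [this.2]⟩
  have hx0m : x0 ∈ Node j i := hin x0 (by rw [sub_self, abs_zero]; linarith)
  obtain ⟨A, hA⟩ : ∃ A : ℕ, A + 10 = j := ⟨j - 10, by omega⟩
  obtain ⟨a, b, c, prim, ha, hb, hL⟩ := dir A (j + 24) x0
  have hne : ¬ (a = 0 ∧ b = 0 ∧ c = 0) := by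
    rintro ⟨h1, h2, h3⟩
    exact not_isUnit_zero (prim 0 (by rw [h1]) (by rw [h2]) (by rw [h3]))
  have hD0 : P (j - 10) < |Dv a b x0| := by
    by_contra hc
    exact hne (hN x0 hx0m a b c ⟨le_P hL (by omega), not_lt.1 hc, le_P ha (by omega)⟩)
  have hsucc : P (j - 10) = 2 * P (j - 11) := by
    rw [← P_succ]; congr 1; ring
  obtain ⟨y, hy, hyL⟩ := cross a b c x0 (P (-3 * j - 2)) (P (j - 11)) 0 hp1 le_rfl (by linarith)
    (by
      have := mul_le_P ha (v := P (-3 * j - 2)) (b := -3 * j - 2) (abs_of_pos hp1).le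
        (c := j - 11) (by omega)
      rwa [abs_mul, abs_of_pos hp1] at this)
    (by
      rw [P_mul (c := -2 * j - 13) (by ring), add_zero]
      exact le_P hL (by omega))
  have hym : y ∈ Node j i := hin y (by linarith)
  obtain ⟨p, hp⟩ := exists_node (j + d)
    ((mul_nonneg (Nat.cast_nonneg i) (P_pos _).le).trans hym.1)
  have hsub : Node (j + d) p ⊆ Node j i := by
    intro x hx
    have h1 : |x - y| ≤ P (-3 * j - 2) := le_P (node_dist hx hp) (by omega)
    have h2 := abs_sub_le x y x0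
    exact hin x (by linarith)
  refine ⟨p, node_index hsub, fun x hx hK => hne ?_⟩
  have h1 := node_dist hp hx
  have hD : |Dv a b x| ≤ P (j + 25) := by
    have h2 : |2 * ((a : ℝ) * x)| ≤ P (A + 1) :=
      two_mul_le_P (mul_le_P ha (abs_le_one hK.1) (c := A) (by omega)) (by omega)
    have h3 : Dv a b x = 2 * (a * x) + b := by unfold Dv; ring
    rw [h3]
    exact add_le_P h2 hb (by omega) (by omega)
  have h2 : |Dv a b x + a * (y - x)| ≤ P (j + 26) :=
    add_le_P hD (mul_le_P ha h1 le_rfl) (by omega) (by omega)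
  have h3 : |Lv a b c y - Lv a b c x| ≤ P (26 - 2 * j - 3 * d) := by
    rw [Lv_sub]; exact mul_le_P h2 h1 (by omega)
  rw [hyL, zero_sub, abs_neg] at h3
  exact zk hK ⟨h3, hD, ha⟩ (M := j + 25) (by omega) le_rfl (by omega) (by omega)

end ExOrd
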