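import Pool.Agent.Lib.MP_a94b90_nt.ED.Stmt

/-! ED: a lower bound for the Hausdorff dimension from the avoidance of light families of nodes. -/

namespace ExOrd
open Set MeasureTheory

namespace DHD

theorem cover {E : Set ℝ} {s η : ℝ} (hs : 0 < s) (hη : 0 < η) (h : dimH E < ENNReal.ofReal s) :
    ∃ (t : ℕ → Set ℝ) (d : ℕ → ℝ), E ⊆ ⋃ n, t n ∧ (∀ n, 0 ≤ d n ∧ d n ≤ 1 ∧
      ∀ x ∈ t n, ∀ y ∈ t n, |x - y| ≤ d n) ∧ ∀ F : Finset ℕ, ∑ n ∈ F, d n ^ s ≤ η := by
  have h0 : μH[s] E = 0 := by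
    have := hausdorffMeasure_of_dimH_lt (s := E) (d := s.toNNReal) h
    rwa [Real.coe_toNNReal s hs.le] at this
  have h1 : μH[s] E < ENNReal.ofReal η := h0 ▸ ENNReal.ofReal_pos.2 hη
  rw [Measure.hausdorffMeasure_apply] at h1
  have h2 := (le_iSup₂_of_le (1 : ENNReal) one_pos le_rfl).trans_lt h1
  simp only [iInf_lt_iff] at h2
  obtain ⟨t, h3, h4, h5⟩ := h2
  have hne : ∀ n, Metric.ediam (t n) ≠ ⊤ := fun n => ne_top_of_le_ne_top ENNReal.one_ne_top (h4 n)
  refine ⟨t, fun n => Metric.diam (t n), h3, fun n => ⟨Metric.diam_nonneg,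
    ENNReal.toReal_le_of_le_ofReal zero_le_one (by simpa using h4 n), fun x hx y hy =>
      Metric.dist_le_diam_of_mem' (hne n) hx hy⟩, fun F => ?_⟩
  rw [← ENNReal.ofReal_le_ofReal_iff hη.le,
    ENNReal.ofReal_sum_of_nonneg fun n _ => Real.rpow_nonneg Metric.diam_nonneg _]
  refine le_trans (le_trans (Finset.sum_le_sum fun n _ => ?_) (ENNReal.sum_le_tsum F)) h5.le
  rcases (t n).eq_empty_or_nonempty with h6 | h6
  · simp [h6, hs.ne']
  · rw [iSup_pos h6, ← ENNReal.ofReal_rpow_of_nonneg Metric.diam_nonneg hs.le, Metric.diam,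
      ENNReal.ofReal_toReal (hne n)]

theorem level {s d ε : ℝ} (hs : 0 < s) (h0 : 0 ≤ d) (h1 : d ≤ 1) (hε : 0 < ε) :
    ∃ l : ℕ, d ≤ P (-3 * l) ∧ ((8 : ℝ) ^ (-s)) ^ l ≤ d ^ s / (8 : ℝ) ^ (-s) + ε := by
  have hθ : (0 : ℝ) < 8 ^ (-s) := by positivity
  rcases h0.eq_or_lt with rfl | h0
  · obtain ⟨l, hl⟩ := exists_pow_lt_of_lt_one hε
      (Real.rpow_lt_one_of_one_lt_of_neg (x := 8) (by norm_num) (neg_lt_zero.2 hs))
    exact ⟨l, (P_pos _).le, hl.le.trans (le_add_of_nonneg_left (by positivity))⟩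
  · obtain ⟨l, a, b⟩ := exists_nat_pow_near_of_lt_one (y := (8 : ℝ)⁻¹) h0 h1 (by norm_num)
      (by norm_num)
    refine ⟨l, b.trans (le_of_eq ?_), le_add_of_le_of_nonneg ?_ hε.le⟩
    · rw [P, zpow_mul, zpow_natCast]
      norm_num
    · rw [le_div_iff₀ hθ, ← pow_succ, Real.rpow_neg (by norm_num), ← Real.inv_rpow (by norm_num),
        Real.rpow_pow_comm (by norm_num)]
      exact Real.rpow_le_rpow (by positivity) a.le hs.le

theorem four (t : Set ℝ) (l : ℕ) (h : ∀ x ∈ t, ∀ y ∈ t, |x - y| ≤ P (-3 * l)) :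
    ∃ D : Finset ℕ, D.card ≤ 4 ∧ ∀ x ∈ t, ∀ p, x ∈ Node l p → p ∈ D := by
  rcases t.eq_empty_or_nonempty with rfl | ⟨y, hy⟩
  · exact ⟨∅, by simp, by simp⟩
  have hp := P_pos (-3 * l)
  refine ⟨Finset.Icc (⌊y / P (-3 * l)⌋₊ - 2) (⌊y / P (-3 * l)⌋₊ + 1), by
    rw [Nat.card_Icc]; omega, fun x hx p ⟨a, b⟩ => ?_⟩
  obtain ⟨c, d⟩ := abs_le.1 (h x hx y hy)
  have e1 : ⌊y / P (-3 * l)⌋₊ ≤ p + 2 := Nat.floor_le_of_le (by
    rw [div_le_iff₀ hp]; push_cast; linarith)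
  have e2 : (p : ℝ) < (⌊y / P (-3 * l)⌋₊ + 2 : ℕ) := by
    have := Nat.lt_floor_add_one (y / P (-3 * l))
    have : (p : ℝ) - 1 ≤ y / P (-3 * l) := by rw [le_div_iff₀ hp]; linarith
    push_cast
    linarith
  have := Nat.cast_lt.1 e2
  exact Finset.mem_Icc.2 ⟨by omega, by omega⟩

end DHD

theorem hd : HDStmt := by
  intro E s δ hs hδ H
  by_contra hlt
  have hθ : (0 : ℝ) < 8 ^ (-s) := by positivity
  obtain ⟨t, d, hE, hd, hF⟩ := DHD.cover hs (show 0 < δ / 8 * 8 ^ (-s) by positivity)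
    (not_le.1 hlt)
  choose l hl using fun n => DHD.level hs (hd n).1 (hd n).2.1
    (show 0 < δ / 16 * (1 / 2 : ℝ) ^ n by positivity)
  choose D hD using fun n => DHD.four (t n) (l n) fun x hx y hy =>
    ((hd n).2.2 x hx y hy).trans (hl n).1
  have hw : ∀ F : Finset ℕ, ∑ n ∈ F, ((8 : ℝ) ^ (-s)) ^ l n ≤ δ / 4 := fun F => by
    refine (Finset.sum_le_sum fun n _ => (hl n).2).trans ?_
    rw [Finset.sum_add_distrib, ← Finset.sum_div, ← Finset.mul_sum]
    have a1 := (div_le_iff₀ hθ).2 (hF F)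
    have a2 := summable_geometric_two.sum_le_tsum F fun n _ => by positivity
    rw [tsum_geometric_two] at a2
    nlinarith
  have hfin : ∀ j, {n | l n = j}.Finite := fun j => by
    have := (summable_of_sum_le (fun n => by positivity) hw).tendsto_cofinite_zero.eventually
      (gt_mem_nhds (pow_pos hθ j))
    exact (Filter.eventually_cofinite.1 this).subset fun n hn h =>
      h.ne (congrArg _ hn)
  obtain ⟨ξ, hξ, h⟩ := H (fun j => (hfin j).toFinset.biUnion D) fun N => by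
    calc _ ≤ ∑ j ∈ Finset.range N, ∑ n ∈ (hfin j).toFinset, 4 * ((8 : ℝ) ^ (-s)) ^ l n := by
          refine Finset.sum_le_sum fun j _ => ?_
          have a1 : (((hfin j).toFinset.biUnion D).card : ℝ) ≤ ∑ _n ∈ (hfin j).toFinset, 4 := by
            exact_mod_cast Finset.card_biUnion_le.trans (Finset.sum_le_sum fun n _ => (hD n).1)
          refine (mul_le_mul_of_nonneg_right a1 (by positivity)).trans (le_of_eq ?_)
          rw [Finset.sum_mul]
          exact Finset.sum_congr rfl fun n hn => by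
            rw [show l n = j from (hfin j).mem_toFinset.1 hn]
      _ = 4 * ∑ n ∈ (Finset.range N).biUnion fun j => (hfin j).toFinset,
            ((8 : ℝ) ^ (-s)) ^ l n := by
          rw [Finset.mul_sum, Finset.sum_biUnion]
          intro i _ j _ hij
          refine Finset.disjoint_left.2 fun n h1 h2 => hij ?_
          exact ((hfin i).mem_toFinset.1 h1).symm.trans ((hfin j).mem_toFinset.1 h2)
      _ ≤ δ := by linarith [hw ((Finset.range N).biUnion fun j => (hfin j).toFinset)]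
  obtain ⟨n, hn⟩ := mem_iUnion.1 (hE hξ)
  obtain ⟨p, h1, h2⟩ := h (l n)
  exact h2 (Finset.mem_biUnion.2 ⟨n, (hfin _).mem_toFinset.2 rfl, (hD n).2 ξ hn p h1⟩)

end ExOrd
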