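import Pool.Agent.Lib.MP_a94b90_nt.ED.Stmt
import Pool.Agent.Lib.MP_a94b90_nt.EX.Kill
import Pool.Agent.Lib.MP_a94b90_nt.EX.Z

/-! ED: few nodes meet a form with a large derivative, with the volume term. -/

namespace ExOrd
open Set

namespace DKillG

/-- moving a form to another point of the node. -/
theorem move {m A : ℕ} {α β γ α1 β1 γ1 : ℤ} (h1 : α ≤ α1 - 2) (h2 : β - 3 * m ≤ α1 - 2)
    (h3 : γ - 6 * m ≤ α1 - 2) (h4 : β ≤ β1 - 2) (h5 : γ - 3 * m ≤ β1 - 2) (h6 : γ ≤ γ1)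
    {x y : ℝ} (hx : x ∈ Node m A) (hy : y ∈ Node m A) {a b c : ℤ} (h : Bx α β γ x a b c) :
    Bx α1 β1 γ1 y a b c := by
  have d := node_dist hy hx
  have e1 : |(a : ℝ) * (y - x)| ≤ P (γ - 3 * m) := mul_le_P h.2.2 d (by omega)
  refine ⟨?_, ?_, le_P h.2.2 h6⟩
  · rw [Lv_taylor a b c x y]
    exact add_le_P (a := α1 - 1) (b := γ - 6 * m)
      (add_le_P (b := β - 3 * m) h.1 (mul_le_P h.2.1 d (by omega)) (by omega) (by omega))
      (mul_le_P e1 d (by omega)) (by omega) (by omega)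
  · rw [Dv_taylor a b x y]
    exact add_le_P (b := γ - 3 * m + 1) h.2.1 (two_mul_le_P e1 (by omega)) (by omega) (by omega)

end DKillG

theorem killG (hc : CntGStmt) : KillGStmt := by
  classical
  intro m j A G ρ α0 β0 γ0 α β γ B x0 hx0 hz h1 h2 h3 h4 h5 h6 h7 h8 T hT
  have hT' : ∀ i : ℕ, ∃ Q : ℤ × ℤ × ℤ, i ∈ T → ∃ x, x ∈ Node m A ∧ x ∈ Node j i ∧
      Bx α β γ x Q.1 Q.2.1 Q.2.2 ∧ P B < |Dv Q.1 Q.2.1 x| := fun i => by
    by_cases hi : i ∈ T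
    · obtain ⟨x, hx, hx', a, b, c, hb, hd⟩ := hT i hi
      exact ⟨(a, b, c), fun _ => ⟨x, hx, hx', hb, hd⟩⟩
    · exact ⟨0, fun h => absurd h hi⟩
  choose f hf using hT'
  have c1 := hc α0 β0 γ0 G x0 hz (T.image f) fun Q hQ => by
    obtain ⟨i, hi, rfl⟩ := Finset.mem_image.1 hQ
    obtain ⟨x, hx, -, hb, -⟩ := hf i hi
    exact DKillG.move h1 h2 h3 h4 h5 h6 hx hx0 hb
  have c2 : ∀ Q ∈ T.image f, ((T.filter fun i => f i = Q).card : ℝ) ≤ P (ρ + 2) := fun Q hQ => by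
    obtain ⟨i0, hi0, rfl⟩ := Finset.mem_image.1 hQ
    obtain ⟨-, -, -, ⟨-, -, ha⟩, -⟩ := hf i0 hi0
    refine diam_P (j := j) (E := fun x => x ∈ Node m A ∧
      |Lv (f i0).1 (f i0).2.1 (f i0).2.2 x| ≤ P α ∧ P B < |Dv (f i0).1 (f i0).2.1 x|)
      (fun x y ex ey => Kill.close ha h7 (by omega) ey.1 ex.1 ey.2.1 ex.2.1 ey.2.2) _
      fun i hi => ?_
    obtain ⟨hi, e⟩ := Finset.mem_filter.1 hi
    obtain ⟨x, hx, hx', hb, hd⟩ := hf i hi
    rw [e] at hb hd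
    exact ⟨x, hx', hx, hb.1, hd⟩
  rw [Finset.card_eq_sum_card_image f T, Nat.cast_sum]
  refine (Finset.sum_le_card_nsmul _ _ _ c2).trans ?_
  rw [nsmul_eq_mul, ← P_mul (a := 2 * G + 5) (b := ρ + 2) (c := ρ + 2 * G + 7) (by omega),
    ← P_mul (a := α0 + β0 + γ0 + 3 * G + 8) (b := ρ + 2) (c := ρ + α0 + β0 + γ0 + 3 * G + 10)
      (by omega), ← add_mul]
  exact mul_le_mul_of_nonneg_right c1 (P_pos _).le

theorem kill3 (h : KillGStmt) : Kill3Stmt := by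
  intro r m j l F ρ α β γ B hl hF h1 h2 h3 h4 h5 A hA T hT
  have x0 := node_left m A
  refine (h m j A (F + 2) ρ _ _ _ α β γ B _ x0
    (fun a b c hb => z r m l _ a b c (hA _ x0) (by omega) hb) (by omega) (by omega) (by omega)
    (by omega) (by omega) (by omega) h4 h5 T hT).trans (P_add_le (by omega) (by omega))

end ExOrd
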