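import Pool.Agent.Lib.MP_a94b90_nt.ED.Stmt
import Pool.Agent.Lib.MP_a94b90_nt.EX.Light

/-! ED: calculus of light events with a level dependent growth rate. -/

namespace ExOrd
open Set

namespace DLight2

theorem grow {n j : ℕ} {S : ℕ → Finset ℕ} {lam : ℕ → ℝ} {μ : ℝ} (hμ : 0 ≤ μ)
    (h : ∀ m, n ≤ m → m + 1 < j → lam m * ((S m).card : ℝ) ≤ ((S (m + 1)).card : ℝ)) {m : ℕ}
    (hm : n ≤ m) (hl : ∀ i, m ≤ i → μ ≤ lam i) :
    ∀ d : ℕ, m + d < j → μ ^ d * ((S m).card : ℝ) ≤ ((S (m + d)).card : ℝ)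
  | 0, _ => by simp
  | d + 1, hd => by
    have h1 := grow hμ h hm hl d (by omega)
    have h2 := h (m + d) (by omega) (by omega)
    calc μ ^ (d + 1) * ((S m).card : ℝ) = μ * (μ ^ d * (S m).card) := by ring
      _ ≤ μ * (S (m + d)).card := mul_le_mul_of_nonneg_left h1 hμ
      _ ≤ lam (m + d) * (S (m + d)).card :=
        mul_le_mul_of_nonneg_right (hl _ (by omega)) (Nat.cast_nonneg _)
      _ ≤ _ := h2

theorem empty {r n j : ℕ} {lam : ℕ → ℝ} {E : ℝ → Prop} {w : ℝ} (h : ∀ x, ¬ E x) (hw : 0 ≤ w) :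
    Light2 r n j lam E w := by
  intro S _ _ T hT
  have : T = ∅ := Finset.eq_empty_of_forall_notMem fun i hi => by
    obtain ⟨x, _, ex⟩ := (hT i hi).2
    exact h x ex
  rw [this, Finset.card_empty, Nat.cast_zero]
  exact mul_nonneg hw (Nat.cast_nonneg _)

end DLight2

theorem lfew2 : LFew2Stmt := by
  classical
  intro r n m j t lam μ E ν w hm hj hF h7 hμ hμ0 h8 hw S hG hg T hT
  obtain ⟨d, rfl⟩ : ∃ d, j = m + (d + t + 1) := ⟨j - m - t - 1, by omega⟩
  have e1 : m + (d + t + 1) - m = d + t + 1 := by omega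
  have hj' : m < m + (d + t + 1) := by omega
  have hmap : ∀ i ∈ T, i / 8 ^ (d + t + 1) ∈ S m := fun i hi => by
    have := (hT i hi).1 m hm hj'
    rwa [e1] at this
  have h1 : (T.card : ℝ) ≤ (S m).card * P ν := by
    rw [Finset.card_eq_sum_card_fiberwise (f := fun i => i / 8 ^ (d + t + 1)) (t := S m) hmap]
    push_cast
    rw [← nsmul_eq_mul]
    refine Finset.sum_le_card_nsmul _ _ _ fun A hA => hF A (hG m hm hj' A hA) _ fun i hi => ?_
    obtain ⟨hi1, hi2⟩ := Finset.mem_filter.1 hi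
    obtain ⟨x, hx, ex⟩ := (hT i hi1).2
    exact ⟨x, hi2 ▸ node_sub m (d + t + 1) i hx, hx, ex⟩
  have h2 : (7 : ℝ) ^ d * (S m).card ≤ (S (m + d)).card :=
    DLight2.grow (by norm_num) hg hm (fun i _ => h7 i) d (by omega)
  have h2' : μ ^ t * ((S (m + d)).card : ℝ) ≤ (S (m + d + t)).card :=
    DLight2.grow hμ0 hg (by omega) (fun i hi => hμ i (by omega)) t (by omega)
  have e2 : m + (d + t + 1) - 1 = m + d + t := by omega
  have h3 : P (ν + w + 1 - 3 * t) ≤ 7 ^ d := LightA.seven (by push_cast at hw ⊢; linarith)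
  have h4 : P (3 * t - 1) ≤ μ ^ t := by
    have a1 : P (3 * t) = 2 ^ 1 * P (3 * t - 1) := P_shift 1 (by push_cast; ring)
    have a2 : P (3 * t) = (8 : ℝ) ^ t := by
      rw [show (3 * (t : ℤ)) = ((3 * t : ℕ) : ℤ) by push_cast; ring, P_nat, pow_mul]
      norm_num
    linarith
  have h5 : P ν ≤ P (-w) * (μ ^ t * 7 ^ d) := by
    have a1 : P ν = P (-w) * (P (3 * t - 1) * P (ν + w + 1 - 3 * t)) := by
      rw [← P_add, ← P_add]; congr 1; ring
    rw [a1]
    exact mul_le_mul_of_nonneg_left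
      (mul_le_mul h4 h3 (P_pos _).le (pow_nonneg hμ0 _)) (P_pos _).le
  rw [e2]
  calc (T.card : ℝ) ≤ (S m).card * (P (-w) * (μ ^ t * 7 ^ d)) :=
        h1.trans (mul_le_mul_of_nonneg_left h5 (Nat.cast_nonneg _))
    _ = P (-w) * (μ ^ t * (7 ^ d * (S m).card)) := by ring
    _ ≤ _ := mul_le_mul_of_nonneg_left
        ((mul_le_mul_of_nonneg_left h2 (pow_nonneg hμ0 _)).trans h2') (P_pos _).le

theorem lor2 : LOr2Stmt := by
  classical
  intro r n j lam E E1 E2 w w1 w2 h1 h2 hE hw S hG h7 T hT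
  have a1 := h1 S hG h7 (T.filter fun i => ∃ x ∈ Node j i, E1 x) fun i hi =>
    ⟨(hT i (Finset.mem_filter.1 hi).1).1, (Finset.mem_filter.1 hi).2⟩
  have a2 := h2 S hG h7 (T.filter fun i => ¬ ∃ x ∈ Node j i, E1 x) fun i hi => by
    obtain ⟨hi1, hi2⟩ := Finset.mem_filter.1 hi
    obtain ⟨x, hx, ex⟩ := (hT i hi1).2
    exact ⟨(hT i hi1).1, x, hx, (hE x ex).resolve_left fun h => hi2 ⟨x, hx, h⟩⟩
  have a3 := Finset.card_filter_add_card_filter_not (s := T) fun i => ∃ x ∈ Node j i, E1 x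
  have a4 := mul_le_mul_of_nonneg_right hw (Nat.cast_nonneg (α := ℝ) (S (j - 1)).card)
  rw [← a3, Nat.cast_add]
  linarith

theorem lsum2 : LSum2Stmt := by
  intro r n j N lam C E c h
  have key : ∀ M, M ≤ N → Light2 r n j lam (fun x => ∃ l, l < M ∧ C l ∧ E l x)
      (∑ l ∈ Finset.range M, P (-(c + (l / 16 : ℕ)))) := by
    intro M
    induction M with
    | zero => exact fun _ => DLight2.empty (fun x ⟨l, hl, _⟩ => absurd hl (by omega)) (by simp)
    | succ M ih =>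
      intro hM
      have h1 : Light2 r n j lam (fun x => C M ∧ E M x) (P (-(c + (M / 16 : ℕ)))) := by
        by_cases hC : C M
        · exact light2_mono (h M hM hC) (fun x hx => hx.2) le_rfl
        · exact DLight2.empty (fun x hx => hC hx.1) (P_pos _).le
      refine lor2 r n j lam _ _ _ _ _ _ (ih (by omega)) h1 ?_ (Finset.sum_range_succ _ _).ge
      rintro x ⟨l, hl, h2⟩
      rcases Nat.lt_succ_iff_lt_or_eq.1 hl with h3 | rfl
      · exact Or.inl ⟨l, h3, h2⟩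
      · exact Or.inr h2
  refine light2_mono (key N le_rfl) (fun _ hx => hx) ?_
  have h1 := LightA.geo c N
  have h2 : ((N % 16 : ℕ) : ℝ) ≤ 32 := by exact_mod_cast (show N % 16 ≤ 32 by omega)
  have h3 := mul_nonneg (sub_nonneg.2 h2) (P_pos (-(c + (N / 16 : ℕ)))).le
  linarith

end ExOrd
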