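import Pool.Agent.Lib.MP_a94b90_nt.ED.Stmt
import Pool.Agent.Lib.MP_a94b90_nt.EX.All

/-! ED: a good point that avoids a light family of nodes. -/

namespace ExOrd
open Set

namespace DLow1

theorem start {r : ℕ} (hr : 200 ≤ r) (x : ℝ) : StartAt r 0 x := by
  refine ⟨fun u l a b c hu hb => ?_, fun u hu ρ h _ => ?_⟩
  · by_contra hd
    have := rg_box hb hd
    unfold kk at hu
    omega
  · have h1 : (1 : ℝ) ≤ ρ.den := by exact_mod_cast ρ.pos
    exact absurd (h1.trans h) (not_le.2 (P_lt_one (by omega)))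

theorem inv_ge {r : ℕ} (hr : 200 ≤ r) : P (-(r / 4 : ℕ)) ≤ 1 / (2 * (r : ℝ) + 2) := by
  obtain ⟨k, hk⟩ : ∃ k, r / 4 = k + 5 := ⟨r / 4 - 5, by omega⟩
  have h1 : 2 * r + 2 ≤ 2 ^ (r / 4) := by
    have := Nat.lt_two_pow_self (n := k)
    rw [hk, pow_add]
    omega
  rw [P_neg]
  exact one_div_le_one_div_of_le (by positivity) (by exact_mod_cast h1)

theorem prod_ge {lam : ℕ → ℝ} {L : ℝ} {M : ℕ} (h0 : 0 ≤ L) (h8 : L ≤ 8) (h7 : ∀ m, 7 ≤ lam m)
    (h : ∀ m, M ≤ m → lam m = L) (j : ℕ) :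
    L ^ j ≤ 2 ^ min j M * ∏ m ∈ Finset.Ico 0 j, lam m := by
  induction j with
  | zero => simp
  | succ j ih =>
    have hp : 0 ≤ ∏ m ∈ Finset.Ico 0 j, lam m :=
      Finset.prod_nonneg fun m _ => by linarith [h7 m]
    rw [Finset.prod_Ico_succ_top (Nat.zero_le j), pow_succ]
    rcases lt_or_ge j M with hj | hj
    · rw [min_eq_left hj, pow_succ]
      rw [min_eq_left hj.le] at ih
      calc L ^ j * L ≤ (2 ^ j * ∏ m ∈ Finset.Ico 0 j, lam m) * (2 * lam j) :=
            mul_le_mul ih (by linarith [h7 j]) h0 (by positivity)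
        _ = _ := by ring
    · rw [min_eq_right (hj.trans (Nat.le_succ j)), h j hj, ← mul_assoc]
      rw [min_eq_right hj] at ih
      exact mul_le_mul_of_nonneg_right ih h0

end DLow1

open DLow1 in
theorem low1 (hp : Phase2Stmt) (h2 : Main2Stmt) (h3 : Main3Stmt) : Low1Stmt := by
  intro r θ C hr h1 hC _
  have i1 := inv_ge hr
  have i2 : 1 / (2 * (r : ℝ) + 2) ≤ 1 := by
    rw [div_le_one (by positivity)]
    linarith [(Nat.cast_nonneg r : (0 : ℝ) ≤ r)]
  have i3 : P (33 - 3 * (2 * r + 2)) ≤ P (-(r / 4 : ℕ)) := P_le (by omega)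
  have i4 := P_pos (33 - 3 * (2 * r + 2))
  obtain ⟨L, hL⟩ : ∃ L, L = 8 - P (33 - 3 * (2 * r + 2)) := ⟨_, rfl⟩
  rw [← hL] at h1
  have L7 : 7 ≤ L := by linarith
  have L8 : L ≤ 8 := by linarith
  have θ0 : 0 ≤ θ := by nlinarith
  have hc : ∀ j, ((C j).card : ℝ) ≤ P (-10 * (2 * r + 2)) * L ^ j := fun j => by
    have k1 : ((C j).card : ℝ) * θ ^ j ≤ P (-10 * (2 * r + 2)) :=
      (Finset.single_le_sum (f := fun j => ((C j).card : ℝ) * θ ^ j) (fun _ _ => by positivity)
        (Finset.self_mem_range_succ j)).trans (hC (j + 1))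
    calc ((C j).card : ℝ) ≤ (C j).card * (θ * L) ^ j :=
          le_mul_of_one_le_right (Nat.cast_nonneg _) (one_le_pow₀ h1)
      _ = (C j).card * θ ^ j * L ^ j := by ring
      _ ≤ _ := mul_le_mul_of_nonneg_right k1 (by positivity)
  obtain ⟨lam, hl⟩ : ∃ lam : ℕ → ℝ, ∀ j, lam j =
      if j < 2 * r then 7 else if j < 7 * (2 * r + 2) then 8 - 1 / (2 * (r : ℝ) + 2) else L :=
    ⟨_, fun _ => rfl⟩
  have l7 : ∀ j, 7 ≤ lam j := fun j => by
    rw [hl]
    split_ifs <;> linarith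
  have l8 : ∀ j, 2 * r ≤ j → 8 - 1 / (2 * (r : ℝ) + 2) ≤ lam j := fun j hj => by
    rw [hl, if_neg (by omega)]
    split_ifs <;> linarith
  have key : ∀ j (w : ℝ), P (3 - 3 * (2 * r + 2)) ≤ w →
      (cntB C 0 0 (j + 1) : ℝ) ≤ w * ∏ m ∈ Finset.Ico 0 j, lam m := fun j w hw => by
    have k1 : (cntB C 0 0 (j + 1) : ℝ) ≤ (C (j + 1)).card := by
      exact_mod_cast Finset.card_filter_le _ _
    have k2 := prod_ge (M := 7 * (2 * r + 2)) (by linarith) L8 l7
      (fun m hm => by rw [hl, if_neg (by omega), if_neg (by omega)]) j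
    have k3 : 0 ≤ ∏ m ∈ Finset.Ico 0 j, lam m :=
      Finset.prod_nonneg fun m _ => by linarith [l7 m]
    rw [← P_nat] at k2
    have k4 : P (-10 * (2 * r + 2)) * (P (min j (7 * (2 * r + 2)) : ℕ) * P 3) ≤ w := by
      rw [← P_add, ← P_add]
      exact (P_le (by omega)).trans hw
    have k5 : P 3 = 8 := by unfold P; norm_num
    have k6 := P_pos (-10 * (2 * r + 2))
    have k7 := P_pos (min j (7 * (2 * r + 2)) : ℕ)
    calc (cntB C 0 0 (j + 1) : ℝ) ≤ P (-10 * (2 * r + 2)) * (L ^ j * L) := by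
          rw [← pow_succ]; exact k1.trans (hc _)
      _ ≤ P (-10 * (2 * r + 2)) *
            ((P (min j (7 * (2 * r + 2)) : ℕ) * ∏ m ∈ Finset.Ico 0 j, lam m) * 8) := by gcongr
      _ = P (-10 * (2 * r + 2)) * (P (min j (7 * (2 * r + 2)) : ℕ) * P 3) *
            ∏ m ∈ Finset.Ico 0 j, lam m := by rw [k5]; ring
      _ ≤ _ := mul_le_mul_of_nonneg_right k4 k3
  obtain ⟨p, p0, p1⟩ := hp r 0 0 lam (fun j => if j < 2 * r then 1 / 2 else
      if j < 7 * (2 * r + 2) then P (-(r / 4 : ℕ) - 1) else P (32 - 3 * (2 * r + 2)))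
    (fun _ _ => False) C (fun x _ => (start hr x).good) fun j _ => by
      refine ⟨by linarith [l7 j], ?_⟩
      rw [hl j]
      split_ifs with c1 c2
      · refine ⟨light2_mono (light2_of_light (main (kill z cnt) rat lfew lor lsum r 0 j (by omega)
          (Nat.zero_le j)) l7) (fun x h => ⟨start hr x, h.2.1, h.2.2.resolve_right id⟩) le_rfl,
          key j _ ?_⟩
        have := P_le (show (3 - 3 * (2 * r + 2) : ℤ) ≤ -1 by omega)
        rw [P_neg_one] at this
        linarith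
      · refine ⟨light2_mono (light2_of_light (h2 r 0 j (r / 4) (by omega) (by omega)) l7)
          (fun x h => ⟨start hr x, h.2.1, h.2.2.resolve_right id⟩) le_rfl, key j _ ?_⟩
        have k1 := P_le (show (3 - 3 * (2 * r + 2) : ℤ) ≤ -(r / 4 : ℕ) - 1 by omega)
        have k2 := P_succ (-(r / 4 : ℕ) - 1)
        rw [sub_add_cancel] at k2
        linarith
      · refine ⟨light2_mono (h3 r j lam hr (by omega) l7 l8)
          (fun x h => ⟨h.2.1, h.2.2.resolve_right id⟩) le_rfl, key j _ ?_⟩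
        have k1 := P_le (show (3 - 3 * (2 * r + 2) : ℤ) ≤ 32 - 3 * (2 * r + 2) by omega)
        have k2 : P (33 - 3 * (2 * r + 2)) = 2 ^ 1 * P (32 - 3 * (2 * r + 2)) :=
          P_shift 1 (by omega)
        linarith
  obtain ⟨ξ, hξ⟩ := IsCompact.nonempty_iInter_of_sequence_nonempty_isCompact_isClosed
    (fun j => Node j (p j))
    (fun j => by simpa only [pow_one, (p1 j (Nat.zero_le j)).1] using node_sub j 1 (p (j + 1)))
    (fun j => ⟨_, node_left _ _⟩) isCompact_Icc fun j => isClosed_Icc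
  replace hξ := mem_iInter.1 hξ
  refine ⟨ξ, by simpa only [p0, node_zero] using hξ 0, fun j => ?_, fun j => ⟨p j, hξ j, ?_⟩⟩
  · cases j with
    | zero => exact (start hr ξ).good
    | succ j => exact ((p1 j (Nat.zero_le j)).2.2 ξ (hξ _)).1
  · cases j with
    | zero =>
      intro h
      have k1 : (1 : ℝ) ≤ (C 0).card := by exact_mod_cast Finset.card_pos.2 ⟨_, h⟩
      have k2 := hc 0
      have k3 := P_lt_one (show (-10 * (2 * r + 2) : ℤ) < 0 by omega)
      rw [pow_zero, mul_one] at k2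
      linarith
    | succ j => exact (p1 j (Nat.zero_le j)).2.1

end ExOrd
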