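import Pool.Agent.Lib.MP_a94b90_nt.ED.Stmt
import Pool.Agent.Lib.MP_a94b90_nt.EX.Z
import Pool.Agent.Lib.MP_a94b90_nt.EX.Cnt
import Pool.Agent.Lib.MP_a94b90_nt.EX.Kill
import Pool.Agent.Lib.MP_a94b90_nt.EX.Rat
import Pool.Agent.Lib.MP_a94b90_nt.EX.Light

/-! ED: the main step with the small weight `2^(-h-1)`. -/

namespace ExOrd

namespace DMain2

/-- one class of quadratic forms, ancestor at depth `d`. -/
theorem cls (r n J l d : ℕ) (w : ℤ) (h1 : n + d ≤ J) (h2 : 2 * l + (2 * r + 2) ≤ J)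
    (h3 : d + 3 ≤ 2 * r + 2 + l) (h4 : 1 ≤ d) (h5 : 5 * (19 + w) ≤ 4 * d) :
    Light r n J (EvK (-(2 * r + 2) - 2 * J - 2 * l) (J - (2 * r + 2) - 2 * l)
      (J - (2 * r + 2) + l) (J - (2 * r + 2) - 2 * l - 3)) (P (-w)) := by
  refine lfew r n (J - d) J _ _ _ (by omega) (by omega)
    (kill z cnt r (J - d) J l d 5 _ _ _ _ ?_ ?_ ?_ ?_ ?_ ?_ ?_) ?_ <;> omega

end DMain2

theorem main2 : Main2Stmt := by
  intro r n j h hr hn
  have h1 := lsum r n (j + 1) (j + 1) (fun l => n + kk l < j + 1 ∧ 2 * l + (2 * r + 2) ≤ j + 1)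
    (fun l => EvK (-(2 * r + 2) - 2 * (j + 1 : ℕ) - 2 * l) ((j + 1 : ℕ) - (2 * r + 2) - 2 * l)
      ((j + 1 : ℕ) - (2 * r + 2) + l) ((j + 1 : ℕ) - (2 * r + 2) - 2 * l - 3)) (8 + h) (by
      rintro l - ⟨c1, c2⟩
      unfold kk at c1
      by_cases c : 32 * h ≤ l
      · exact DMain2.cls r n (j + 1) l (40 + l / 8) _ (by omega) c2 (by omega) (by omega)
          (by omega)
      · exact DMain2.cls r n (j + 1) l (40 + 2 * h + l / 8) _ (by omega) c2 (by omega) (by omega)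
          (by omega))
  have h2 : Light r n (j + 1) (EvQ (2 * (j + 1 : ℕ) - 2 * r) (1 - 3 * (j + 1 : ℕ)))
      (P (-(h + 3))) :=
    lfew r n (j + 1 - (4 + h)) (j + 1) _ _ (h + 3) (by omega) (by omega)
      (rat r (j + 1 - (4 + h)) (j + 1) 2 (2 * (j + 1 : ℕ) - 2 * r) (1 - 3 * (j + 1 : ℕ))
        (by omega) (by omega) (by omega)) (by omega)
  refine lor r n (j + 1) _ _ _ _ _ _ h1 h2 ?_ (P_add_le (by omega) (by omega))
  rintro x ⟨hS, hG, hB⟩
  by_cases c : PP r (j + 1) x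
  · have c2 : ¬ RR r (j + 1) x := fun e => hB ⟨c, e⟩
    right
    unfold RR at c2
    push Not at c2
    obtain ⟨ρ, a1, a2, a3⟩ := c2
    have a4 : P (j - r) < ρ.den := by
      by_contra e
      exact absurd ((hG.2 ρ (not_lt.1 e) a2).trans_le a3) (not_lt.2 (P_le (by omega)))
    have a5 : (0 : ℝ) ≤ ρ.den := Nat.cast_nonneg _
    refine ⟨ρ, ?_, ?_⟩
    · refine (pow_le_pow_left₀ a5 a1 2).trans ?_
      rw [P_sq]
      exact P_le (by omega)
    · refine div_le_P (d := (ρ.den : ℝ) ^ 3) (b := 3 * (j - r)) (a := -3 * r - 2) ?_ ?_ (by omega)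
      · rw [← P_cube, abs_of_nonneg (pow_nonneg a5 3)]
        exact pow_le_pow_left₀ (P_pos _).le a4.le 3
      · rwa [abs_mul, abs_of_nonneg (pow_nonneg a5 3)]
  · left
    unfold PP at c
    push Not at c
    obtain ⟨l, a, b, c, hb, hd⟩ := c
    have a1 := rg_box hb hd
    refine ⟨l, by omega, ⟨?_, a1⟩, a, b, c, hb, ?_⟩
    · by_contra e
      refine hd (hS.1 (j + 1 - n) l a b c (by omega) ?_)
      rwa [show n + (j + 1 - n) = j + 1 by omega]
    · by_contra e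
      exact hd (hG.1 (l + 1) a b c (up_box hb (not_lt.1 e)))

end ExOrd
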