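import Pool.Agent.Lib.MP_a94b90_nt.ED.Stmt
import Pool.Agent.Lib.MP_a94b90_nt.EX.Rat

/-! ED: the sharp main step, a good node has very few bad children. -/

namespace ExOrd

namespace DMain3

theorem pow_le (r t : ℕ) (ht : t ≤ 3 * (2 * r + 2)) :
    (8 : ℝ) ^ t ≤ 2 * (8 - 1 / (2 * (r : ℝ) + 2)) ^ t := by
  have he : (0 : ℝ) < 2 * (r : ℝ) + 2 := by positivity
  have h0 : (0 : ℝ) ≤ r := Nat.cast_nonneg r
  have h1 : 1 / (2 * (r : ℝ) + 2) ≤ 1 := by rw [div_le_one he]; linarith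
  have h2 : (t : ℝ) * (1 / (2 * (r : ℝ) + 2)) ≤ 3 := by
    rw [mul_one_div, div_le_iff₀ he]; exact_mod_cast ht
  generalize 1 / (2 * (r : ℝ) + 2) = u at h1 h2
  have h3 := one_add_mul_le_pow (a := -u / 8) (by linarith) t
  have h4 : (8 - u) ^ t = 8 ^ t * (1 + -u / 8) ^ t := by rw [← mul_pow]; congr 1; ring
  have h5 : (0 : ℝ) < 8 ^ t := by positivity
  rw [h4]
  nlinarith

theorem mu_nonneg (r : ℕ) : (0 : ℝ) ≤ 8 - 1 / (2 * (r : ℝ) + 2) := by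
  have he : (0 : ℝ) < 2 * (r : ℝ) + 2 := by positivity
  have h0 : (0 : ℝ) ≤ r := Nat.cast_nonneg r
  have h1 : 1 / (2 * (r : ℝ) + 2) ≤ 1 := by rw [div_le_one he]; linarith
  linarith

end DMain3

open DMain3 in
theorem main3 (hk : Kill3Stmt) (hf : LFew2Stmt) (ho : LOr2Stmt) (hs : LSum2Stmt) : Main3Stmt := by
  intro r j lam hr hj h7 hm
  have h1 := hs r 0 (j + 1) (j + 1) lam (fun l => 2 * l + (2 * r + 2) ≤ j + 1)
    (fun l => EvK (-(2 * r + 2) - 2 * (j + 1 : ℕ) - 2 * l) ((j + 1 : ℕ) - (2 * r + 2) - 2 * l)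
      ((j + 1 : ℕ) - (2 * r + 2) + l) ((j + 1 : ℕ) - (2 * r + 2) - 2 * l - 3))
    (3 * (2 * r + 2) - 26) (by
      intro l _ c
      refine hf r 0 (j + 1 - (6 * r + 4 + l / 8)) (j + 1) (6 * r + 3) lam _ _ _ _ (Nat.zero_le _)
        (by omega) (hk r (j + 1 - (6 * r + 4 + l / 8)) (j + 1) l (6 * r + 4 + l / 8) 5 _ _ _ _
          ?_ ?_ ?_ ?_ ?_ ?_ ?_) h7 (fun i hi => hm i (by omega)) (mu_nonneg r)
        (pow_le r _ (by omega)) ?_ <;> omega)
  have h2 := hf r 0 (j + 1 - (2 * r + 2)) (j + 1) (2 * r + 1) lam _ _ _ (3 * (2 * r + 2) - 8)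
    (Nat.zero_le _) (by omega)
    (rat r (j + 1 - (2 * r + 2)) (j + 1) 2 (2 * (j + 1 : ℕ) - 2 * r) (1 - 3 * (j + 1 : ℕ))
      (by omega) (by omega) (by omega)) h7 (fun i hi => hm i (by omega)) (mu_nonneg r)
    (pow_le r _ (by omega)) (by omega)
  refine ho r 0 (j + 1) lam _ _ _ _ _ _ h1 h2 ?_ (P_add_le (by omega) (by omega))
  rintro x ⟨hG, hB⟩
  by_cases c : PP r (j + 1) x
  · have c2 : ¬ RR r (j + 1) x := fun e => hB ⟨c, e⟩
    right
    unfold RR at c2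
    push Not at c2
    obtain ⟨ρ, a1, a2, a3⟩ := c2
    have a4 : P (j - r) < ρ.den := by
      by_contra e
      exact absurd ((hG.2 ρ (not_lt.1 e) a2).trans_le a3) (not_lt.2 (P_le (by omega)))
    have a5 : (0 : ℝ) ≤ ρ.den := Nat.cast_nonneg _
    refine ⟨ρ, ?_, ?_⟩
    · refine (pow_le_pow_left₀ a5 a1 2).trans ?_
      rw [P_sq]
      exact P_le (by omega)
    · refine div_le_P (d := (ρ.den : ℝ) ^ 3) (b := 3 * (j - r)) (a := -3 * r - 2) ?_ ?_ (by omega)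
      · rw [← P_cube, abs_of_nonneg (pow_nonneg a5 3)]
        exact pow_le_pow_left₀ (P_pos _).le a4.le 3
      · rwa [abs_mul, abs_of_nonneg (pow_nonneg a5 3)]
  · left
    unfold PP at c
    push Not at c
    obtain ⟨l, a, b, c, hb, hd⟩ := c
    have a1 := rg_box hb hd
    refine ⟨l, by omega, a1, a, b, c, hb, ?_⟩
    by_contra e
    exact hd (hG.1 (l + 1) a b c (up_box hb (not_lt.1 e)))

end ExOrd
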