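import Pool.Agent.Lib.MP_a94b90_nt.ED.Stmt

/-! ED row 18: most descendants of a node are nice. -/

namespace ExOrd
open Set

namespace DNice

theorem geo_down (c : ℤ) (n : ℕ) :
    ∑ l ∈ Finset.range n, P (c - l) + P (c + 1 - n) = P (c + 1) := by
  induction n with
  | zero => simp
  | succ n ih =>
    rw [Finset.sum_range_succ, ← ih]
    have h1 : P (c + 1 - n) = 2 * P (c - n) := by
      rw [← P_succ]; congr 1; ring
    have h2 : P (c + 1 - (n + 1 : ℕ)) = P (c - n) := by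
      congr 1; push_cast; ring
    rw [h1, h2]; ring

theorem geo_up (c : ℤ) (n : ℕ) : ∑ l ∈ Finset.range n, P (c + l) ≤ P (c + n) := by
  induction n with
  | zero => simpa using (P_pos c).le
  | succ n ih =>
    rw [Finset.sum_range_succ]
    have h1 : P (c + (n + 1 : ℕ)) = 2 * P (c + n) := by
      rw [← P_succ]; congr 1; push_cast; ring
    rw [h1]; linarith

theorem shell (c : ℤ) (u : ℝ) (n : ℕ) (h1 : u ≤ P c) (h2 : P (c - 3 * n) < u) :
    ∃ l, l < n ∧ u ≤ P (c - 3 * l) ∧ P (c - 3 * l - 3) < u := by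
  induction n with
  | zero =>
    exfalso
    have : P (c - 3 * (0 : ℕ)) = P c := by congr 1; simp
    linarith
  | succ n ih =>
    by_cases h : P (c - 3 * n) < u
    · obtain ⟨l, hl, h3⟩ := ih h
      exact ⟨l, by omega, h3⟩
    · refine ⟨n, by omega, not_lt.1 h, ?_⟩
      have : P (c - 3 * n - 3) = P (c - 3 * (n + 1 : ℕ)) := by congr 1; push_cast; ring
      rw [this]; exact h2

/-- a form in the absolute box with small derivative is excluded by `NoSp`. -/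
theorem big {κ m t l0 A : ℕ} {x0 x : ℝ} (h0 : x0 ∈ Node m A) (hx : x ∈ Node m A)
    (hl : t = l0 + κ + 40) (htm : t ≤ m) (hs : NoSp κ m (m + t) x0) {a b c : ℤ}
    (hb : Bx (-10 - 2 * (m + t : ℕ)) ((m + t : ℕ) - 10) ((m + t : ℕ) - 10) x a b c)
    (hne : ¬ (a = 0 ∧ b = 0 ∧ c = 0)) : P ((m + t : ℕ) - 10 - 3 * l0) < |Dv a b x| := by
  by_contra hc
  have hD : |Dv a b x| ≤ P ((m + t : ℕ) - 10 - 3 * l0) := not_lt.1 hc
  have hd : |x0 - x| ≤ P (-3 * m) := node_dist h0 hx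
  have h1 : |(a : ℝ) * (x0 - x)| ≤ P ((m + t : ℕ) - 10 - 3 * m) := mul_le_P hb.2.2 hd (by omega)
  have h2 : |(a : ℝ) * (x0 - x) * (x0 - x)| ≤ P ((m + t : ℕ) - 10 - 6 * m) :=
    mul_le_P h1 hd (by omega)
  have h3 : |Dv a b x * (x0 - x)| ≤ P ((m + t : ℕ) - 10 - 3 * l0 - 3 * m) :=
    mul_le_P hD hd (by omega)
  refine hne (hs a b c ⟨?_, ?_, le_P hb.2.2 (by omega)⟩)
  · rw [Lv_taylor a b c x x0]
    have h4 : |Lv a b c x + Dv a b x * (x0 - x)| ≤ P (-2 * (m + t : ℕ) + 3 * κ + 119) :=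
      add_le_P hb.1 h3 (by omega) (by omega)
    exact add_le_P h4 h2 (by omega) (by omega)
  · rw [Dv_taylor a b x x0]
    have h4 : |2 * ((a : ℝ) * (x0 - x))| ≤ P ((m + t : ℕ) - 9 - 3 * m) :=
      two_mul_le_P h1 (by omega)
    exact add_le_P hD h4 (by omega) (by omega)

theorem cls (h : KillGStmt) {κ m t l0 l A : ℕ} {x0 : ℝ} (h0 : x0 ∈ Node m A) (hk : InK κ x0)
    (hl : t = l0 + κ + 40) (htm : t ≤ m) (hll : l < l0) (T : Finset ℕ)
    (hT : ∀ i ∈ T, ∃ x, x ∈ Node m A ∧ x ∈ Node (m + t) i ∧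
      EvK (-10 - 2 * (m + t : ℕ)) ((m + t : ℕ) - 10 - 3 * l) ((m + t : ℕ) - 10)
        ((m + t : ℕ) - 10 - 3 * l - 3) x) :
    (T.card : ℝ) ≤ P (3 * t - 27 - l0 + l) + P (3 * t - 9 - l) := by
  obtain ⟨G, hG⟩ : ∃ G : ℕ, G + l = t + κ / 3 := ⟨t - l + κ / 3, by omega⟩
  have key := h m (m + t) A G (5 + 3 * l) ((m + t : ℕ) - 10 - 3 * l - 3 * m - G + 2)
    ((m + t : ℕ) - 10 - 3 * l - G + 2) ((m + t : ℕ) - 10 - G + 2) _ _ _ _ x0 h0
    (fun a b c hb => zk (M := (m + t : ℕ) - 10 - G + 2) hk hb (by omega) (by omega) le_rfl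
      (by omega))
    (by omega) (by omega) (by omega) (by omega) (by omega) (by omega) (by omega) (by omega) T hT
  exact key.trans (add_le_add (P_le (by omega)) (P_le (by omega)))

end DNice

theorem nice (h : KillGStmt) : NiceStmt := by
  classical
  intro κ m t A x0 h0 hk ht htm hs T hT
  obtain ⟨l0, hl⟩ : ∃ l0 : ℕ, t = l0 + κ + 40 := ⟨t - κ - 40, by omega⟩
  let F : ℕ → Finset ℕ := fun l => T.filter fun i => ∃ x, x ∈ Node m A ∧ x ∈ Node (m + t) i ∧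
    EvK (-10 - 2 * (m + t : ℕ)) ((m + t : ℕ) - 10 - 3 * l) ((m + t : ℕ) - 10)
      ((m + t : ℕ) - 10 - 3 * l - 3) x
  have hsub : T ⊆ (Finset.range l0).biUnion F := by
    intro i hi
    obtain ⟨hA, x, hx, hn⟩ := hT i hi
    have hxA : x ∈ Node m A := hA ▸ node_sub m t i hx
    unfold Nice at hn
    push Not at hn
    obtain ⟨a, b, c, hb, hne⟩ := hn
    have h1 := DNice.big h0 hxA hl htm hs hb (fun h' => hne h'.1 h'.2.1 h'.2.2)
    obtain ⟨l, hll, h2, h3⟩ := DNice.shell _ _ l0 hb.2.1 h1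
    exact Finset.mem_biUnion.2 ⟨l, Finset.mem_range.2 hll,
      Finset.mem_filter.2 ⟨hi, x, hxA, hx, a, b, c, ⟨hb.1, h2, hb.2.2⟩, h3⟩⟩
  have h1 : (T.card : ℝ) ≤ ∑ l ∈ Finset.range l0, ((F l).card : ℝ) := by
    exact_mod_cast (Finset.card_le_card hsub).trans Finset.card_biUnion_le
  have h2 : ∑ l ∈ Finset.range l0, ((F l).card : ℝ) ≤
      ∑ l ∈ Finset.range l0, (P (3 * t - 27 - l0 + l) + P (3 * t - 9 - l)) :=
    Finset.sum_le_sum fun l hll => DNice.cls h h0 hk hl htm (Finset.mem_range.1 hll) (F l)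
      fun i hi => (Finset.mem_filter.1 hi).2
  rw [Finset.sum_add_distrib] at h2
  have h3 := DNice.geo_up (3 * t - 27 - l0) l0
  have h4 := DNice.geo_down (3 * t - 9) l0
  have h5 := P_pos (3 * t - 9 + 1 - l0)
  have h6 : P (3 * t - 27 - l0 + l0) + P (3 * t - 9 + 1) ≤ P (3 * t - 7) :=
    P_add_le (by omega) (by omega)
  linarith

end ExOrd
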