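import Pool.Agent.Lib.MP_a94b90_nt.ED.Stmt
import Pool.Agent.Lib.MP_a94b90_nt.EX.Phase

/-! ED row 1: an infinite phase of the tree construction. -/

namespace ExOrd
open Set

namespace DPhase2
open Phase

/-- nodes with descendants at all depths. -/
def Alive (i : ℕ) (Q : ℕ → ℕ → Prop) (d k : ℕ) : Prop :=
  ∀ e, ∃ k' ∈ Sd i Q (d + e), k' / 8 ^ e = k

theorem alive_mem {i : ℕ} {Q : ℕ → ℕ → Prop} {d k : ℕ} (h : Alive i Q d k) : k ∈ Sd i Q d := by
  obtain ⟨k', h1, h2⟩ := h 0
  rw [pow_zero, Nat.div_one] at h2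
  rw [← h2]
  exact h1

theorem alive_step {i : ℕ} {Q : ℕ → ℕ → Prop} {d k : ℕ} (h : Alive i Q d k) :
    ∃ c, c / 8 = k ∧ Alive i Q (d + 1) c := by
  by_contra hc
  have h1 : ∀ c, ∃ e, c / 8 = k → ∀ k' ∈ Sd i Q (d + 1 + e), k' / 8 ^ e ≠ c := by
    intro c
    by_cases hk : c / 8 = k
    · by_contra h2
      refine hc ⟨c, hk, fun e => ?_⟩
      by_contra h3
      exact h2 ⟨e, fun _ k' hk' he => h3 ⟨k', hk', he⟩⟩
    · exact ⟨0, fun h2 => absurd h2 hk⟩
  choose e he using h1
  let M := (Finset.range (8 * k + 8)).sup e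
  obtain ⟨k', h2, h3⟩ := h (M + 1)
  have h4 : k' / 8 ^ M / 8 = k := by
    rw [Nat.div_div_eq_div_mul, ← pow_succ]; exact h3
  have h5 : e (k' / 8 ^ M) ≤ M := Finset.le_sup (Finset.mem_range.2 (by omega))
  obtain ⟨t, ht⟩ := Nat.exists_eq_add_of_le h5
  have h6 : k' ∈ Sd i Q (d + 1 + e (k' / 8 ^ M) + t) := by
    rw [show d + 1 + e (k' / 8 ^ M) + t = d + (M + 1) by omega]; exact h2
  refine he _ h4 _ (anc _ t k' h6) ?_
  rw [Nat.div_div_eq_div_mul, ← pow_add, add_comm t, ← ht]

theorem path {i : ℕ} {Q : ℕ → ℕ → Prop} (h : ∀ d, (Sd i Q d).Nonempty) :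
    ∃ q : ℕ → ℕ, q 0 = i ∧ ∀ d, q (d + 1) / 8 = q d ∧ Q (d + 1) (q (d + 1)) := by
  have h0 : Alive i Q 0 i := by
    intro e
    obtain ⟨k, hk⟩ := h (0 + e)
    refine ⟨k, hk, ?_⟩
    simpa [Sd] using anc 0 e k hk
  have h1 : ∀ d k, ∃ c, Alive i Q d k → c / 8 = k ∧ Alive i Q (d + 1) c := by
    intro d k
    by_cases ha : Alive i Q d k
    · obtain ⟨c, hc⟩ := alive_step ha
      exact ⟨c, fun _ => hc⟩
    · exact ⟨0, fun h2 => absurd h2 ha⟩
  choose f hf using h1
  let q : ℕ → ℕ := fun d => Nat.rec i (fun d k => f d k) d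
  have hq : ∀ d, Alive i Q d (q d) := by
    intro d
    induction d with
    | zero => exact h0
    | succ d ih => exact (hf d _ ih).2
  exact ⟨q, rfl, fun d => ⟨(hf d _ (hq d)).1, (mem_succ.1 (alive_mem (hq (d + 1)))).2⟩⟩

end DPhase2

open Phase DPhase2 in
theorem phase2 : Phase2Stmt := by
  classical
  intro r n i lam wt E B hst hE
  let Q : ℕ → ℕ → Prop := fun d k => k ∉ B (n + d) ∧
    ∀ x ∈ Node (n + d) k, Good r (n + d) x ∧ ¬ E (n + d) x
  let S : ℕ → Finset ℕ := fun m => Sd i Q (m - n)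
  have hS : ∀ d, S (n + d) = Sd i Q d := fun d => by
    show Sd i Q (n + d - n) = _
    rw [Nat.add_sub_cancel_left]
  have hgood : ∀ m, n ≤ m → ∀ A ∈ S m, ∀ x ∈ Node m A, Good r m x := by
    intro m hnm A hA x hx
    obtain ⟨d, rfl⟩ := Nat.exists_eq_add_of_le hnm
    rw [hS] at hA
    cases d with
    | zero =>
      have : A = i := by simpa [Sd] using hA
      subst this
      exact hst x hx
    | succ d => exact ((mem_succ.1 hA).2.2 x hx).1
  have hanc : ∀ m j k, n ≤ m → m ≤ j → k ∈ S j → k / 8 ^ (j - m) ∈ S m := by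
    intro m j k hnm hmj hk
    obtain ⟨d, rfl⟩ := Nat.exists_eq_add_of_le hnm
    obtain ⟨e, rfl⟩ := Nat.exists_eq_add_of_le hmj
    rw [add_assoc, hS] at hk
    rw [hS, Nat.add_sub_cancel_left]
    exact anc d e k hk
  have hsub : ∀ m j k, m ≤ j → Node j k ⊆ Node m (k / 8 ^ (j - m)) := by
    intro m j k hmj
    obtain ⟨e, rfl⟩ := Nat.exists_eq_add_of_le hmj
    rw [Nat.add_sub_cancel_left]
    exact node_sub m e k
  have hSn : S n = {i} := hS 0
  have hidx : ∀ j k, n ≤ j → k ∈ S j → k / 8 ^ (j - n) = i := by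
    intro j k hj hk
    have h1 := hanc n j k le_rfl hj hk
    rwa [hSn, Finset.mem_singleton] at h1
  have hroot : ∀ j k, n ≤ j → k ∈ S j → Node j k ⊆ Node n i := by
    intro j k hj hk
    rw [← hidx j k hj hk]
    exact hsub n j k hj
  have hprod : ∀ j, n ≤ j → (∀ m, n ≤ m → m < j → lam m * ((S m).card : ℝ) ≤ (S (m + 1)).card) →
      0 < ∏ m ∈ Finset.Ico n j, lam m ∧ ∏ m ∈ Finset.Ico n j, lam m ≤ (S j).card := by
    intro j hj
    induction j, hj using Nat.le_induction with
    | base => intro _; simp [hSn]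
    | succ j hj ih =>
      intro h
      obtain ⟨h1, h2⟩ := ih fun m a b => h m a (by omega)
      have h3 := (hE j hj).1
      rw [Finset.prod_Ico_succ_top hj]
      refine ⟨mul_pos h1 h3, le_trans ?_ (h j hj (by omega))⟩
      rw [mul_comm]
      exact mul_le_mul_of_nonneg_left h2 h3.le
  have hgrow : ∀ j, n ≤ j → lam j * ((S j).card : ℝ) ≤ (S (j + 1)).card := by
    intro j
    induction j using Nat.strong_induction_on with
    | _ j ih =>
      intro hj
      obtain ⟨_, hL, hB⟩ := hE j hj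
      obtain ⟨hp1, hp2⟩ := hprod j hj fun m a b => ih m b a
      let T1 := (ch (S j)).filter fun k => ∃ x ∈ Node (j + 1) k,
        x ∈ Node n i ∧ Good r j x ∧ (¬ Good r (j + 1) x ∨ E (j + 1) x)
      let T2 := (B (j + 1)).filter fun p => p / 8 ^ (j + 1 - n) = i
      have hT := hL S (fun m h1 _ => hgood m h1)
        (fun m h1 h2 => ih m (by omega) h1) T1 (by
          intro k hk
          obtain ⟨hk1, hk2⟩ := Finset.mem_filter.1 hk
          refine ⟨fun m h1 h2 => ?_, hk2⟩
          have h3 := hanc m j _ h1 (by omega) (mem_ch.1 hk1)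
          rw [Nat.div_div_eq_div_mul, ← pow_succ'] at h3
          rwa [show j + 1 - m = j - m + 1 by omega])
      rw [Nat.add_sub_cancel] at hT
      have hcov : ch (S j) ⊆ S (j + 1) ∪ (T1 ∪ T2) := by
        intro k hk1
        have hk3 := mem_ch.1 hk1
        by_contra hc
        rw [Finset.mem_union, Finset.mem_union, not_or, not_or] at hc
        obtain ⟨hk2, hc1, hc2⟩ := hc
        have hi := hidx j _ hj hk3
        rw [Nat.div_div_eq_div_mul, ← pow_succ', show j - n + 1 = j + 1 - n by omega] at hi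
        obtain ⟨d, rfl⟩ := Nat.exists_eq_add_of_le hj
        have hk4 := hk3
        rw [hS] at hk4
        rw [add_assoc, hS, mem_succ] at hk2
        refine hk2 ⟨hk4, fun hb => hc2 (Finset.mem_filter.2 ⟨hb, hi⟩), fun x hx => ?_⟩
        have hx1 : x ∈ Node (n + d) (k / 8) := by
          have := node_sub (n + d) 1 k hx
          rwa [pow_one] at this
        by_contra hg
        refine hc1 (Finset.mem_filter.2 ⟨hk1, x, hx, hroot _ _ hj hk3 hx1,
          hgood _ hj _ hk3 x hx1, ?_⟩)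
        by_contra h5
        rw [not_or, not_not] at h5
        exact hg h5
      have h1 := (Finset.card_le_card hcov).trans
        ((Finset.card_union_le _ _).trans (Nat.add_le_add_left (Finset.card_union_le _ _) _))
      rw [card_ch] at h1
      have h2 : 8 * ((S j).card : ℝ) ≤ (S (j + 1)).card + (T1.card + T2.card) := by
        exact_mod_cast h1
      have h3 : (T2.card : ℝ) = cntB B n i (j + 1) := rfl
      have h4 : 0 ≤ 8 - lam j - wt j :=
        nonneg_of_mul_nonneg_left ((Nat.cast_nonneg _).trans hB) hp1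
      have h5 := hB.trans (mul_le_mul_of_nonneg_left hp2 h4)
      linarith
  have hne : ∀ d, (Sd i Q d).Nonempty := by
    intro d
    obtain ⟨h1, h2⟩ := hprod (n + d) (by omega) fun m a _ => hgrow m a
    rw [← hS, ← Finset.card_pos]
    exact_mod_cast h1.trans_le h2
  obtain ⟨q, hq0, hq⟩ := path hne
  refine ⟨fun j => q (j - n), by simp [hq0], fun j hj => ?_⟩
  obtain ⟨d, rfl⟩ := Nat.exists_eq_add_of_le hj
  have e1 : n + d + 1 - n = d + 1 := by omega
  have e2 : n + d - n = d := by omega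
  simp only [e1, e2]
  exact ⟨(hq d).1, (hq d).2.1, (hq d).2.2⟩

end ExOrd
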