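import Pool.Agent.Lib.MP_a94b90_nt.ED.Stmt

/-! ED: counting of overlapping gaps in the 8-adic tree. -/

namespace ExOrd
open Finset

namespace DPor

theorem cnt {Q S : Finset ℕ} {e : ℕ} (h : ∀ p ∈ Q, p / 8 ^ e ∈ S) : Q.card ≤ S.card * 8 ^ e := by
  have h0 : 0 < 8 ^ e := by positivity
  rw [← card_range (8 ^ e), ← card_product]
  refine card_le_card_of_injOn (fun p => (p / 8 ^ e, p % 8 ^ e))
    (fun p hp => by simpa using ⟨h p hp, Nat.mod_lt _ h0⟩) fun p _ q _ hpq => ?_
  obtain ⟨h1, h2⟩ := Prod.mk.inj hpq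
  rw [← Nat.div_add_mod p (8 ^ e), h1, h2, Nat.div_add_mod]

theorem dd (p a b : ℕ) {c : ℕ} (h : a + b = c) : p / 8 ^ a / 8 ^ b = p / 8 ^ c := by
  rw [Nat.div_div_eq_div_mul, ← pow_add, h]

theorem full (S : Finset ℕ) (g : ℕ → ℕ) (d e : ℕ) (h : ∀ i ∈ S, g i / 8 ^ d = i) :
    ∃ F : Finset ℕ, F.card = S.card * 8 ^ e ∧ ∀ p ∈ F, ∃ i ∈ S, p / 8 ^ e = g i := by
  have h0 : 0 < 8 ^ e := by positivity
  have e1 : ∀ a r, r < 8 ^ e → (a * 8 ^ e + r) / 8 ^ e = a := fun a r hr => by
    rw [add_comm, Nat.add_mul_div_right _ _ h0, Nat.div_eq_of_lt hr, zero_add]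
  refine ⟨(S ×ˢ range (8 ^ e)).image fun t => g t.1 * 8 ^ e + t.2, ?_, fun p hp => ?_⟩
  · rw [card_image_of_injOn, card_product, card_range]
    rintro ⟨i, r⟩ h1 ⟨i', r'⟩ h2 h3
    simp only [coe_product, Set.mem_prod, mem_coe, mem_range] at h1 h2 h3
    have h4 : g i = g i' := by rw [← e1 (g i) r h1.2, h3, e1 _ _ h2.2]
    rw [h4, add_right_inj] at h3
    rw [← h i h1.1, h4, h i' h2.1, h3]
  · obtain ⟨t, ht, rfl⟩ := mem_image.1 hp
    exact ⟨t.1, (mem_product.1 ht).1, e1 _ _ (mem_range.1 (mem_product.1 ht).2)⟩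

theorem geo (n : ℕ) : ∑ a ∈ range n, (1 / 8 : ℝ) ^ (n - a) ≤ 1 / 7 := by
  induction n with
  | zero => simp
  | succ n ih =>
    rw [sum_range_succ, sum_congr rfl fun a ha => by
      rw [Nat.succ_sub (mem_range.1 ha).le, pow_succ], ← sum_mul, Nat.add_sub_cancel_left]
    linarith

theorem inter {F F' N N' : Finset ℕ} {g g' : ℕ → ℕ} {d e u c A : ℕ}
    (h : ∀ p ∈ F, ∃ i ∈ N, p / 8 ^ e = g i) (h' : ∀ p ∈ F', ∃ i ∈ N', p / 8 ^ (e + u) = g' i)
    (hg : ∀ i ∈ N, g i / 8 ^ d = i) (hN : ∀ i ∈ N', i / 8 ^ c = A) :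
    (F ∩ F').card ≤ 8 ^ (c + (u - d) + e) := by
  have h1 : (F ∩ F').card ≤ ((F ∩ F').image (· / 8 ^ e)).card * 8 ^ e :=
    cnt fun p hp => mem_image_of_mem _ hp
  have h2 : ((F ∩ F').image (· / 8 ^ e)).card ≤ ((F ∩ F').image (· / 8 ^ (e + d))).card := by
    refine card_le_card_of_injOn (· / 8 ^ d) (fun q hq => ?_) fun q hq q' hq' hqq => ?_
    · obtain ⟨p, hp, rfl⟩ := mem_image.1 hq
      exact mem_image.2 ⟨p, hp, (dd p e d rfl).symm⟩
    · obtain ⟨p, hp, rfl⟩ := mem_image.1 hq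
      obtain ⟨p', hp', rfl⟩ := mem_image.1 hq'
      obtain ⟨i, hi, e1⟩ := h p (mem_inter.1 hp).1
      obtain ⟨i', hi', e2⟩ := h p' (mem_inter.1 hp').1
      simp only [e1, e2, hg i hi, hg i' hi'] at hqq ⊢
      rw [hqq]
  have h3 : ((F ∩ F').image (· / 8 ^ (e + d))).card ≤
      (N'.image fun i => g' i / 8 ^ (d - u)).card * 8 ^ (u - d) := cnt fun q hq => by
    obtain ⟨p, hp, rfl⟩ := mem_image.1 hq
    obtain ⟨i, hi, e1⟩ := h' p (mem_inter.1 hp).2
    exact mem_image.2 ⟨i, hi, by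
      rw [← e1, dd p _ _ rfl, dd p (e + d) (u - d) (c := e + u + (d - u)) (by omega)]⟩
  have h4 : N'.card ≤ 8 ^ c := by
    simpa using cnt (S := {A}) fun i hi => mem_singleton.2 (hN i hi)
  rw [pow_add, pow_add]
  exact h1.trans (Nat.mul_le_mul_right _ (h2.trans (h3.trans
    (Nat.mul_le_mul_right _ (card_image_le.trans h4)))))

theorem pw {x T d u : ℕ} (h : x + d + min u d = T) :
    (8 : ℝ) ^ x ≤ 8 ^ T / 8 ^ d * ((1 / 8) ^ u + 1 / 8 ^ d) := by
  rw [← h, pow_add, pow_add, one_div_pow]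
  have h1 : (1 : ℝ) ≤ 8 ^ min u d * (1 / 8 ^ u + 1 / 8 ^ d) := by
    rcases le_total u d with q | q
    · rw [min_eq_left q, mul_add, mul_one_div_cancel (by positivity)]
      exact le_add_of_nonneg_right (by positivity)
    · rw [min_eq_right q, mul_add, mul_one_div_cancel (by positivity)]
      exact le_add_of_nonneg_left (by positivity)
  have h2 := mul_le_mul_of_nonneg_left h1 (show (0 : ℝ) ≤ 8 ^ x by positivity)
  rw [mul_one] at h2
  refine h2.trans_eq ?_
  field_simp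

end DPor

open DPor

theorem por : PorStmt := by
  intro m A j0 k d T N gap U hm hT hk hN hU
  choose F hF hF' using fun a : Fin k => full (N (j0 + a)) (gap (j0 + a)) d
    (m + T - (j0 + a + d)) fun i hi => ((hN _ (by omega) (by omega)).2 i hi).2
  let G : ℕ → Finset ℕ := fun a => if h : a < k then F ⟨a, h⟩ else ∅
  have g1 : ∀ a < k, (G a).card = (N (j0 + a)).card * 8 ^ (m + T - (j0 + a + d)) := fun a h => by
    simp only [G, dif_pos h, hF]
  have g2 : ∀ a < k, ∀ p ∈ G a, ∃ i ∈ N (j0 + a),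
      p / 8 ^ (m + T - (j0 + a + d)) = gap (j0 + a) i := fun a h => by
    simpa only [G, dif_pos h] using hF' ⟨a, h⟩
  have X0 : (0 : ℝ) ≤ 8 ^ T / 8 ^ d := by positivity
  have key : ∀ n ≤ k, n * (8 ^ T / 8 ^ d) / 4 ≤ (((range n).biUnion G).card : ℝ) := fun n hn => by
    induction n with
    | zero => simp
    | succ n ih =>
      have h1 := card_union_add_card_inter (G n) ((range n).biUnion G)
      have h2 : ((G n ∩ (range n).biUnion G).card : ℝ) ≤
          ∑ a ∈ range n, 8 ^ T / 8 ^ d * ((1 / 8) ^ (n - a) + 1 / 8 ^ d) := by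
        rw [inter_biUnion]
        refine (Nat.cast_le.2 card_biUnion_le).trans ?_
        rw [Nat.cast_sum]
        refine sum_le_sum fun a ha => ?_
        have ha := mem_range.1 ha
        have h3 := inter (u := n - a) (g2 n hn) (by
            rw [show m + T - (j0 + n + d) + (n - a) = m + T - (j0 + a + d) by omega]
            exact g2 a (by omega))
          (fun i hi => ((hN _ (by omega) (by omega)).2 i hi).2)
          fun i hi => ((hN _ (by omega) (by omega)).2 i hi).1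
        exact (show _ ≤ (8 : ℝ) ^ _ by exact_mod_cast h3).trans (pw (by omega))
      have h3 : (n : ℝ) * (1 / 8 ^ d) ≤ 1 / 10 := by
        have : (10 : ℝ) * n ≤ 8 ^ d := by exact_mod_cast (show 10 * n ≤ 8 ^ d by omega)
        rw [mul_one_div, div_le_iff₀ (by positivity)]
        linarith
      rw [← mul_sum, sum_add_distrib, sum_const, card_range, nsmul_eq_mul] at h2
      have h4 : (8 : ℝ) ^ T / 8 ^ d ≤ 2 * (G n).card := by
        have := Nat.mul_le_mul_right (8 ^ (m + T - (j0 + n + d)))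
          (hN (j0 + n) (by omega) (by omega)).1
        rw [mul_assoc, ← g1 n hn, ← pow_add] at this
        rw [div_le_iff₀ (by positivity), show T = j0 + n - m + (m + T - (j0 + n + d)) + d by omega,
          pow_add]
        exact mul_le_mul_of_nonneg_right (by exact_mod_cast this) (by positivity)
      have h5 : (((G n ∪ (range n).biUnion G).card : ℝ)) + (G n ∩ (range n).biUnion G).card =
          (G n).card + ((range n).biUnion G).card := by exact_mod_cast h1
      have h6 := mul_le_mul_of_nonneg_left (add_le_add (geo n) h3) X0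
      rw [range_add_one, biUnion_insert]
      push_cast
      linarith [ih (by omega)]
  have h1 : Disjoint U ((range k).biUnion G) := disjoint_left.2 fun p hp hq => by
    obtain ⟨a, ha, hq⟩ := mem_biUnion.1 hq
    obtain ⟨i, hi, e⟩ := g2 a (mem_range.1 ha) p hq
    exact (hU p hp).2 _ (by omega) (by simpa using ha) i hi e
  have h2 := cnt (Q := U ∪ (range k).biUnion G) (S := {A}) (e := T) fun p hp => by
    rcases mem_union.1 hp with hp | hp
    · exact mem_singleton.2 (hU p hp).1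
    · obtain ⟨a, ha, hq⟩ := mem_biUnion.1 hp
      have ha := mem_range.1 ha
      obtain ⟨i, hi, e⟩ := g2 a ha p hq
      obtain ⟨e1, e2⟩ := (hN _ (by omega) (by omega)).2 i hi
      rw [mem_singleton, ← e1, ← e2, ← e, dd p _ _ rfl,
        dd p (m + T - (j0 + a + d) + d) (j0 + a - m) (c := T) (by omega)]
  rw [card_union_of_disjoint h1, card_singleton, one_mul] at h2
  have h3 : (U.card : ℝ) + ((range k).biUnion G).card ≤ 8 ^ T := by exact_mod_cast h2
  have h4 : (8 : ℝ) ^ T * (1 - k / (4 * 8 ^ d)) = 8 ^ T - k * (8 ^ T / 8 ^ d) / 4 := by ring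
  linarith [key k le_rfl]

end ExOrd
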