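import Pool.Agent.Lib.MP_a94b90_nt.EX.All
import Pool.Agent.Lib.MP_a94b90_nt.ED.Phase2
import Pool.Agent.Lib.MP_a94b90_nt.ED.Main2
import Pool.Agent.Lib.MP_a94b90_nt.ED.HD
import Pool.Agent.Lib.MP_a94b90_nt.ED.CntG
import Pool.Agent.Lib.MP_a94b90_nt.ED.KillG
import Pool.Agent.Lib.MP_a94b90_nt.ED.Light2
import Pool.Agent.Lib.MP_a94b90_nt.ED.Main3
import Pool.Agent.Lib.MP_a94b90_nt.ED.Low1
import Pool.Agent.Lib.MP_a94b90_nt.ED.BadLow
import Pool.Agent.Lib.MP_a94b90_nt.ED.TR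
import Pool.Agent.Lib.MP_a94b90_nt.ED.Free
import Pool.Agent.Lib.MP_a94b90_nt.ED.Nice
import Pool.Agent.Lib.MP_a94b90_nt.ED.Gap
import Pool.Agent.Lib.MP_a94b90_nt.ED.Por
import Pool.Agent.Lib.MP_a94b90_nt.ED.Box
import Pool.Agent.Lib.MP_a94b90_nt.ED.BadUp

/-! ED: assembly of the two bounds for the uniformly badly approximable sets. -/

namespace ExOrd

theorem badLowT : BadLowStmt :=
  badLow (low1 phase2 main2 (main3 (kill3 (killG cntG)) lfew2 lor2 lsum2)) hd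

theorem badUpT : BadUpStmt := badUp (free tr) (nice (killG cntG)) gap por box

end ExOrd
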