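import Pool.Agent.Lib.MP_a94b90_nt.ED.Stmt

/-! ED row 3: weights of a cover below a node. -/

namespace ExOrd
open Set

namespace DCover

theorem dd (p a b c : ℕ) (h1 : a ≤ b) (h2 : b ≤ c) :
    p / 8 ^ (c - b) / 8 ^ (b - a) = p / 8 ^ (c - a) := by
  rw [Nat.div_div_eq_div_mul, ← pow_add]
  congr 2
  omega

theorem wt_mono (C : ℕ → Finset ℕ) {θ : ℝ} (hθ : 0 ≤ θ) (n i : ℕ) {N N' : ℕ} (h : N ≤ N') :
    Wt C θ n i N ≤ Wt C θ n i N' := by
  unfold Wt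
  exact Finset.sum_le_sum_of_subset_of_nonneg (Finset.Ico_subset_Ico_right h)
    fun j _ _ => mul_nonneg (Nat.cast_nonneg _) (pow_nonneg hθ _)

theorem wt_zero (C : ℕ → Finset ℕ) (θ : ℝ) (n i : ℕ) : Wt C θ n i 0 = 0 := by
  unfold Wt
  simp

theorem cnt_sum (C : ℕ → Finset ℕ) {n0 n1 j i0 : ℕ} (h1 : n0 ≤ n1) (h2 : n1 ≤ j)
    (B : Finset ℕ) (hB : ∀ A ∈ B, A / 8 ^ (n1 - n0) = i0) :
    ∑ A ∈ B, cntB C n1 A j ≤ cntB C n0 i0 j := by
  unfold cntB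
  rw [Finset.sum_card_fiberwise_eq_card_filter (C j) B (fun p => p / 8 ^ (j - n1))]
  refine Finset.card_le_card fun p hp => ?_
  rw [Finset.mem_filter] at hp ⊢
  refine ⟨hp.1, ?_⟩
  rw [← dd p n0 n1 j h1 h2]
  exact hB _ hp.2

theorem wt_sum (C : ℕ → Finset ℕ) {θ : ℝ} (hθ : 0 ≤ θ) {n0 n1 i0 : ℕ} (h1 : n0 ≤ n1)
    (B : Finset ℕ) (hB : ∀ A ∈ B, A / 8 ^ (n1 - n0) = i0) (N : ℕ) :
    ∑ A ∈ B, Wt C θ n1 A N ≤ Wt C θ n0 i0 N := by
  unfold Wt
  rw [Finset.sum_comm]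
  refine le_trans (Finset.sum_le_sum (g := fun j => (cntB C n0 i0 j : ℝ) * θ ^ j)
    fun j hj => ?_) ?_
  · rw [← Finset.sum_mul]
    refine mul_le_mul_of_nonneg_right ?_ (pow_nonneg hθ _)
    have := cnt_sum C (j := j) h1 (by have := (Finset.mem_Ico.1 hj).1; omega) B hB
    exact_mod_cast this
  · exact Finset.sum_le_sum_of_subset_of_nonneg (Finset.Ico_subset_Ico_left (by omega))
      fun j _ _ => mul_nonneg (Nat.cast_nonneg _) (pow_nonneg hθ _)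

end DCover

open DCover

theorem w1 : W1Stmt := by
  intro C θ τ n i j hθ h hj
  refine le_trans ?_ (h (j + 1))
  unfold Wt
  exact Finset.single_le_sum (f := fun j => (cntB C n i j : ℝ) * θ ^ j)
    (fun j _ => mul_nonneg (Nat.cast_nonneg _) (pow_nonneg hθ _))
    (Finset.mem_Ico.2 ⟨hj, Nat.lt_succ_self j⟩)

theorem w2 : W2Stmt := by
  classical
  intro C θ τ τ' n0 i0 n1 hθ _ h01 h
  set d := n1 - n0 with hd
  have hp : 0 < 8 ^ d := by positivity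
  let Bd : Finset ℕ := (Finset.range ((i0 + 1) * 8 ^ d)).filter
    fun A => A / 8 ^ d = i0 ∧ ∃ N, τ' < Wt C θ n1 A N
  refine ⟨Bd, ?_, fun A hA hn N => ?_⟩
  · have hex : ∀ A, ∃ N, A ∈ Bd → τ' < Wt C θ n1 A N := by
      intro A
      by_cases hA : A ∈ Bd
      · obtain ⟨N, hN⟩ := (Finset.mem_filter.1 hA).2.2
        exact ⟨N, fun _ => hN⟩
      · exact ⟨0, fun h' => absurd h' hA⟩
    choose f hf using hex
    have h1 : (Bd.card : ℝ) * τ' ≤ ∑ A ∈ Bd, Wt C θ n1 A (Bd.sup f) := by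
      rw [← nsmul_eq_mul]
      refine Finset.card_nsmul_le_sum _ _ _ fun A hA => ?_
      exact (hf A hA).le.trans (wt_mono C hθ n1 A (Finset.le_sup hA))
    exact h1.trans ((wt_sum C hθ h01 Bd (fun A hA => (Finset.mem_filter.1 hA).2.1) _).trans (h _))
  · by_contra hc
    refine hn (Finset.mem_filter.2 ⟨Finset.mem_range.2 ?_, hA, N, not_le.1 hc⟩)
    rw [← Nat.div_lt_iff_lt_mul hp]
    omega

theorem w3 : W3Stmt := by
  intro C θ δ n1 A n2 i2 m hθ hθ1 hδ h12 h2m hA h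
  have hm : 0 < θ ^ m := pow_pos hθ m
  have hδ0 : 0 ≤ δ := by
    have := h 0
    rw [wt_zero] at this
    exact nonneg_of_mul_nonneg_left this hm
  refine ⟨fun N => ?_, fun j hj1 hj2 hc => ?_⟩
  · have h1 := wt_sum C hθ.le h12 {i2} (by simpa using hA) N
    rw [Finset.sum_singleton] at h1
    exact h1.trans ((h N).trans
      (mul_le_mul_of_nonneg_left (pow_le_pow_of_le_one hθ.le hθ1 h2m) hδ0))
  · have h1 := w1 C θ _ n1 A j hθ.le h hj1
    have h2 : 1 ≤ cntB C n1 A j := by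
      unfold cntB
      refine Finset.card_pos.2 ⟨_, Finset.mem_filter.2 ⟨hc, ?_⟩⟩
      rw [dd i2 n1 j n2 hj1.le hj2, hA]
    have h3 : (1 : ℝ) ≤ cntB C n1 A j := by exact_mod_cast h2
    have h4 : θ ^ m ≤ θ ^ j := pow_le_pow_of_le_one hθ.le hθ1 (by omega)
    nlinarith [pow_pos hθ j]

end ExOrd
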