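import Pool.Agent.Lib.MP_a94b90_nt.ED.Stmt

/-! ED row 5: growth of `θ ^ m * lam ^ k` and the choice of the rational exponent. -/

namespace ExOrd
open Filter Topology

theorem grow : GrowStmt := by
  intro θ lam Z a b c1 c2 hθ hθ1 hl hb hq
  set q : ℝ := θ ^ (a + b) * lam ^ (3 * b) with hqd
  have hl0 : 0 < lam := lt_of_lt_of_le one_pos hl
  have ht := tendsto_pow_atTop_atTop_of_one_lt hq
  obtain ⟨B, hB⟩ := eventually_atTop.1
    (ht.eventually_gt_atTop ((max Z 1) ^ (3 * b) * lam ^ (3 * b * c2) / θ ^ c1))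
  refine ⟨B, fun n m k hn hm hk => ?_⟩
  have h1 := hB n hn
  rw [div_lt_iff₀ (pow_pos hθ c1)] at h1
  have h2 : θ ^ ((a + b) * n + c1) ≤ θ ^ (3 * b * m) := pow_le_pow_of_le_one hθ.le hθ1 hm
  have h3 : lam ^ (3 * b * n) ≤ lam ^ (3 * b * k + 3 * b * c2) := by
    apply pow_le_pow_right₀ hl
    rw [← Nat.mul_add]
    exact Nat.mul_le_mul_left _ hk
  have h4 : q ^ n * θ ^ c1 = θ ^ ((a + b) * n + c1) * lam ^ (3 * b * n) := by
    rw [hqd, mul_pow, ← pow_mul, ← pow_mul, pow_add]; ring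
  have h5 : (θ ^ m * lam ^ k) ^ (3 * b) * lam ^ (3 * b * c2)
      = θ ^ (3 * b * m) * lam ^ (3 * b * k + 3 * b * c2) := by
    rw [mul_pow, ← pow_mul, ← pow_mul, pow_add, Nat.mul_comm m, Nat.mul_comm k]; ring
  have h6 : q ^ n * θ ^ c1 ≤ (θ ^ m * lam ^ k) ^ (3 * b) * lam ^ (3 * b * c2) := by
    rw [h4, h5]
    exact mul_le_mul h2 h3 (pow_pos hl0 _).le (pow_pos hθ _).le
  have h7 : (max Z 1) ^ (3 * b) < (θ ^ m * lam ^ k) ^ (3 * b) :=
    lt_of_mul_lt_mul_right (lt_of_lt_of_le h1 h6) (pow_pos hl0 _).le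
  have h8 : max Z 1 < θ ^ m * lam ^ k :=
    lt_of_pow_lt_pow_left₀ (3 * b) (mul_pos (pow_pos hθ _) (pow_pos hl0 _)).le h7
  exact le_trans (le_max_left _ _) h8.le

theorem choice : ChoiceStmt := by
  intro w s hw hs hsw
  have hw1 : 0 < w + 1 := by linarith
  have h1 : w < 3 / s - 1 := by
    rw [lt_div_iff₀ hw1] at hsw
    rw [lt_sub_iff_add_lt, lt_div_iff₀ hs]
    linarith
  obtain ⟨ρ, hρ1, hρ2⟩ := exists_rat_btwn h1
  have hρ0 : (0 : ℝ) < ρ := by linarith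
  have hnum : 0 ≤ ρ.num := Rat.num_nonneg.2 (by exact_mod_cast hρ0.le)
  obtain ⟨a, ha⟩ := Int.eq_ofNat_of_zero_le hnum
  have hb : 1 ≤ ρ.den := ρ.den_pos
  have hb0 : (0 : ℝ) < (ρ.den : ℝ) := by exact_mod_cast hb
  have hρ : (ρ : ℝ) = (a : ℝ) / (ρ.den : ℝ) := by
    rw [Rat.cast_def, ha]; simp
  rw [hρ] at hρ1 hρ2
  have h2 : 2 * ρ.den ≤ a := by
    have : (2 : ℝ) < (a : ℝ) / (ρ.den : ℝ) := lt_of_le_of_lt hw hρ1
    rw [lt_div_iff₀ hb0] at this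
    have h' : ((2 * ρ.den : ℕ) : ℝ) ≤ (a : ℝ) := by push_cast; linarith
    exact_mod_cast h'
  have h3 : s * ((a : ℝ) + ρ.den) < 3 * ρ.den := by
    rw [lt_sub_iff_add_lt, lt_div_iff₀ hs] at hρ2
    have h4 : ((a : ℝ) / ρ.den + 1) * s * ρ.den = s * ((a : ℝ) + ρ.den) := by
      field_simp
    have := mul_lt_mul_of_pos_right hρ2 hb0
    linarith
  have h5 : 1 < ((8 : ℝ) ^ (-s)) ^ (a + ρ.den) * (8 : ℝ) ^ (3 * ρ.den) := by
    rw [← Real.rpow_natCast, ← Real.rpow_mul (by norm_num), ← Real.rpow_natCast (8 : ℝ),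
      ← Real.rpow_add (by norm_num)]
    apply Real.one_lt_rpow (by norm_num)
    push_cast
    linarith
  have h6 : Tendsto (fun h : ℕ => P (-(h : ℤ))) atTop (𝓝 0) := by
    have : (fun h : ℕ => P (-(h : ℤ))) = fun h : ℕ => ((2 : ℝ)⁻¹) ^ h := by
      funext h
      simp [P]
    rw [this]
    exact tendsto_pow_atTop_nhds_zero_of_lt_one (by norm_num) (by norm_num)
  have h7 : Tendsto (fun h : ℕ => ((8 : ℝ) ^ (-s)) ^ (a + ρ.den) * (8 - P (-(h : ℤ))) ^ (3 * ρ.den))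
      atTop (𝓝 (((8 : ℝ) ^ (-s)) ^ (a + ρ.den) * (8 - 0) ^ (3 * ρ.den))) :=
    ((tendsto_const_nhds.sub h6).pow _).const_mul _
  rw [sub_zero] at h7
  obtain ⟨h, hh⟩ := (h7.eventually (lt_mem_nhds h5)).exists
  exact ⟨a, ρ.den, h, hb, h2, hρ1, hh⟩

end ExOrd
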