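import Pool.Agent.Lib.MP_a94b90_nt.ED.Stmt
import Pool.Agent.Lib.MP_a94b90_nt.EX.Final

/-! ED: the nested construction avoiding a light family of nodes. -/

namespace ExOrd
open Set

namespace DLow2

theorem init {ψ : ℕ → ℝ} {H0 r : ℕ} (hr : 100 ≤ r) (h0 : 1 ≤ H0)
    (hs : ∀ H : ℕ, H0 ≤ H → (H : ℝ) ^ 2 * ψ H ≤ P (-3 * (2 * r + 2) - 6)) :
    State ψ H0 r 0 0 := by
  refine ⟨hr, node_zero.le, fun x _ => ⟨fun u l a b c hu hb => ?_, fun u hu ρ h _ => ?_⟩,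
    fun x _ a b c h1 h2 => ?_, fun H h1 _ => ?_⟩
  · by_contra hd
    have := rg_box hb hd
    unfold kk at hu
    omega
  · have h1 : (1 : ℝ) ≤ ρ.den := by exact_mod_cast ρ.pos
    exact absurd (h1.trans h) (not_le.2 (P_lt_one (by omega)))
  · have h3 : (1 : ℝ) ≤ Ht a b c := by exact_mod_cast h0.trans h1
    have h4 := h2.trans_lt (P_lt_one (by omega))
    linarith
  · have h2 := hs H h1
    have h3 : P (-3 * (2 * r + 2)) = 2 ^ 6 * P (-3 * (2 * r + 2) - 6) := P_shift 6 (by omega)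
    have h4 := P_pos (-3 * (2 * r + 2) - 6)
    rw [h3]
    linarith

theorem init2 {ψ : ℕ → ℝ} {H0 r : ℕ} {C : ℕ → Finset ℕ} {θ δ : ℝ} (hs : State ψ H0 r 0 0)
    (hθ : 0 < θ) (hδ : δ < 1)
    (hC : ∀ N, ∑ j ∈ Finset.range N, ((C j).card : ℝ) * θ ^ j ≤ δ) :
    State2 ψ H0 C θ δ r 0 0 := by
  refine ⟨hs, fun N => ?_, fun j hj hm => ?_⟩
  · rw [pow_zero, mul_one]
    refine le_trans ?_ (hC N)
    unfold Wt
    refine (Finset.sum_le_sum (g := fun j => ((C j).card : ℝ) * θ ^ j) fun j _ => ?_).trans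
      (Finset.sum_le_sum_of_subset_of_nonneg (fun j hj => ?_) fun j _ _ => by positivity)
    · refine mul_le_mul_of_nonneg_right ?_ (by positivity)
      exact_mod_cast Finset.card_filter_le _ _
    · exact Finset.mem_range.2 (Finset.mem_Ico.1 hj).2
  · obtain rfl : j = 0 := by omega
    have h1 := hC 1
    rw [Finset.sum_range_one, pow_zero, mul_one] at h1
    have h2 : (1 : ℝ) ≤ (C 0).card := by exact_mod_cast Finset.card_pos.2 ⟨_, hm⟩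
    linarith

end DLow2

theorem low2 (h : Step2Stmt) : Low2Stmt := by
  intro ψ C θ a b t hm hp hs hw hb hab h0 h1 hg hC
  obtain ⟨N, hN⟩ := hs (-3 * (2 * ((100 + 2 * t : ℕ) : ℤ) + 2) - 6)
  have hH : 1 ≤ N + 1 := Nat.le_add_left _ _
  have s0 : State2 ψ (N + 1) C θ (P (-7 * t - 50)) (100 + 2 * t) 0 0 :=
    DLow2.init2 (DLow2.init (Nat.le_add_right _ _) hH fun H hH => hN H (by omega)) h0
      (P_lt_one (by omega)) hC
  obtain ⟨ξ, hξ⟩ := Final.nest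
    (St := fun i => ∃ r, 100 + 2 * t ≤ r ∧ State2 ψ (N + 1) C θ (P (-7 * t - 50)) r i.1 i.2)
    (Pr := fun k x => (∀ a b c : ℤ, N + 1 ≤ Ht a b c → 3 * (Ht a b c : ℝ) ≤ P k →
      ψ (Ht a b c) ≤ |Lv a b c x|) ∧ (∃ a b c : ℤ, k ≤ Ht a b c ∧
        ¬ IsSquare (b ^ 2 - 4 * a * c) ∧
        |Lv a b c x| ≤ (1 + P (-(8 + k : ℕ))) * ψ (Ht a b c)) ∧ ∃ p, x ∈ Node k p ∧ p ∉ C k)
    (i0 := (0, 0)) ⟨_, le_rfl, s0⟩ fun k i hi => by
      obtain ⟨r, hr, hi⟩ := hi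
      obtain ⟨r2, n2, i2, a0, s2, a1, a3, a', b', c', a4, a5, a6⟩ :=
        h ψ (N + 1) C θ a b t r i.1 i.2 (8 + k) k hm hp hs hw hb hab h0 h1 hg hH hr
          (Nat.le_add_right _ _) hi
      refine ⟨(n2, i2), ⟨r2, hr.trans a0, s2⟩, a1, fun x hx => ⟨fun a'' b'' c'' c1 c2 => ?_,
        ⟨a', b', c', a4, a5, a6 x hx⟩, i2 / 8 ^ (n2 - k), ?_, s2.avoid k (by omega)⟩⟩
      · exact s2.st.low x hx a'' b'' c'' c1 (le_P c2 (by omega))
      · refine node_sub k (n2 - k) i2 ?_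
        rwa [Nat.add_sub_cancel' (by omega)]
  refine ⟨ξ, ⟨N + 1, fun a b c h => (hξ (3 * Ht a b c)).1 a b c h
    (by exact_mod_cast (nat_lt_P (3 * Ht a b c)).le)⟩, fun g K => ?_, fun j => (hξ j).2.2⟩
  obtain ⟨a', b', c', a1, a2, a3⟩ := (hξ (max (K + 1) g)).2.1
  have a5 := hp (Ht a' b' c') (by omega)
  have a6 : P (-(8 + max (K + 1) g : ℕ)) ≤ P (-g) := P_le (by omega)
  exact ⟨a', b', c', by omega, a2, a3.trans (by gcongr)⟩

end ExOrd
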