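import Pool.Agent.Lib.MP_a94b90_nt.EX.All

/-! ED: the window of EX as a separate lemma. -/

namespace ExOrd
open Set

open Step in
theorem window {ψ : ℕ → ℝ} {H0 r n0 i g K s n1 n H1 i1 : ℕ}
    (hmono : ∀ H H', 1 ≤ H → H ≤ H' → ψ H' ≤ ψ H) (hpos : ∀ H, 1 ≤ H → 0 < ψ H) (hH0 : 1 ≤ H0)
    (st : State ψ H0 r n0 i) (par : Par r g s n0 n1 n) (hk1 : P (n + 2) ≤ H1)
    (hk2 : (H1 : ℝ) < P (n + 3))
    (hrec : ∀ H : ℕ, H1 ≤ H → (H : ℝ) ^ 2 * ψ H ≤ 2 * ((H1 : ℝ) ^ 2 * ψ H1))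
    (hsm : ∀ H : ℕ, P (n - 6 * r - 11) < 3 * (H : ℝ) → (H : ℝ) ^ 2 * ψ H ≤ P (-20 * s))
    (hK : K + 6 * r + 13 ≤ n) (hsub1 : Node n1 i1 ⊆ Node n0 i)
    (h1 : ∀ x ∈ Node n1 i1, (∀ j, n0 ≤ j → j ≤ n1 → Good r j x) ∧ Clean g s n1 n x) :
    ∃ r2 n2 i2, r ≤ r2 ∧ State ψ H0 r2 n2 i2 ∧ Node n2 i2 ⊆ Node n1 i1 ∧ n1 ≤ n2 ∧
      K + (2 * r2 + 2) ≤ n2 ∧ ψ H1 < P (n + g + 6 - 3 * n2) ∧
      ∃ a b c : ℤ, K ≤ Ht a b c ∧ ¬ IsSquare (b ^ 2 - 4 * a * c) ∧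
        ∀ x ∈ Node n2 i2, |Lv a b c x| ≤ (1 + P (-g)) * ψ (Ht a b c) := by
  obtain ⟨hr, hg, hs, hn, hb⟩ := id par
  have hH1 : 1 ≤ H1 := by
    have : (1 : ℝ) ≤ H1 := (one_le_P (by omega)).trans hk1
    exact_mod_cast this
  have hsub01 : Node n1 i1 ⊆ Icc 0 1 := hsub1.trans st.sub
  obtain ⟨a, b, c, n2, i2, hsub2, v1, v2, v3, v4, v5, v6⟩ := vec z dir ψ r g s n0 n1 n i1 par
    (fun x hx => (h1 x hx).1 n1 (by omega) le_rfl) hsub01 hpos hsm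
  have hn2 := le_of_P_le (v4.trans v3)
  obtain ⟨r2, e1, e2⟩ : ∃ r2 : ℕ, n + g + 1 + (2 * r2 + 2) ≤ n2 ∧ n2 ≤ n + g + 2 + (2 * r2 + 2) :=
    ⟨(n2 - n - g - 3) / 2, by omega, by omega⟩
  have hH : 1 ≤ Ht a b c := nat_le v1 (by omega)
  have hμ := hpos _ hH
  have h4 : ψ H1 ≤ ψ (Ht a b c) := by
    refine hmono _ _ hH ?_
    have : (Ht a b c : ℝ) ≤ H1 := v2.trans hk1
    exact_mod_cast this
  have win : ∀ x ∈ Node n2 i2, Win r g s n0 n1 n r2 n2 x (ψ (Ht a b c)) a b c := by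
    intro x hx
    obtain ⟨w1, w2⟩ := h1 x (hsub2 hx)
    obtain ⟨w3, w4, w5⟩ := v6 x hx
    have w6 : P (-(g : ℤ)) ≤ 1 := P_le_one (by omega)
    exact ⟨par, w1 n1 (by omega) le_rfl, w2, w3, w4,
      w5.trans (mul_le_mul_of_nonneg_right (by linarith) hμ.le), v3, v4, v5, e1, e2⟩
  refine ⟨r2, n2, i2, by omega, ⟨by omega, hsub2.trans hsub01, fun x hx =>
    ⟨startP (pair z) _ _ _ _ _ _ _ _ _ _ _ _ _ (win x hx),
      startR _ _ _ _ _ _ _ _ _ _ _ _ _ (win x hx)⟩, ?_, ?_⟩,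
    hsub2, by omega, by omega, h4.trans_lt v5, a, b, c,
    nat_le v1 (by omega), irr _ _ _ _ _ _ _ _ _ _ _ _ _ (win _ (node_left _ _)),
    fun x hx => (v6 x hx).2.2⟩
  · intro x hx a' b' c' hlo hhi
    have W := win x hx
    by_cases hc : 3 * (Ht a' b' c' : ℝ) ≤ P (n1 - (2 * r + 2))
    · exact ext z ψ H0 r n0 i n1 x a' b' c' hH0 st (hsub1 (hsub2 hx)) (h1 x (hsub2 hx)).1 hlo hc
    by_contra hlt
    have hlt' := not_le.1 hlt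
    have hc' : P (n - 6 * r - 11) < 3 * (Ht a' b' c' : ℝ) :=
      (P_le (by omega)).trans_lt (not_le.1 hc)
    have hs1 : ψ (Ht a' b' c') ≤ P (-2 * n - 19 * s) := psi_small hc' (hsm _ hc') (by omega)
    have hs2 : |Lv a b c x| ≤ P (-2 * n - 19 * s) := by
      have := P_succ (-2 * n - 19 * s - 1)
      rw [sub_add_cancel] at this
      linarith [W.hi, W.mu]
    have hs3 : 3 * (Ht a' b' c' : ℝ) ≤ P (n + s) := le_P hhi (by omega)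
    obtain ⟨t, rfl, rfl, rfl⟩ := pair z r g s n0 n1 n x a b c a' b' c' par W.good W.clean.1 W.vec
      hs2 ⟨hlt'.le.trans hs1, (Dv_le_Ht a' b' c' (hsub01 (hsub2 hx))).trans hs3, by
        linarith [abs_a_le_Ht a' b' c', Nat.cast_nonneg (α := ℝ) (Ht a' b' c')]⟩
    rw [Ht_mul] at hlo hlt'
    have ht : 1 ≤ t.natAbs := by
      rcases Nat.eq_zero_or_pos t.natAbs with h | h
      · rw [h] at hlo; omega
      · exact h
    have ht' : (1 : ℝ) ≤ |(t : ℝ)| := by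
      have : (1 : ℤ) ≤ |t| := by rw [Int.abs_eq_natAbs]; exact_mod_cast ht
      exact_mod_cast this
    have h2 := hmono (Ht a b c) (t.natAbs * Ht a b c) hH (Nat.le_mul_of_pos_left _ ht)
    rw [Lv_mul, abs_mul] at hlt'
    have h3 := le_mul_of_one_le_left (abs_nonneg (Lv a b c x)) ht'
    linarith [W.lo]
  · intro H _ hH2
    have h2 : (H1 : ℝ) ≤ H := by
      have h3 : P (n + 3 + (2 : ℕ)) ≤ P (n2 - (2 * r2 + 2)) := P_le (by push_cast; omega)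
      rw [P_shift 2 rfl] at h3
      linarith [P_pos (n + 3)]
    have h3 := hrec H (by exact_mod_cast h2)
    have h5 : (H1 : ℝ) ^ 2 ≤ P (2 * (n + 3)) := by
      rw [← P_sq]; exact pow_le_pow_left₀ (Nat.cast_nonneg _) hk2.le 2
    have h6 : (H1 : ℝ) ^ 2 * ψ H1 ≤ P (2 * (n + 3)) * P (n + g + 6 - 3 * n2) :=
      mul_le_mul h5 (h4.trans v5.le) (hpos H1 hH1).le (P_pos _).le
    rw [← P_add] at h6
    have h7 : P (2 * (n + 3) + (n + g + 6 - 3 * n2) + (7 : ℕ)) ≤ P (-3 * (2 * r2 + 2)) :=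
      P_le (by push_cast; omega)
    rw [P_shift 7 rfl] at h7
    have := P_pos (2 * (n + 3) + (n + g + 6 - 3 * n2))
    linarith

end ExOrd
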