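import Pool.Agent.Lib.MP_a94b90_nt.ED.Stmt
import Pool.Agent.Lib.MP_a94b90_nt.ED.Window
import Pool.Agent.Lib.MP_a94b90_nt.ED.MainB

/-! ED: one phase avoiding a cover, followed by one window. -/

namespace ExOrd
open Set

namespace DStep2

theorem record (φ : ℕ → ℝ) (C : ℝ) (M : ℕ) (hpos : 0 < φ M)
    (hb : ∀ H, M ≤ H → φ H ≤ C) : ∃ H1, M ≤ H1 ∧ ∀ H, M ≤ H → φ H ≤ 2 * φ H1 := by
  have hne : (φ '' {H | M ≤ H}).Nonempty := ⟨φ M, M, le_refl M, rfl⟩
  have hbd : BddAbove (φ '' {H | M ≤ H}) := ⟨C, by rintro _ ⟨H, hH, rfl⟩; exact hb H hH⟩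
  have h0 : 0 < sSup (φ '' {H | M ≤ H}) := hpos.trans_le (le_csSup hbd ⟨M, le_refl M, rfl⟩)
  obtain ⟨_, ⟨H1, hH1, rfl⟩, h1⟩ := exists_lt_of_lt_csSup hne (half_lt_self h0)
  refine ⟨H1, hH1, fun H hH => ?_⟩
  have := le_csSup hbd ⟨H, hH, rfl⟩
  linarith

theorem P_pow (k : ℤ) (b : ℕ) : P k ^ b = P (b * k) := by
  unfold P; rw [← zpow_natCast, ← zpow_mul, mul_comm]

/-- the level of the window is at most `(1 + a/b) n / 3 + O(1)`. -/
theorem level {y y1 : ℝ} {H H1 a b n g n2 : ℕ} (hab : 2 * b ≤ a) (hy : 0 ≤ y) (hy1 : 0 ≤ y1)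
    (h1 : 1 ≤ y ^ b * (H : ℝ) ^ a) (h2 : H ≤ H1)
    (h3 : (H : ℝ) ^ 2 * y ≤ 2 * ((H1 : ℝ) ^ 2 * y1)) (h4 : (H1 : ℝ) < P (n + 3))
    (h5 : y1 < P (n + g + 6 - 3 * n2)) : 3 * b * n2 ≤ (a + b) * n + (b * (g + 7) + 3 * a) := by
  obtain ⟨d, rfl⟩ : ∃ d, a = 2 * b + d := ⟨a - 2 * b, by omega⟩
  have e1 : y ^ b * (H : ℝ) ^ (2 * b + d) = ((H : ℝ) ^ 2 * y) ^ b * (H : ℝ) ^ d := by
    rw [mul_pow, ← pow_mul, pow_add]; ring
  have e2 : (H : ℝ) ^ 2 * y ≤ P (1 + 2 * (n + 3) + (n + g + 6 - 3 * n2)) := by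
    rw [P_add, P_add, P_one, ← P_sq, mul_assoc]
    refine h3.trans (mul_le_mul_of_nonneg_left ?_ (by norm_num))
    exact mul_le_mul (pow_le_pow_left₀ (Nat.cast_nonneg _) h4.le 2) h5.le hy1 (by positivity)
  have e3 : (H : ℝ) ≤ P (n + 3) := (Nat.cast_le.2 h2).trans h4.le
  have e4 : ((H : ℝ) ^ 2 * y) ^ b * (H : ℝ) ^ d ≤
      P (1 + 2 * (n + 3) + (n + g + 6 - 3 * n2)) ^ b * P (n + 3) ^ d :=
    mul_le_mul (pow_le_pow_left₀ (by positivity) e2 b) (pow_le_pow_left₀ (Nat.cast_nonneg _) e3 d)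
      (by positivity) (pow_nonneg (P_pos _).le _)
  rw [P_pow, P_pow, ← P_add] at e4
  have e5 := le_of_P_le (P_zero.le.trans ((e1 ▸ h1).trans e4))
  zify
  nlinarith

/-- lower bound for the product of the growth rates. -/
theorem prod_ge {lam : ℕ → ℝ} {L : ℝ} {n U n1 : ℕ} (hL : 0 < L) (hL8 : L ≤ 8)
    (h7 : ∀ m, 7 ≤ lam m) (hl : ∀ m, n + U ≤ m → m + 1 < n1 → L ≤ lam m) :
    ∀ d, n + d < n1 → L ^ d * P (-(min d U : ℕ)) ≤ ∏ m ∈ Finset.Ico n (n + d), lam m := by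
  intro d
  induction d with
  | zero => intro _; simp [P_zero]
  | succ d ih =>
    intro hd
    have h1 := ih (by omega)
    rw [← add_assoc, Finset.prod_Ico_succ_top (Nat.le_add_right _ _)]
    have h0 : 0 < L ^ d * P (-(min d U : ℕ)) := mul_pos (pow_pos hL _) (P_pos _)
    by_cases c : U ≤ d
    · rw [show min (d + 1) U = min d U by omega]
      have h2 := hl (n + d) (by omega) (by omega)
      calc L ^ (d + 1) * P (-(min d U : ℕ)) = L ^ d * P (-(min d U : ℕ)) * L := by ring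
        _ ≤ _ := mul_le_mul h1 h2 hL.le (h0.le.trans h1)
    · have e : P (-(min d U : ℕ)) = 2 * P (-(min (d + 1) U : ℕ)) := by
        rw [← P_succ]; congr 1; omega
      calc L ^ (d + 1) * P (-(min (d + 1) U : ℕ)) = L ^ d * P (-(min d U : ℕ)) * (L / 2) := by
            rw [e]; ring
        _ ≤ _ := mul_le_mul h1 (by linarith [h7 (n + d)]) (by linarith) (h0.le.trans h1)

theorem path {p : ℕ → ℕ} {n : ℕ} (h : ∀ j, n ≤ j → p (j + 1) / 8 = p j) {j : ℕ} (hj : n ≤ j) :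
    ∀ d, p (j + d) / 8 ^ d = p j := by
  intro d
  induction d with
  | zero => simp
  | succ d ih =>
    rw [pow_succ', ← Nat.div_div_eq_div_mul, ← add_assoc, h (j + d) (by omega), ih]

theorem cnt_union (C : ℕ → Finset ℕ) (Bd : Finset ℕ) (n1 n i j : ℕ) :
    cntB (fun j => if j = n1 then C j ∪ Bd else if j < n1 then C j else ∅) n i j ≤
      if j = n1 then cntB C n i j + Bd.card else if j < n1 then cntB C n i j else 0 := by
  unfold cntB
  dsimp only
  split_ifs with h1 h2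
  · rw [Finset.filter_union]
    exact (Finset.card_union_le _ _).trans (Nat.add_le_add_left (Finset.card_filter_le _ _) _)
  · exact le_rfl
  · simp

end DStep2

open Step DStep2 in
theorem step2 (hp : Phase2Stmt) (hm2 : Main2Stmt) (w1 : W1Stmt) (w2 : W2Stmt) (w3 : W3Stmt)
    (hgr : GrowStmt) : Step2Stmt := by
  intro ψ H0 C θ a b h r n0 i g K hmono hpos hlim hfr hb hab hθ hθ1 hq hH0 hr hg st2
  have st := st2.st
  obtain ⟨L, hL⟩ : ∃ L : ℝ, L = 8 - P (-h) := ⟨_, rfl⟩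
  have hPh : P (-(h : ℤ)) ≤ 1 := P_le_one (by omega)
  have hL7 : 7 ≤ L := by linarith
  have hL8 : L ≤ 8 := by linarith [P_pos (-(h : ℤ))]
  rw [← hL] at hq
  have hθL : 1 ≤ θ * L := by
    by_contra hc
    have h1 : (θ * L) ^ (3 * b) ≤ 1 := pow_le_one₀ (by positivity) (not_le.1 hc).le
    have h2 : θ ^ (a + b) ≤ θ ^ (3 * b) := pow_le_pow_of_le_one hθ.le hθ1 (by omega)
    rw [mul_pow] at h1
    have h3 := mul_le_mul_of_nonneg_right h2 (show 0 ≤ L ^ (3 * b) by positivity)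
    linarith
  obtain ⟨s, hs⟩ : ∃ s : ℕ, s = 200 * (r + g) := ⟨_, rfl⟩
  obtain ⟨N, hN⟩ := hlim (-20 * s)
  obtain ⟨B0, hB0⟩ := hgr θ L (P (44 + 6 * h)) a b (b * (g + 7) + 3 * a) (n0 + 4 * r + 10) hθ hθ1
    (by linarith) hb hq
  obtain ⟨B, hB⟩ : ∃ B : ℕ, B = 100 * s + 10 * n0 + 6 * r + 13 + N + K + B0 := ⟨_, rfl⟩
  have hM : B + 3 < 2 ^ (B + 3) := Nat.lt_two_pow_self
  obtain ⟨H', hH', hfr'⟩ := hfr (2 ^ (B + 3))
  obtain ⟨H1, hH1, hrec⟩ := DStep2.record (fun H => (H : ℝ) ^ 2 * ψ H) (P (-20 * s)) H'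
    (mul_pos (by
      have : 0 < H' := by omega
      positivity) (hpos H' (by omega))) (fun H hH => hN H (by omega))
  have hH1' : P ((B + 3 : ℕ) : ℤ) ≤ H1 := by rw [P_nat]; exact_mod_cast hH'.trans hH1
  obtain ⟨k, hk1, hk2⟩ := exists_shell ((P_pos _).trans_le hH1')
  have hk3 := lt_of_P_lt (hH1'.trans_lt hk2)
  obtain ⟨n1, hn1⟩ : ∃ n1 : ℕ, k = n1 + 4 * r + 11 := ⟨(k - 4 * r - 11).toNat, by omega⟩
  obtain ⟨n, hn⟩ : ∃ n : ℕ, n = n1 + 4 * r + 9 := ⟨_, rfl⟩
  have par : Par r g s n0 n1 n := ⟨by omega, hg, by omega, hn, by omega⟩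
  have hsm : ∀ H : ℕ, P (n - 6 * r - 11) < 3 * (H : ℝ) → (H : ℝ) ^ 2 * ψ H ≤ P (-20 * s) :=
    fun H hH => hN H (nat_le hH (by omega))
  obtain ⟨m, hm⟩ : ∃ m : ℕ, m = ((a + b) * n + (b * (g + 7) + 3 * a)) / (3 * b) := ⟨_, rfl⟩
  have hZ := hB0 n m (n1 - 1 - n0) (by omega) (hm ▸ Nat.mul_div_le _ _) (by omega)
  have hδ := P_pos (-7 * h - 50)
  obtain ⟨Bd, hBd1, hBd2⟩ := w2 C θ _ (P (-7 * h - 50) * θ ^ m) n0 i n1 hθ.le (by positivity)
    (by omega) st2.small
  obtain ⟨lam, hlam⟩ : ∃ lam : ℕ → ℝ,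
    lam = fun j => if n0 + (40 + 6 * h) ≤ j ∧ j + 1 < n1 then L else 7 := ⟨_, rfl⟩
  have h7 : ∀ j, 7 ≤ lam j := fun j => by rw [hlam]; dsimp only; split_ifs <;> linarith
  have hprod : ∀ j, n0 ≤ j → j < n1 →
      L ^ (j - n0) * P (-(40 + 6 * h)) ≤ ∏ m ∈ Finset.Ico n0 j, lam m := by
    intro j h1 h2
    have := prod_ge (n := n0) (U := 40 + 6 * h) (n1 := n1) (by linarith) hL8 h7
      (fun m h3 h4 => by rw [hlam]; dsimp only; rw [if_pos ⟨h3, h4⟩]) (j - n0) (by omega)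
    rw [show n0 + (j - n0) = j by omega] at this
    exact (mul_le_mul_of_nonneg_left (P_le (by omega)) (by positivity)).trans this
  have hcnt : ∀ j, n0 ≤ j → j < n1 → (cntB C n0 i (j + 1) : ℝ) ≤
      P (-h - 7) * ∏ m ∈ Finset.Ico n0 j, lam m := by
    intro j h1 h2
    have e1 := w1 C θ _ n0 i (j + 1) hθ.le st2.small (by omega)
    rw [show j + 1 = n0 + (j - n0 + 1) by omega, pow_add, mul_comm (θ ^ n0), ← mul_assoc] at e1
    have e2 := le_of_mul_le_mul_right e1 (pow_pos hθ n0)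
    rw [show n0 + (j - n0 + 1) = j + 1 by omega] at e2
    have e3 : 1 ≤ θ ^ (j - n0 + 1) * L ^ (j - n0 + 1) := by
      rw [← mul_pow]; exact one_le_pow₀ hθL
    have e4 : (cntB C n0 i (j + 1) : ℝ) ≤ P (-7 * h - 50) * L ^ (j - n0 + 1) :=
      (le_mul_of_one_le_right (Nat.cast_nonneg _) e3).trans (by
        rw [← mul_assoc]; exact mul_le_mul_of_nonneg_right e2 (by positivity))
    have e5 : P (-h - 7) * P (-(40 + 6 * h)) = 2 ^ 3 * P (-7 * h - 50) := by
      rw [← P_add]; exact P_shift 3 (by push_cast; ring)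
    have e6 := mul_le_mul_of_nonneg_left (hprod j h1 h2) (P_pos (-h - 7)).le
    have e7 : P (-7 * h - 50) * L ^ (j - n0 + 1) ≤ P (-7 * h - 50) * (L ^ (j - n0) * 8) :=
      mul_le_mul_of_nonneg_left (by
        rw [pow_succ]; exact mul_le_mul_of_nonneg_left hL8 (by positivity)) hδ.le
    calc (cntB C n0 i (j + 1) : ℝ) ≤ P (-7 * h - 50) * (L ^ (j - n0) * 8) := e4.trans e7
      _ = P (-h - 7) * (L ^ (j - n0) * P (-(40 + 6 * h))) := by
          rw [mul_left_comm (P (-h - 7)), e5]; ring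
      _ ≤ _ := e6
  have hBd : (Bd.card : ℝ) ≤ 1 / 16 * ∏ m ∈ Finset.Ico n0 (n1 - 1), lam m := by
    have e1 : (Bd.card : ℝ) * θ ^ m ≤ 1 := by
      have e2 : P (-7 * h - 50) * ((Bd.card : ℝ) * θ ^ m) ≤ P (-7 * h - 50) * 1 :=
        (by linarith : _ ≤ P (-7 * h - 50) * θ ^ n0).trans
          (mul_le_mul_of_nonneg_left (pow_le_one₀ hθ.le hθ1) hδ.le)
      exact le_of_mul_le_mul_left e2 hδ
    have e2 := hprod (n1 - 1) (by omega) (by omega)
    have e3 : P (44 + 6 * h) * P (-(40 + 6 * h)) = 16 := by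
      rw [← P_add, show (44 + 6 * h + -(40 + 6 * h) : ℤ) = (4 : ℕ) by push_cast; ring, P_nat]
      norm_num
    have e4 := mul_le_mul_of_nonneg_right hZ (P_pos (-(40 + 6 * h))).le
    rw [e3, mul_assoc] at e4
    have e5 := mul_le_mul_of_nonneg_left (e4.trans (mul_le_mul_of_nonneg_left e2
      (pow_pos hθ m).le)) (Nat.cast_nonneg (α := ℝ) Bd.card)
    have e6 : 0 ≤ ∏ m ∈ Finset.Ico n0 (n1 - 1), lam m :=
      Finset.prod_nonneg fun j _ => by linarith [h7 j]
    rw [← mul_assoc] at e5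
    have e7 := mul_le_mul_of_nonneg_right e1 e6
    linarith
  obtain ⟨p, hp0, hp1⟩ := hp r n0 i lam
    (fun j => if j + 1 = n1 then 13 / 16 else
      if n0 + (40 + 6 * h) ≤ j ∧ j + 1 < n1 then P (-h - 1) else 1 / 2)
    (fun j x => j = n1 ∧ ¬ Clean g s n1 n x)
    (fun j => if j = n1 then C j ∪ Bd else if j < n1 then C j else ∅)
    (fun x hx => (st.start x hx).good) (by
      intro j hj
      have e0 : 0 ≤ ∏ m ∈ Finset.Ico n0 j, lam m :=
        Finset.prod_nonneg fun j _ => by linarith [h7 j]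
      have e1 : (cntB (fun j => if j = n1 then C j ∪ Bd else if j < n1 then C j else ∅) n0 i
          (j + 1) : ℝ) ≤ ((if j + 1 = n1 then cntB C n0 i (j + 1) + Bd.card else
            if j + 1 < n1 then cntB C n0 i (j + 1) else 0 : ℕ) : ℝ) :=
        Nat.cast_le.2 (cnt_union C Bd n1 n0 i (j + 1))
      have e2 : P (-(h : ℤ) - 7) ≤ P (-h - 1) := P_le (by omega)
      have e3 : P (-(h : ℤ) - 7) ≤ 1 / 16 :=
        (P_le (show _ ≤ (-4 : ℤ) by omega)).trans (by unfold P; norm_num)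
      have e4 : P (-(h : ℤ)) = 2 * P (-h - 1) := by rw [← P_succ, sub_add_cancel]
      refine ⟨by linarith [h7 j], light2_of_light ?_ h7, e1.trans ?_⟩
      · by_cases c1 : j + 1 = n1
        · rw [if_pos c1]
          refine lor r n0 (j + 1) _ _ _ _ _ _ (mainB r n0 j (by omega) hj)
            (c1 ▸ extra (kill z cnt) rat lfew lor lsum (dual z) r g s n0 n1 n 0 par) ?_
            (by norm_num)
          rintro x ⟨h1, h2, h3 | h3⟩
          · exact Or.inl ⟨st.start x h1, h2, h3⟩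
          · exact Or.inr (Or.inl (c1 ▸ h3.2))
        · rw [if_neg c1]
          split_ifs with c2
          · refine light_mono (hm2 r n0 j h hr (by omega)) ?_ le_rfl
            rintro x ⟨h1, h2, h3 | h3⟩
            · exact ⟨st.start x h1, h2, h3⟩
            · exact absurd h3.1 c1
          · refine light_mono (mainB r n0 j (by omega) hj) ?_ (by norm_num)
            rintro x ⟨h1, h2, h3 | h3⟩
            · exact ⟨st.start x h1, h2, h3⟩
            · exact absurd h3.1 c1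
      · by_cases c1 : j + 1 = n1
        · have e5 : lam j = 7 := by rw [hlam]; dsimp only; rw [if_neg (by omega)]
          have e6 := hcnt j hj (by omega)
          rw [show n1 - 1 = j by omega] at hBd
          rw [if_pos c1, if_pos c1, e5]
          push_cast
          nlinarith
        · rw [if_neg c1, if_neg c1]
          by_cases c2 : n0 + (40 + 6 * h) ≤ j ∧ j + 1 < n1
          · have e5 : lam j = L := by rw [hlam]; dsimp only; rw [if_pos c2]
            rw [if_pos c2.2, if_pos c2, e5]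
            refine (hcnt j hj (by omega)).trans (mul_le_mul_of_nonneg_right (by linarith) e0)
          · have e5 : lam j = 7 := by rw [hlam]; dsimp only; rw [if_neg c2]
            rw [if_neg c2, e5]
            split_ifs with c3
            · exact (hcnt j hj (by omega)).trans (mul_le_mul_of_nonneg_right (by linarith) e0)
            · push_cast; positivity)
  have hpath : ∀ j, n0 ≤ j → j ≤ n1 → p n1 / 8 ^ (n1 - j) = p j := by
    intro j h1 h2
    have := path (fun j hj => (hp1 j hj).1) h1 (n1 - j)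
    rwa [show j + (n1 - j) = n1 by omega] at this
  have hsubj : ∀ j, n0 ≤ j → j ≤ n1 → Node n1 (p n1) ⊆ Node j (p j) := by
    intro j h1 h2
    have := node_sub j (n1 - j) (p n1)
    rwa [hpath j h1 h2, show j + (n1 - j) = n1 by omega] at this
  have hlast := hp1 (n1 - 1) (by omega)
  rw [show n1 - 1 + 1 = n1 by omega] at hlast
  have hsub1 : Node n1 (p n1) ⊆ Node n0 i := hp0 ▸ hsubj n0 le_rfl (by omega)
  obtain ⟨r2, n2, i2, q1, q2, q3, q4, q5, q6, q7⟩ := window (K := K) hmono hpos hH0 st par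
    ((P_le (by omega)).trans hk1) (hk2.trans_le (P_le (by omega)))
    (fun H hH => hrec H (hH1.trans hH)) hsm (by omega) hsub1 (by
      intro x hx
      refine ⟨fun j h1 h2 => ?_, not_not.1 fun hc => (hlast.2.2 x hx).2 ⟨rfl, hc⟩⟩
      rcases Nat.eq_or_lt_of_le h1 with h3 | h3
      · exact h3 ▸ (st.start x (hsub1 hx)).good
      · have := (hp1 (j - 1) (by omega)).2.2 x
        rw [show j - 1 + 1 = j by omega] at this
        exact (this (hsubj j h1 h2 hx)).1)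
  have hn2 : n2 ≤ m := by
    rw [hm, Nat.le_div_iff_mul_le (by omega), mul_comm]
    exact level hab (hpos H' (by omega)).le (hpos H1 (by omega)).le hfr' hH1 (hrec H' le_rfl)
      (hk2.trans_le (P_le (by omega))) q6
  have hi2 : i2 / 8 ^ (n2 - n1) = p n1 :=
    node_index (by rwa [show n1 + (n2 - n1) = n2 by omega])
  have hnot := hlast.2.1
  simp only [if_true, Finset.mem_union, not_or] at hnot
  obtain ⟨t1, t2⟩ := w3 C θ _ n1 (p n1) n2 i2 m hθ hθ1 (P_lt_one (by omega)) q4 hn2 hi2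
    (hBd2 _ ((hpath n0 le_rfl (by omega)).trans hp0) hnot.2)
  refine ⟨r2, n2, i2, q1, ⟨q2, t1, fun j hj => ?_⟩, q3.trans hsub1, q5, q7⟩
  by_cases c1 : n1 < j
  · exact t2 j c1 hj
  have e1 : i2 / 8 ^ (n2 - j) = p n1 / 8 ^ (n1 - j) := by
    rw [← hi2, Nat.div_div_eq_div_mul, ← pow_add]; congr 2; omega
  rw [e1]
  by_cases c2 : n0 < j
  · rw [hpath j c2.le (by omega)]
    have := (hp1 (j - 1) (by omega)).2.1
    rw [show j - 1 + 1 = j by omega] at this
    by_cases c3 : j = n1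
    · rw [c3]; exact hnot.1
    · simpa [c3, show j < n1 by omega] using this
  · have e2 : p n1 / 8 ^ (n1 - j) = i / 8 ^ (n0 - j) := by
      rw [← hp0, ← hpath n0 le_rfl (by omega), Nat.div_div_eq_div_mul, ← pow_add]; congr 2; omega
    rw [e2]
    exact st2.avoid j (by omega)

end ExOrd
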