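import Pool.Agent.Lib.MP_a94b90_nt.ED.Stmt

/-! ED row 8: roots of a small quadratic form, count of forms with small discriminant. -/

namespace ExOrd
open Finset

theorem root : RootStmt := by
  intro a b c η hD hη
  have hpos : ∀ x : ℝ, |Lv a b c x| ≤ η → 0 < b ^ 2 - 4 * a * c := by
    intro x hx
    by_contra h
    have h1 : b ^ 2 - 4 * a * c ≤ -1 := by
      have : b ^ 2 - 4 * a * c ≠ 0 := sub_ne_zero.2 hD
      omega
    have h2 : ((b : ℝ) ^ 2 - 4 * a * c) ≤ -1 := by exact_mod_cast h1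
    have h3 : 4 * (a : ℝ) * Lv a b c x = (2 * a * x + b) ^ 2 - ((b : ℝ) ^ 2 - 4 * a * c) := by
      unfold Lv; ring
    have h4 : 4 * (a : ℝ) * Lv a b c x ≤ 4 * |(a : ℝ)| * η := by
      calc 4 * (a : ℝ) * Lv a b c x ≤ |4 * (a : ℝ) * Lv a b c x| := le_abs_self _
        _ = 4 * |(a : ℝ)| * |Lv a b c x| := by rw [abs_mul, abs_mul]; norm_num
        _ ≤ _ := by gcongr
    nlinarith [sq_nonneg (2 * (a : ℝ) * x + b)]
  by_cases ha : a = 0
  · subst ha
    refine ⟨-(c : ℝ) / b, 0, fun x hx => ⟨hpos x hx, Or.inl ?_⟩⟩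
    have hb : (b : ℝ) ≠ 0 := by
      intro h
      have : b = 0 := by exact_mod_cast h
      simp [this] at hD
    have e1 : √((b ^ 2 - 4 * 0 * c : ℤ) : ℝ) = |(b : ℝ)| := by
      rw [← Real.sqrt_sq_eq_abs]; congr 1; push_cast; ring
    have e2 : (x - -(c : ℝ) / b) * b = Lv 0 b c x := by
      unfold Lv; field_simp; push_cast; ring
    rw [e1, ← abs_mul, e2]
    have := (abs_nonneg _).trans hx
    linarith
  have ha' : (a : ℝ) ≠ 0 := by exact_mod_cast ha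
  have hA : 0 < |(a : ℝ)| := abs_pos.2 ha'
  set s : ℝ := √((b ^ 2 - 4 * a * c : ℤ) : ℝ) with hs
  refine ⟨(-b + s) / (2 * a), (-b - s) / (2 * a), fun x hx => ⟨hpos x hx, ?_⟩⟩
  have hs0 : 0 ≤ s := Real.sqrt_nonneg _
  have hs2 : s ^ 2 = (b : ℝ) ^ 2 - 4 * a * c := by
    rw [hs, Real.sq_sqrt (by exact_mod_cast (hpos x hx).le)]; push_cast; ring
  have e0 : (x - (-b + s) / (2 * a)) * (2 * a * x + b + s) = 2 * Lv a b c x := by
    unfold Lv; field_simp; nlinarith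
  have e1 : (x - (-b - s) / (2 * a)) * (2 * a * x + b - s) = 2 * Lv a b c x := by
    unfold Lv; field_simp; nlinarith
  have e2 : |2 * Lv a b c x| ≤ 2 * η := by rw [abs_mul]; norm_num; exact hx
  rcases le_total 0 (2 * (a : ℝ) * x + b) with h | h
  · left
    rw [← e0, abs_mul] at e2
    refine le_trans (mul_le_mul_of_nonneg_left ?_ (abs_nonneg _)) e2
    exact le_trans (by linarith) (le_abs_self _)
  · right
    rw [← e1, abs_mul] at e2
    refine le_trans (mul_le_mul_of_nonneg_left ?_ (abs_nonneg _)) e2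
    exact le_trans (by linarith) (neg_le_abs _)

namespace DUpA

theorem card_icc (N : ℕ) : (Icc (-(N : ℤ)) N).card = 2 * N + 1 := by
  rw [Int.card_Icc]; omega

theorem fib0 (N : ℕ) (T : Finset (ℤ × ℤ × ℤ))
    (h : ∀ Q ∈ T, Q.1 = 0 ∧ Ht Q.1 Q.2.1 Q.2.2 ≤ N) : T.card ≤ (2 * N + 1) * (2 * N + 1) := by
  have := card_le_card_of_injOn (s := T) (t := Icc (-(N : ℤ)) N ×ˢ Icc (-(N : ℤ)) N)
    (fun Q => Q.2) (fun Q hQ => by
      obtain ⟨-, h2⟩ := h Q hQ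
      unfold Ht at h2
      simp only [coe_product, Set.mem_prod, coe_Icc, Set.mem_Icc]
      omega) (fun Q hQ Q' hQ' e => Prod.ext (by rw [(h Q hQ).1, (h Q' hQ').1]) e)
  rwa [card_product, card_icc] at this

theorem fib1 (N M i : ℕ) (hi : 0 < i) (T : Finset (ℤ × ℤ × ℤ))
    (h : ∀ Q ∈ T, Q.1.natAbs = i ∧ Ht Q.1 Q.2.1 Q.2.2 ≤ N ∧ 0 < Q.2.1 ^ 2 - 4 * Q.1 * Q.2.2 ∧
      Q.2.1 ^ 2 - 4 * Q.1 * Q.2.2 ≤ M) : T.card ≤ 2 * ((2 * N + 1) * (M / (4 * i) + 1)) := by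
  have h4 : (0 : ℤ) < 4 * i := by omega
  have := card_le_card_of_injOn (s := T)
    (t := ({(i : ℤ), -(i : ℤ)} : Finset ℤ) ×ˢ Icc (-(N : ℤ)) N ×ˢ Icc (0 : ℤ) (M / (4 * i) : ℕ))
    (fun Q => (Q.1, Q.2.1, (Q.2.1 ^ 2 - 4 * Q.1 * Q.2.2) / (4 * i))) (fun Q hQ => by
      obtain ⟨h1, h2, h3, h5⟩ := h Q hQ
      unfold Ht at h2
      simp only [coe_product, Set.mem_prod, coe_Icc, Set.mem_Icc, coe_insert, coe_singleton,
        Set.mem_insert_iff, Set.mem_singleton_iff]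
      refine ⟨by omega, by omega, Int.ediv_nonneg h3.le h4.le, ?_⟩
      push_cast
      exact Int.ediv_le_ediv h4 h5) (by
      rintro ⟨a, b, c⟩ hQ ⟨a', b', c'⟩ hQ' e
      simp only [Prod.mk.injEq] at e ⊢
      obtain ⟨rfl, rfl, e⟩ := e
      refine ⟨rfl, rfl, ?_⟩
      have h1 : a.natAbs = i := (h _ hQ).1
      rcases Int.natAbs_eq a with h2 | h2 <;> rw [h1] at h2 <;> subst h2
      · rw [show b ^ 2 - 4 * (i : ℤ) * c = b ^ 2 + (-c) * (4 * i) by ring,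
          show b ^ 2 - 4 * (i : ℤ) * c' = b ^ 2 + (-c') * (4 * i) by ring,
          Int.add_mul_ediv_right _ _ h4.ne', Int.add_mul_ediv_right _ _ h4.ne'] at e
        omega
      · rw [show b ^ 2 - 4 * -(i : ℤ) * c = b ^ 2 + c * (4 * i) by ring,
          show b ^ 2 - 4 * -(i : ℤ) * c' = b ^ 2 + c' * (4 * i) by ring,
          Int.add_mul_ediv_right _ _ h4.ne', Int.add_mul_ediv_right _ _ h4.ne'] at e
        omega)
  rw [card_product, card_product, card_icc, Int.card_Icc] at this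
  refine this.trans ?_
  have e : (((M / (4 * i) : ℕ) : ℤ) + 1 - 0).toNat = M / (4 * i) + 1 := by
    generalize M / (4 * i) = y
    omega
  rw [e]
  exact Nat.mul_le_mul_right _ card_le_two

theorem harm (k : ℕ) : ∑ i ∈ range (2 ^ k), (1 / ((i + 1 : ℕ) : ℝ)) ≤ k + 1 := by
  have h := harmonic_le_one_add_log (2 ^ k)
  have e : ((harmonic (2 ^ k) : ℚ) : ℝ) = ∑ i ∈ range (2 ^ k), (1 / ((i + 1 : ℕ) : ℝ)) := by
    unfold harmonic
    push_cast
    simp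
  rw [← e]
  have h2 : Real.log ((2 ^ k : ℕ) : ℝ) ≤ k := by
    push_cast
    rw [Real.log_pow]
    have := Real.log_two_lt_d9
    have hk : (0 : ℝ) ≤ k := Nat.cast_nonneg _
    nlinarith
  linarith

end DUpA

open DUpA in
theorem disc : DiscStmt := by
  intro k m T h
  have e0 := card_eq_sum_card_fiberwise (s := T) (t := range (2 ^ k + 1))
    (f := fun Q => Q.1.natAbs) (fun Q hQ => by
      have := (h Q hQ).1
      unfold Ht at this
      simp only [coe_range, Set.mem_Iio]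
      omega)
  rw [sum_range_succ'] at e0
  have b0 := fib0 (2 ^ k) (T.filter fun Q => Q.1.natAbs = 0) (fun Q hQ => by
    rw [mem_filter] at hQ
    exact ⟨Int.natAbs_eq_zero.1 hQ.2, (h Q hQ.1).1⟩)
  have b1 : ∀ i ∈ range (2 ^ k), ((T.filter fun Q => Q.1.natAbs = i + 1).card : ℝ) ≤
      6 * 2 ^ k * (2 ^ m / 4 * (1 / ((i + 1 : ℕ) : ℝ)) + 1) := by
    intro i _
    have := fib1 (2 ^ k) (2 ^ m) (i + 1) (by omega) (T.filter fun Q => Q.1.natAbs = i + 1)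
      (fun Q hQ => by
        rw [mem_filter] at hQ
        obtain ⟨h1, h2, h3⟩ := h Q hQ.1
        exact ⟨hQ.2, h1, h2, by push_cast; exact h3⟩)
    have h1 : ((2 ^ m / (4 * (i + 1)) : ℕ) : ℝ) ≤ 2 ^ m / 4 * (1 / ((i + 1 : ℕ) : ℝ)) := by
      refine Nat.cast_div_le.trans (le_of_eq ?_)
      push_cast
      field_simp
    have h2 : (1 : ℝ) ≤ 2 ^ k := one_le_pow₀ (by norm_num)
    calc _ ≤ ((2 * ((2 * 2 ^ k + 1) * (2 ^ m / (4 * (i + 1)) + 1)) : ℕ) : ℝ) := by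
          exact_mod_cast this
      _ = 2 * (2 * 2 ^ k + 1) * (((2 ^ m / (4 * (i + 1)) : ℕ) : ℝ) + 1) := by
          generalize 2 ^ m / (4 * (i + 1)) = y
          push_cast; ring
      _ ≤ _ := mul_le_mul (by linarith) (by linarith) (by positivity) (by positivity)
  have b2 := sum_le_sum b1
  rw [← mul_sum, sum_add_distrib, ← mul_sum, sum_const, card_range] at b2
  have b3 := harm k
  have h2 : (1 : ℝ) ≤ 2 ^ k := one_le_pow₀ (by norm_num)
  have h3 : (0 : ℝ) < 2 ^ m := by positivity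
  have hk : (0 : ℝ) ≤ k := Nat.cast_nonneg _
  have b0' : ((T.filter fun Q => Q.1.natAbs = 0).card : ℝ) ≤ (2 * 2 ^ k + 1) * (2 * 2 ^ k + 1) := by
    exact_mod_cast b0
  have b4 : (T.card : ℝ) ≤ 6 * 2 ^ k * (2 ^ m / 4 * (k + 1) + 2 ^ k) +
      (2 * 2 ^ k + 1) * (2 * 2 ^ k + 1) := by
    rw [e0]
    push_cast at b2 b3 ⊢
    simp only [nsmul_eq_mul, mul_one, Nat.cast_pow, Nat.cast_ofNat] at b2
    refine add_le_add (b2.trans ?_) b0'
    gcongr
  have b5 : (T.card : ℝ) ≤ 2 ^ (2 * k + 5) + (k + 1) * 2 ^ (k + m + 3) := by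
    refine b4.trans ?_
    have p1 : (2 : ℝ) ^ (2 * k + 5) = 32 * (2 ^ k * 2 ^ k) := by ring
    have p2 : (2 : ℝ) ^ (k + m + 3) = 8 * (2 ^ k * 2 ^ m) := by ring
    rw [p1, p2]
    have p3 : (0 : ℝ) ≤ (k + 1) * (2 ^ k * 2 ^ m) := by positivity
    nlinarith
  exact_mod_cast b5

end ExOrd
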