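import Pool.Agent.Lib.MP_a94b90_nt.ED.Stmt

/-! ED: upper bound for the dimension of the set of well approximable points. -/

namespace ExOrd
open Set MeasureTheory Filter Topology

namespace DUpB

theorem cantelli {ι : Type} [Countable ι] [DecidableEq ι] {s : ℝ} (hs : 0 < s)
    (J : ℕ → ι → Set ℝ) (S : ℕ → Finset ι) (r : ℕ → ι → ℝ) (ρ : ℕ → ℝ)
    (hr0 : ∀ j i, 0 ≤ r j i) (hρ : Tendsto ρ atTop (𝓝 0)) (hr : ∀ j i, r j i ≤ ρ j)
    (hJ : ∀ j i, Metric.ediam (J j i) ≤ ENNReal.ofReal (r j i))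
    (hsum : Summable fun j => ∑ i ∈ S j, r j i ^ s) :
    μH[s] {α | ∃ᶠ j in atTop, ∃ i ∈ S j, α ∈ J j i} = 0 := by
  have hr' : Tendsto (fun j => ENNReal.ofReal (ρ j)) atTop (𝓝 0) := by
    simpa using ENNReal.tendsto_ofReal hρ
  have h1 := Measure.hausdorffMeasure_le_liminf_tsum (ι := fun _ : ℕ => ℕ × ι) s
    {α | ∃ᶠ j in atTop, ∃ i ∈ S j, α ∈ J j i} (l := atTop)
    (fun n => ⨆ j, ENNReal.ofReal (ρ (j + n))) ?_
    (fun n p => if p.2 ∈ S (p.1 + n) then J (p.1 + n) p.2 else ∅)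
    (Eventually.of_forall fun n p => ?_) (Eventually.of_forall fun n α hα => ?_)
  · refine le_antisymm (h1.trans ?_) zero_le
    have hn : ∀ j, 0 ≤ ∑ i ∈ S j, r j i ^ s := fun j =>
      Finset.sum_nonneg fun i _ => Real.rpow_nonneg (hr0 j i) s
    have h2 : ∑' j, ENNReal.ofReal (∑ i ∈ S j, r j i ^ s) ≠ ⊤ := by
      rw [← ENNReal.ofReal_tsum_of_nonneg hn hsum]
      exact ENNReal.ofReal_ne_top
    rw [← (ENNReal.tendsto_sum_nat_add _ h2).liminf_eq]
    refine liminf_le_liminf (Eventually.of_forall fun n => ?_)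
    rw [ENNReal.tsum_prod']
    refine ENNReal.tsum_le_tsum fun j => ?_
    rw [tsum_eq_sum (s := S (j + n)) fun k hk => by simp [hk, hs],
      ENNReal.ofReal_sum_of_nonneg fun i _ => Real.rpow_nonneg (hr0 _ i) s]
    refine Finset.sum_le_sum fun k hk => ?_
    simp only [hk, if_true]
    rw [← ENNReal.ofReal_rpow_of_nonneg (hr0 _ _) hs.le]
    exact ENNReal.rpow_le_rpow (hJ _ _) hs.le
  · rw [ENNReal.tendsto_atTop_zero] at hr' ⊢
    intro ε hε
    obtain ⟨M, hM⟩ := hr' ε hε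
    exact ⟨M, fun n hn => iSup_le fun j => hM _ (by omega)⟩
  · split_ifs
    · exact ((hJ _ _).trans (ENNReal.ofReal_le_ofReal (hr _ _))).trans
        (le_iSup (fun j => ENNReal.ofReal (ρ (j + n))) p.1)
    · simp
  · obtain ⟨j, hj, k, hk, h⟩ := frequently_atTop.1 hα n
    refine Set.mem_iUnion.2 ⟨(j - n, k), ?_⟩
    simp only [Nat.sub_add_cancel hj, hk, if_true, h]

/-- forms of height at most `2^(k+1)` with positive discriminant at most `2^(m+1)`. -/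
noncomputable def TT (k m : ℕ) : Finset (ℤ × ℤ × ℤ) :=
  (Finset.Icc (-2 ^ (k + 1) : ℤ) (2 ^ (k + 1)) ×ˢ Finset.Icc (-2 ^ (k + 1) : ℤ) (2 ^ (k + 1)) ×ˢ
    Finset.Icc (-2 ^ (k + 1) : ℤ) (2 ^ (k + 1))).filter fun Q =>
      Ht Q.1 Q.2.1 Q.2.2 ≤ 2 ^ (k + 1) ∧ 0 < Q.2.1 ^ 2 - 4 * Q.1 * Q.2.2 ∧
        Q.2.1 ^ 2 - 4 * Q.1 * Q.2.2 ≤ 2 ^ (m + 1)

theorem abs_le_of_Ht {a b c : ℤ} {k : ℕ} (h : Ht a b c ≤ 2 ^ k) :
    |a| ≤ 2 ^ k ∧ |b| ≤ 2 ^ k ∧ |c| ≤ 2 ^ k := by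
  unfold Ht at h
  simp only [max_le_iff] at h
  obtain ⟨h1, h2, h3⟩ := h
  rw [Int.abs_eq_natAbs, Int.abs_eq_natAbs, Int.abs_eq_natAbs]
  exact ⟨by exact_mod_cast h3, by exact_mod_cast h2, by exact_mod_cast h1⟩

theorem mem_TT {a b c : ℤ} {k m : ℕ} (h : Ht a b c ≤ 2 ^ (k + 1)) (h1 : 0 < b ^ 2 - 4 * a * c)
    (h2 : b ^ 2 - 4 * a * c ≤ 2 ^ (m + 1)) : (a, b, c) ∈ TT k m := by
  obtain ⟨ha, hb, hc⟩ := abs_le_of_Ht h
  simp only [TT, Finset.mem_filter, Finset.mem_product, Finset.mem_Icc]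
  exact ⟨⟨abs_le.1 ha, abs_le.1 hb, abs_le.1 hc⟩, h, h1, h2⟩

theorem disc_lt {a b c : ℤ} {k : ℕ} (h : Ht a b c ≤ 2 ^ (k + 1)) :
    b ^ 2 - 4 * a * c < 2 ^ (2 * k + 5) := by
  obtain ⟨ha, hb, hc⟩ := abs_le_of_Ht h
  have e : (2 : ℤ) ^ (2 * k + 5) = 8 * (2 ^ (k + 1) * 2 ^ (k + 1)) := by ring
  have hp : (0 : ℤ) < 2 ^ (k + 1) := by positivity
  have h1 : b ^ 2 ≤ 2 ^ (k + 1) * 2 ^ (k + 1) := by
    rw [← sq_abs, sq]; exact mul_le_mul hb hb (abs_nonneg _) hp.le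
  have h2 : |a * c| ≤ 2 ^ (k + 1) * 2 ^ (k + 1) := by
    rw [abs_mul]; exact mul_le_mul ha hc (abs_nonneg _) hp.le
  have h3 := (abs_le.1 h2).1
  have h4 := mul_pos hp hp
  rw [e]
  nlinarith

theorem level_sum (h2 : DiscStmt) {u v q : ℝ} (hu : 0 ≤ u) (hv : 0 ≤ v) (hv1 : v ≤ 1)
    (hv2 : 1 ≤ 2 * v) (hq1 : 4 * u ≤ q) (hq2 : 8 * u * v ^ 2 ≤ q) (k : ℕ) :
    ∑ m ∈ Finset.range (2 * k + 5), ((TT k m).card : ℝ) * (u ^ k * v ^ m) ≤
      6000 * ((k : ℝ) ^ 2 * q ^ k + q ^ k) := by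
  have hq : 0 ≤ q := by linarith
  have hk : (0 : ℝ) ≤ k := Nat.cast_nonneg k
  have hqk : 0 ≤ q ^ k := pow_nonneg hq k
  have a1 : (4 * u) ^ k ≤ q ^ k := pow_le_pow_left₀ (by linarith) hq1 k
  have a2 : (8 * u * v ^ 2) ^ k ≤ q ^ k := pow_le_pow_left₀ (by positivity) hq2 k
  have key : ∀ m ∈ Finset.range (2 * k + 5), ((TT k m).card : ℝ) * (u ^ k * v ^ m) ≤
      (128 + 512 * (k + 2)) * q ^ k := by
    intro m hm
    have hm' : m ≤ 2 * k + 4 := by have := Finset.mem_range.1 hm; omega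
    have c1 := h2 (k + 1) (m + 1) (TT k m) fun Q hQ => (Finset.mem_filter.1 hQ).2
    have c2 : ((TT k m).card : ℝ) ≤ 128 * 4 ^ k + (k + 2) * (32 * 2 ^ k * 2 ^ m) := by
      have := (Nat.cast_le (α := ℝ)).2 c1
      push_cast at this
      refine this.trans_eq ?_
      rw [show (4 : ℝ) = 2 ^ 2 by norm_num, ← pow_mul]
      ring
    have b1 : v ^ m ≤ 1 := pow_le_one₀ hv hv1
    have b2 : (2 * v) ^ m ≤ (2 * v) ^ (2 * k + 4) := pow_le_pow_right₀ hv2 hm'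
    have b3 : (2 * v) ^ 4 ≤ 2 ^ 4 := pow_le_pow_left₀ (by positivity) (by linarith) 4
    have b4 : 4 ^ k * (u ^ k * v ^ m) ≤ q ^ k := by
      refine le_trans ?_ a1
      rw [mul_pow, ← mul_assoc]
      exact mul_le_of_le_one_right (by positivity) b1
    have b5 : 2 ^ k * 2 ^ m * (u ^ k * v ^ m) ≤ 16 * q ^ k := by
      calc 2 ^ k * 2 ^ m * (u ^ k * v ^ m) = (2 * u) ^ k * (2 * v) ^ m := by
            rw [mul_pow, mul_pow]; ring
        _ ≤ (2 * u) ^ k * (2 * v) ^ (2 * k + 4) := by gcongr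
        _ = (2 * v) ^ 4 * (8 * u * v ^ 2) ^ k := by
            rw [show 8 * u * v ^ 2 = (2 * u) * (2 * v) ^ 2 by ring, mul_pow (2 * u), ← pow_mul,
              pow_add]
            ring
        _ ≤ 2 ^ 4 * q ^ k := by gcongr
        _ = 16 * q ^ k := by norm_num
    calc ((TT k m).card : ℝ) * (u ^ k * v ^ m)
        ≤ (128 * 4 ^ k + (k + 2) * (32 * 2 ^ k * 2 ^ m)) * (u ^ k * v ^ m) := by gcongr
      _ = 128 * (4 ^ k * (u ^ k * v ^ m)) +
          32 * (k + 2) * (2 ^ k * 2 ^ m * (u ^ k * v ^ m)) := by ring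
      _ ≤ 128 * q ^ k + 32 * (k + 2) * (16 * q ^ k) := by gcongr
      _ = _ := by ring
  refine (Finset.sum_le_card_nsmul _ _ _ key).trans ?_
  rw [Finset.card_range, nsmul_eq_mul]
  push_cast
  have k1 : (k : ℝ) ≤ (k : ℝ) ^ 2 := by exact_mod_cast Nat.le_self_pow two_ne_zero k
  have k2 : (2 * (k : ℝ) + 5) * (128 + 512 * (k + 2)) ≤ 6000 * ((k : ℝ) ^ 2 + 1) := by nlinarith
  calc (2 * (k : ℝ) + 5) * ((128 + 512 * (k + 2)) * q ^ k)
      = (2 * (k : ℝ) + 5) * (128 + 512 * (k + 2)) * q ^ k := by ring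
    _ ≤ 6000 * ((k : ℝ) ^ 2 + 1) * q ^ k := by gcongr
    _ = _ := by ring

theorem null (h1 : RootStmt) (h2 : DiscStmt) {w s : ℝ} (hw : 2 ≤ w) (hs : 3 / (w + 1) < s)
    (hs2 : s ≤ 2) : μH[s] {ξ : ℝ | ∀ K : ℕ, ∃ a b c : ℤ, K ≤ Ht a b c ∧ b ^ 2 ≠ 4 * a * c ∧
      |Lv a b c ξ| ≤ (Ht a b c : ℝ) ^ (-w)} = 0 := by
  classical
  have hs0 : 0 < s := lt_trans (by positivity) hs
  have hs3 : 3 < s * (w + 1) := by rwa [div_lt_iff₀ (by linarith)] at hs
  have hws : 2 < w * s := by nlinarith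
  have hx : ∀ (k : ℕ) (Q : ℤ × ℤ × ℤ), ∃ x : Bool → ℝ, Q.2.1 ^ 2 ≠ 4 * Q.1 * Q.2.2 →
      4 * |(Q.1 : ℝ)| * (2 : ℝ) ^ (-(w * k)) < 1 → ∀ y : ℝ,
      |Lv Q.1 Q.2.1 Q.2.2 y| ≤ (2 : ℝ) ^ (-(w * k)) → 0 < Q.2.1 ^ 2 - 4 * Q.1 * Q.2.2 ∧
        ∃ e, |y - x e| * √((Q.2.1 ^ 2 - 4 * Q.1 * Q.2.2 : ℤ) : ℝ) ≤ 2 * (2 : ℝ) ^ (-(w * k)) := by
    intro k Q
    by_cases h : Q.2.1 ^ 2 ≠ 4 * Q.1 * Q.2.2 ∧ 4 * |(Q.1 : ℝ)| * (2 : ℝ) ^ (-(w * k)) < 1
    · obtain ⟨x1, x2, h3⟩ := h1 _ _ _ _ h.1 h.2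
      refine ⟨fun e => if e then x1 else x2, fun _ _ y hy => ⟨(h3 y hy).1, ?_⟩⟩
      rcases (h3 y hy).2 with h4 | h4
      · exact ⟨true, by simpa using h4⟩
      · exact ⟨false, by simpa using h4⟩
    · exact ⟨fun _ => 0, fun h3 h4 => absurd ⟨h3, h4⟩ h⟩
  choose x hx using hx
  let R : ℕ → ℕ → ℝ := fun k m => (2 : ℝ) ^ (1 - w * k - m / 2 : ℝ)
  have hR : ∀ k m, 0 < R k m := fun k m => Real.rpow_pos_of_pos two_pos _
  let S : ℕ → Finset (ℕ × (ℤ × ℤ × ℤ) × Bool) := fun k =>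
    (Finset.range (2 * k + 5)).biUnion fun m => {m} ×ˢ TT k m ×ˢ Finset.univ
  refine measure_mono_null ?_ (cantelli hs0
    (fun k i => Icc (x k i.2.1 i.2.2 - R k i.1) (x k i.2.1 i.2.2 + R k i.1)) S
    (fun k i => 2 * R k i.1) (fun k => 4 * (1 / 2) ^ k) (fun k i => by have := hR k i.1; positivity)
    ?_ (fun k i => ?_) (fun k i => ?_) ?_)
  · intro ξ hξ
    refine frequently_atTop.2 fun n => ?_
    obtain ⟨a, b, c, hK, hd, hL⟩ := hξ (2 ^ (n + 4))
    have hH : Ht a b c ≠ 0 := by have := Nat.one_le_two_pow (n := n + 4); omega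
    set k := Nat.log 2 (Ht a b c) with hk
    have k1 : 2 ^ k ≤ Ht a b c := Nat.pow_log_le_self 2 hH
    have k2 : Ht a b c ≤ 2 ^ (k + 1) := (Nat.lt_pow_succ_log_self one_lt_two _).le
    have k3 : n + 4 ≤ k := Nat.le_log_of_pow_le one_lt_two hK
    have hL' : |Lv a b c ξ| ≤ (2 : ℝ) ^ (-(w * k)) := by
      refine hL.trans ?_
      rw [show -(w * k) = k * -w by ring, Real.rpow_mul two_pos.le, Real.rpow_natCast]
      exact Real.rpow_le_rpow_of_nonpos (by positivity) (by exact_mod_cast k1) (by linarith)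
    have ha : |(a : ℝ)| ≤ 2 ^ (k + 1) := by exact_mod_cast (abs_le_of_Ht k2).1
    have hsm : 4 * |(a : ℝ)| * (2 : ℝ) ^ (-(w * k)) < 1 := by
      have k4 : (4 : ℝ) ≤ k := by exact_mod_cast (by omega : 4 ≤ k)
      calc 4 * |(a : ℝ)| * (2 : ℝ) ^ (-(w * k)) ≤ 4 * 2 ^ (k + 1) * (2 : ℝ) ^ (-(w * k)) := by
            gcongr
        _ = (2 : ℝ) ^ ((k + 3 : ℕ) + -(w * k)) := by
            rw [Real.rpow_add two_pos, Real.rpow_natCast]; ring
        _ < 1 := Real.rpow_lt_one_of_one_lt_of_neg one_lt_two (by push_cast; nlinarith)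
    obtain ⟨hD, e, he⟩ := hx k (a, b, c) hd hsm ξ hL'
    simp only at hD he
    obtain ⟨D, hDD⟩ := Int.eq_ofNat_of_zero_le hD.le
    have hD0 : D ≠ 0 := by rintro rfl; simp [hDD] at hD
    set m := Nat.log 2 D with hm
    have m1 : 2 ^ m ≤ D := Nat.pow_log_le_self 2 hD0
    have m2 : D ≤ 2 ^ (m + 1) := (Nat.lt_pow_succ_log_self one_lt_two _).le
    have m3 : m < 2 * k + 5 := by
      have h3 := disc_lt k2
      rw [hDD] at h3
      have h4 : D < 2 ^ (2 * k + 5) := by exact_mod_cast h3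
      exact (Nat.pow_lt_pow_iff_right one_lt_two).1 (m1.trans_lt h4)
    refine ⟨k, by omega, (m, (a, b, c), e), ?_, ?_⟩
    · simp only [S, Finset.mem_biUnion, Finset.mem_range, Finset.mem_product,
        Finset.mem_singleton, Finset.mem_univ, and_true]
      exact ⟨m, m3, rfl, mem_TT k2 hD (by rw [hDD]; exact_mod_cast m2)⟩
    · have h3 : (2 : ℝ) ^ (m / 2 : ℝ) ≤ √((b ^ 2 - 4 * a * c : ℤ) : ℝ) := by
        refine Real.le_sqrt_of_sq_le ?_
        rw [hDD, ← Real.rpow_natCast, ← Real.rpow_mul two_pos.le]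
        push_cast
        rw [show (m : ℝ) / 2 * 2 = m by ring, Real.rpow_natCast]
        exact_mod_cast m1
      have h4 : 0 < (2 : ℝ) ^ (m / 2 : ℝ) := Real.rpow_pos_of_pos two_pos _
      have h5 : R k m * (2 : ℝ) ^ (m / 2 : ℝ) = 2 * (2 : ℝ) ^ (-(w * k)) := by
        simp only [R]
        rw [← Real.rpow_add two_pos, show 1 - w * k - m / 2 + m / 2 = 1 + -(w * k) by ring,
          Real.rpow_add two_pos, Real.rpow_one]
      have h6 : |ξ - x k (a, b, c) e| ≤ R k m := by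
        refine le_of_mul_le_mul_right ?_ h4
        rw [h5]
        exact le_trans (mul_le_mul_of_nonneg_left h3 (abs_nonneg _)) he
      have h7 := abs_le.1 h6
      exact ⟨by simp only; linarith [h7.1], by simp only; linarith [h7.2]⟩
  · simpa using (tendsto_pow_atTop_nhds_zero_of_lt_one (r := (1 / 2 : ℝ)) (by norm_num)
      (by norm_num)).const_mul 4
  · have h3 : R k i.1 ≤ (2 : ℝ) ^ (1 + -(k : ℝ)) := by
      refine Real.rpow_le_rpow_of_exponent_le one_le_two ?_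
      have : (0 : ℝ) ≤ k := Nat.cast_nonneg k
      have : (0 : ℝ) ≤ i.1 := Nat.cast_nonneg _
      nlinarith
    rw [Real.rpow_add two_pos, Real.rpow_one, Real.rpow_neg two_pos.le, Real.rpow_natCast] at h3
    simp only [one_div, inv_pow]
    linarith
  · rw [Real.ediam_Icc]
    exact le_of_eq (congrArg _ (by ring))
  · set u : ℝ := (2 : ℝ) ^ (-(w * s)) with hu
    set v : ℝ := (2 : ℝ) ^ (-(s / 2)) with hv
    have u0 : 0 < u := Real.rpow_pos_of_pos two_pos _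
    have v0 : 0 < v := Real.rpow_pos_of_pos two_pos _
    have v1 : v ≤ 1 := Real.rpow_le_one_of_one_le_of_nonpos one_le_two (by linarith)
    have v2 : 1 ≤ 2 * v := by
      have : 2 * v = (2 : ℝ) ^ (1 + -(s / 2)) := by rw [Real.rpow_add two_pos, Real.rpow_one]
      rw [this]
      exact Real.one_le_rpow one_le_two (by linarith)
    have q1 : 4 * u < 1 := by
      have : 4 * u = (2 : ℝ) ^ ((2 : ℕ) + -(w * s)) := by
        rw [Real.rpow_add two_pos, Real.rpow_natCast]; norm_num [hu]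
      rw [this]
      exact Real.rpow_lt_one_of_one_lt_of_neg one_lt_two (by push_cast; linarith)
    have q2 : 8 * u * v ^ 2 < 1 := by
      have : 8 * u * v ^ 2 = (2 : ℝ) ^ ((3 : ℕ) + -(w * s) + -(s / 2) * (2 : ℕ)) := by
        rw [Real.rpow_add two_pos, Real.rpow_add two_pos, Real.rpow_natCast,
          Real.rpow_mul two_pos.le, Real.rpow_natCast]
        norm_num [hu, hv]
      rw [this]
      exact Real.rpow_lt_one_of_one_lt_of_neg one_lt_two (by push_cast; linarith)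
    set q := max (4 * u) (8 * u * v ^ 2) with hq
    have q0 : 0 ≤ q := le_max_of_le_left (by positivity)
    have q3 : q < 1 := max_lt q1 q2
    have hsum : Summable fun k : ℕ => 32 * (6000 * ((k : ℝ) ^ 2 * q ^ k + q ^ k)) :=
      (((summable_pow_mul_geometric_of_norm_lt_one 2
        (by rwa [Real.norm_of_nonneg q0])).add (summable_geometric_of_lt_one q0 q3)).mul_left
          6000).mul_left 32
    have hrs : ∀ k m : ℕ, (2 * R k m) ^ s ≤ 16 * (u ^ k * v ^ m) := by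
      intro k m
      have e1 : 2 * R k m = (2 : ℝ) ^ (2 - w * k - m / 2 : ℝ) := by
        simp only [R]
        rw [show (2 - w * k - m / 2 : ℝ) = 1 + (1 - w * k - m / 2) by ring, Real.rpow_add two_pos,
          Real.rpow_one]
      have e2 : (16 : ℝ) * (u ^ k * v ^ m) =
          (2 : ℝ) ^ ((4 : ℕ) + (-(w * s) * k + -(s / 2) * m)) := by
        rw [Real.rpow_add two_pos, Real.rpow_add two_pos, Real.rpow_natCast,
          Real.rpow_mul two_pos.le, Real.rpow_mul two_pos.le, Real.rpow_natCast,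
          Real.rpow_natCast]
        norm_num [hu, hv]
      rw [e1, e2, ← Real.rpow_mul two_pos.le]
      refine Real.rpow_le_rpow_of_exponent_le one_le_two ?_
      push_cast
      linarith
    refine Summable.of_nonneg_of_le (fun k => Finset.sum_nonneg fun i _ =>
      Real.rpow_nonneg (by have := hR k i.1; positivity) s) (fun k => ?_) hsum
    have hl := level_sum h2 u0.le v0.le v1 v2 (le_max_left _ _) (le_max_right _ _) k
    simp only [S]
    rw [Finset.sum_biUnion]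
    · calc ∑ m ∈ Finset.range (2 * k + 5), ∑ i ∈ ({m} : Finset ℕ) ×ˢ TT k m ×ˢ
            (Finset.univ : Finset Bool), (2 * R k i.1) ^ s
          ≤ ∑ m ∈ Finset.range (2 * k + 5), 32 * (((TT k m).card : ℝ) * (u ^ k * v ^ m)) := by
            refine Finset.sum_le_sum fun m _ => ?_
            refine (Finset.sum_le_card_nsmul _ _ (16 * (u ^ k * v ^ m)) fun i hi => ?_).trans_eq ?_
            · rw [Finset.mem_singleton.1 (Finset.mem_product.1 hi).1]
              exact hrs k m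
            · simp only [Finset.card_product, Finset.card_singleton, Finset.card_univ,
                Fintype.card_bool, nsmul_eq_mul]
              push_cast
              ring
        _ ≤ _ := by rw [← Finset.mul_sum]; gcongr
    · intro m _ m' _ hne
      refine Finset.disjoint_left.2 fun i hi hi' => hne ?_
      rw [← Finset.mem_singleton.1 (Finset.mem_product.1 hi).1,
        ← Finset.mem_singleton.1 (Finset.mem_product.1 hi').1]

end DUpB

theorem up (h1 : RootStmt) (h2 : DiscStmt) : UpStmt := by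
  intro w hw
  refine _root_.dimH_le fun d hd => ?_
  have h3 : 3 / (w + 1) ≤ 1 := by rw [div_le_one (by linarith)]; linarith
  have h4 : (d : ℝ) ≤ 3 / (w + 1) := by
    by_contra h
    obtain ⟨s, s1, s2⟩ := exists_between
      (lt_min (not_le.1 h) (by linarith : 3 / (w + 1) < 2))
    rw [lt_min_iff] at s2
    have := Measure.hausdorffMeasure_mono s2.1.le {ξ : ℝ | ∀ K : ℕ, ∃ a b c : ℤ, K ≤ Ht a b c ∧
      b ^ 2 ≠ 4 * a * c ∧ |Lv a b c ξ| ≤ (Ht a b c : ℝ) ^ (-w)}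
    rw [hd, DUpB.null h1 h2 hw s1 s2.2.le] at this
    simp at this
  rw [← ENNReal.ofReal_coe_nnreal]
  exact ENNReal.ofReal_le_ofReal h4

end ExOrd
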