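import Pool.Agent.Lib.MP_a94b90_nt.EX.All
import Pool.Agent.Lib.MP_a94b90_nt.ED.Phase2
import Pool.Agent.Lib.MP_a94b90_nt.ED.Main2
import Pool.Agent.Lib.MP_a94b90_nt.ED.HD
import Pool.Agent.Lib.MP_a94b90_nt.ED.Cover
import Pool.Agent.Lib.MP_a94b90_nt.ED.Grow
import Pool.Agent.Lib.MP_a94b90_nt.ED.Step2
import Pool.Agent.Lib.MP_a94b90_nt.ED.Low2
import Pool.Agent.Lib.MP_a94b90_nt.ED.UpA
import Pool.Agent.Lib.MP_a94b90_nt.ED.UpB

/-! ED: assembly for the exact order sets. -/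

namespace ExOrd

theorem low2T : Low2Stmt := low2 (step2 phase2 main2 w1 w2 w3 grow)

theorem upT : UpStmt := up root disc

end ExOrd
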