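import Pool.Agent.Lib.MP_a94b90_nt.ED.AllB

namespace ExOrd.BadDimVar
open ExOrd

theorem result : ∃ C : ℝ, 0 < C ∧ ∀ c : ℝ, 0 < c → c ≤ 1 / 2 →
    ENNReal.ofReal (1 - C * c) ≤
      dimH {ξ : ℝ | 0 ≤ ξ ∧ ξ ≤ 1 ∧ ∀ x y z : ℤ, ¬ (x = 0 ∧ y = 0 ∧ z = 0) →
        c ≤ |(x : ℝ) + ξ * y + ξ ^ 2 * z| *
          ((max x.natAbs (max y.natAbs z.natAbs) : ℕ) : ℝ) ^ 2} ∧
    dimH {ξ : ℝ | 0 ≤ ξ ∧ ξ ≤ 1 ∧ ∀ x y z : ℤ, ¬ (x = 0 ∧ y = 0 ∧ z = 0) →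
        c ≤ |(x : ℝ) + ξ * y + ξ ^ 2 * z| *
          ((max x.natAbs (max y.natAbs z.natAbs) : ℕ) : ℝ) ^ 2} ≤ ENNReal.ofReal (1 - c / C) := by
  obtain ⟨C, hC, h⟩ := badLowT
  have hP := P_pos 103
  refine ⟨C + P 103, by positivity, fun c h0 h1 => ⟨?_, ?_⟩⟩
  · refine (ENNReal.ofReal_le_ofReal (by nlinarith)).trans ((h c h0).trans (dimH_mono ?_))
    rintro ξ ⟨h2, h3⟩
    refine ⟨h2.1, h2.2, fun x y z h4 => ?_⟩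
    rw [← Lv_eq]
    exact h3 z y x (by tauto)
  · obtain ⟨k, k1, k2⟩ := exists_shell h0
    have k3 : k ≤ -1 := le_of_P_le (k1.trans (P_neg_one ▸ h1))
    obtain ⟨κ, rfl⟩ : ∃ κ : ℕ, k = -κ := ⟨(-k).toNat, by omega⟩
    refine (dimH_mono ?_).trans ((badUpT κ (by omega)).trans (ENNReal.ofReal_le_ofReal ?_))
    · rintro ξ ⟨h2, h3, h4⟩
      refine ⟨⟨h2, h3⟩, fun a b d h5 => k1.trans ?_⟩
      rw [Lv_eq]
      exact h4 d b a (by tauto)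
    · have h2 : P (-κ - 102) * P 103 = P (-κ + 1) := P_mul (by ring)
      have h3 : c / (C + P 103) ≤ P (-κ - 102) := by
        rw [div_le_iff₀ (by positivity)]
        nlinarith [P_pos (-κ - 102)]
      linarith

end ExOrd.BadDimVar
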