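import Pool.Agent.Lib.MP_a94b90_nt.EX.Stmt

/-! ED: Hausdorff dimension statements built on EX. Definitions and block statements. -/

namespace ExOrd
open Set

/-- number of members of `C j` below the node `(n, i)`. -/
def cntB (C : ℕ → Finset ℕ) (n i j : ℕ) : ℕ :=
  ((C j).filter fun p => p / 8 ^ (j - n) = i).card

/-- weight of the members of `C` strictly below the node `(n, i)`, levels `< N`. -/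
noncomputable def Wt (C : ℕ → Finset ℕ) (θ : ℝ) (n i N : ℕ) : ℝ :=
  ∑ j ∈ Finset.Ico (n + 1) N, (cntB C n i j : ℝ) * θ ^ j

/-- `Light` with a growth rate depending on the level. -/
def Light2 (r n j : ℕ) (lam : ℕ → ℝ) (E : ℝ → Prop) (w : ℝ) : Prop :=
  ∀ S : ℕ → Finset ℕ, (∀ m, n ≤ m → m < j → ∀ A ∈ S m, ∀ x ∈ Node m A, Good r m x) →
    (∀ m, n ≤ m → m + 1 < j → lam m * ((S m).card : ℝ) ≤ ((S (m + 1)).card : ℝ)) →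
    ∀ T : Finset ℕ,
      (∀ i ∈ T, (∀ m, n ≤ m → m < j → i / 8 ^ (j - m) ∈ S m) ∧ ∃ x ∈ Node j i, E x) →
      (T.card : ℝ) ≤ w * (S (j - 1)).card

structure State2 (ψ : ℕ → ℝ) (H0 : ℕ) (C : ℕ → Finset ℕ) (θ δ : ℝ) (r n i : ℕ) : Prop where
  st : State ψ H0 r n i
  small : ∀ N, Wt C θ n i N ≤ δ * θ ^ n
  avoid : ∀ j, j ≤ n → i / 8 ^ (n - j) ∉ C j

/-- points of `[0,1]` with constant at least `2^(-κ)`. -/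
def InK (κ : ℕ) (x : ℝ) : Prop :=
  x ∈ Icc (0 : ℝ) 1 ∧ ∀ a b c : ℤ, ¬ (a = 0 ∧ b = 0 ∧ c = 0) →
    P (-κ) ≤ |Lv a b c x| * (Ht a b c : ℝ) ^ 2

/-- no nonzero form with small derivative at level `j` (ancestor of level `m`). -/
def NoSp (κ m j : ℕ) (x : ℝ) : Prop :=
  ∀ a b c : ℤ, Bx (-2 * j + 3 * κ + 120) (3 * m - 2 * j + 3 * κ + 120) j x a b c →
    a = 0 ∧ b = 0 ∧ c = 0

/-- no nonzero form in the absolute box of level `j`. -/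
def Nice (j : ℕ) (x : ℝ) : Prop :=
  ∀ a b c : ℤ, Bx (-10 - 2 * j) (j - 10) (j - 10) x a b c → a = 0 ∧ b = 0 ∧ c = 0

theorem light2_of_light {r n j : ℕ} {lam : ℕ → ℝ} {E : ℝ → Prop} {w : ℝ} (h : Light r n j E w)
    (hl : ∀ m, 7 ≤ lam m) : Light2 r n j lam E w := by
  intro S h1 h2 T hT
  refine h S h1 (fun m hm hj => ?_) T hT
  have h3 := (mul_le_mul_of_nonneg_right (hl m) (Nat.cast_nonneg (S m).card)).trans (h2 m hm hj)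
  exact_mod_cast h3

theorem light2_mono {r n j : ℕ} {lam : ℕ → ℝ} {E E' : ℝ → Prop} {w w' : ℝ}
    (h : Light2 r n j lam E' w') (hE : ∀ x, E x → E' x) (hw : w' ≤ w) : Light2 r n j lam E w := by
  intro S h1 h2 T hT
  refine (h S h1 h2 T fun i hi => ⟨(hT i hi).1, ?_⟩).trans
    (mul_le_mul_of_nonneg_right hw (Nat.cast_nonneg _))
  obtain ⟨x, hx, ex⟩ := (hT i hi).2
  exact ⟨x, hx, hE x ex⟩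

theorem node_index {m d i A : ℕ} (h : Node (m + d) i ⊆ Node m A) : i / 8 ^ d = A := by
  have hP : P (-3 * m) = 8 ^ d * P (-3 * (m + d : ℕ)) := by
    rw [P_shift (3 * d) (show (-3 * m : ℤ) = -3 * (m + d : ℕ) + (3 * d : ℕ) by push_cast; ring),
      pow_mul]
    norm_num
  have hp := P_pos (-3 * (m + d : ℕ))
  have h1 := (h (node_left (m + d) i)).1
  have h2 := (h (show ((i : ℝ) + 1) * P (-3 * (m + d : ℕ)) ∈ Node (m + d) i from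
    ⟨by nlinarith, le_rfl⟩)).2
  rw [hP, ← mul_assoc] at h1 h2
  have h3 : A * 8 ^ d ≤ i := by exact_mod_cast le_of_mul_le_mul_right h1 hp
  have h4 : i + 1 ≤ (A + 1) * 8 ^ d := by exact_mod_cast le_of_mul_le_mul_right h2 hp
  exact Nat.div_eq_of_lt_le h3 h4

theorem zk {κ : ℕ} {x : ℝ} {α β γ M : ℤ} {a b c : ℤ} (hx : InK κ x) (h : Bx α β γ x a b c)
    (h1 : α ≤ M) (h2 : β ≤ M) (h3 : γ ≤ M) (h4 : α + 2 * M + 7 ≤ -κ) :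
    a = 0 ∧ b = 0 ∧ c = 0 := by
  by_contra hne
  have k1 := hx.2 a b c hne
  obtain ⟨x0, x1⟩ := hx.1
  have hL := le_P h.1 h1
  have hD := le_P h.2.1 h2
  have ha := le_P h.2.2 h3
  have hM := P_pos M
  have e3 : P (M + 3) = 2 ^ 3 * P M := P_shift 3 (by push_cast; ring)
  have hax : |(a : ℝ) * x| ≤ P M := by
    rw [abs_mul, abs_of_nonneg x0]; nlinarith [abs_nonneg (a : ℝ)]
  have hb : |(b : ℝ)| ≤ 3 * P M := by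
    have : (b : ℝ) = Dv a b x - 2 * (a * x) := by unfold Dv; ring
    rw [this, abs_le] at *
    constructor <;> linarith [hD.1, hD.2, hax.1, hax.2]
  have hq : |((a : ℝ) * x + b) * x| ≤ 4 * P M := by
    have := abs_add_le ((a : ℝ) * x) b
    rw [abs_mul, abs_of_nonneg x0]; nlinarith [abs_nonneg ((a : ℝ) * x + b)]
  have hc : |(c : ℝ)| ≤ 5 * P M := by
    have : (c : ℝ) = Lv a b c x - (a * x + b) * x := by unfold Lv; ring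
    rw [this]
    have := abs_sub (Lv a b c x) (((a : ℝ) * x + b) * x)
    linarith
  have hH : (Ht a b c : ℝ) ≤ 5 * P M := Ht_le (by linarith) (by linarith) hc
  have hH2 : (Ht a b c : ℝ) ^ 2 ≤ P (2 * (M + 3)) := by
    rw [← P_sq]; exact pow_le_pow_left₀ (Nat.cast_nonneg _) (by linarith) 2
  have k2 : |Lv a b c x| * (Ht a b c : ℝ) ^ 2 ≤ P α * P (2 * (M + 3)) :=
    mul_le_mul h.1 hH2 (by positivity) (P_pos _).le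
  rw [← P_add] at k2
  have := le_of_P_le (k1.trans k2)
  omega

/-! ### common blocks -/

def Phase2Stmt : Prop :=
  ∀ (r n i : ℕ) (lam wt : ℕ → ℝ) (E : ℕ → ℝ → Prop) (B : ℕ → Finset ℕ),
    (∀ x ∈ Node n i, Good r n x) →
    (∀ j, n ≤ j → 0 < lam j ∧
      Light2 r n (j + 1) lam
        (fun x => x ∈ Node n i ∧ Good r j x ∧ (¬ Good r (j + 1) x ∨ E (j + 1) x)) (wt j) ∧
      (cntB B n i (j + 1) : ℝ) ≤ (8 - lam j - wt j) * ∏ m ∈ Finset.Ico n j, lam m) →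
    ∃ p : ℕ → ℕ, p n = i ∧ ∀ j, n ≤ j → p (j + 1) / 8 = p j ∧ p (j + 1) ∉ B (j + 1) ∧
      ∀ x ∈ Node (j + 1) (p (j + 1)), Good r (j + 1) x ∧ ¬ E (j + 1) x

def Main2Stmt : Prop :=
  ∀ (r n j h : ℕ), 100 + 2 * h ≤ r → n + 40 + 6 * h ≤ j →
    Light r n (j + 1) (fun x => StartAt r n x ∧ Good r j x ∧ ¬ Good r (j + 1) x) (P (-h - 1))

def W1Stmt : Prop :=
  ∀ (C : ℕ → Finset ℕ) (θ τ : ℝ) (n i j : ℕ), 0 ≤ θ → (∀ N, Wt C θ n i N ≤ τ) → n < j →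
    (cntB C n i j : ℝ) * θ ^ j ≤ τ

def W2Stmt : Prop :=
  ∀ (C : ℕ → Finset ℕ) (θ τ τ' : ℝ) (n0 i0 n1 : ℕ), 0 ≤ θ → 0 < τ' → n0 ≤ n1 →
    (∀ N, Wt C θ n0 i0 N ≤ τ) → ∃ Bd : Finset ℕ, (Bd.card : ℝ) * τ' ≤ τ ∧
      ∀ A, A / 8 ^ (n1 - n0) = i0 → A ∉ Bd → ∀ N, Wt C θ n1 A N ≤ τ'

def W3Stmt : Prop :=
  ∀ (C : ℕ → Finset ℕ) (θ δ : ℝ) (n1 A n2 i2 m : ℕ), 0 < θ → θ ≤ 1 → δ < 1 → n1 ≤ n2 → n2 ≤ m →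
    i2 / 8 ^ (n2 - n1) = A → (∀ N, Wt C θ n1 A N ≤ δ * θ ^ m) →
    (∀ N, Wt C θ n2 i2 N ≤ δ * θ ^ n2) ∧ ∀ j, n1 < j → j ≤ n2 → i2 / 8 ^ (n2 - j) ∉ C j

def HDStmt : Prop :=
  ∀ (E : Set ℝ) (s δ : ℝ), 0 < s → 0 < δ →
    (∀ C : ℕ → Finset ℕ,
      (∀ N, ∑ j ∈ Finset.range N, ((C j).card : ℝ) * ((8 : ℝ) ^ (-s)) ^ j ≤ δ) →
      ∃ ξ ∈ E, ∀ j, ∃ p, ξ ∈ Node j p ∧ p ∉ C j) →
    ENNReal.ofReal s ≤ dimH E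

/-! ### dimension of the exact order sets -/

def GrowStmt : Prop :=
  ∀ (θ lam Z : ℝ) (a b c1 c2 : ℕ), 0 < θ → θ ≤ 1 → 1 ≤ lam → 1 ≤ b →
    1 < θ ^ (a + b) * lam ^ (3 * b) → ∃ B : ℕ, ∀ n m k : ℕ, B ≤ n →
      3 * b * m ≤ (a + b) * n + c1 → n ≤ k + c2 → Z ≤ θ ^ m * lam ^ k

def ChoiceStmt : Prop :=
  ∀ w s : ℝ, 2 ≤ w → 0 < s → s < 3 / (w + 1) → ∃ a b h : ℕ, 1 ≤ b ∧ 2 * b ≤ a ∧
    w < (a : ℝ) / b ∧ 1 < ((8 : ℝ) ^ (-s)) ^ (a + b) * (8 - P (-h)) ^ (3 * b)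

def Step2Stmt : Prop :=
  ∀ (ψ : ℕ → ℝ) (H0 : ℕ) (C : ℕ → Finset ℕ) (θ : ℝ) (a b h r n0 i g K : ℕ),
    (∀ H H', 1 ≤ H → H ≤ H' → ψ H' ≤ ψ H) → (∀ H, 1 ≤ H → 0 < ψ H) →
    (∀ k : ℤ, ∃ N : ℕ, ∀ H : ℕ, N ≤ H → (H : ℝ) ^ 2 * ψ H ≤ P k) →
    (∀ M : ℕ, ∃ H : ℕ, M ≤ H ∧ 1 ≤ ψ H ^ b * (H : ℝ) ^ a) → 1 ≤ b → 2 * b ≤ a → 0 < θ → θ ≤ 1 →
    1 < θ ^ (a + b) * (8 - P (-h)) ^ (3 * b) → 1 ≤ H0 → 100 + 2 * h ≤ r → 8 ≤ g →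
    State2 ψ H0 C θ (P (-7 * h - 50)) r n0 i →
    ∃ r2 n2 i2, r ≤ r2 ∧ State2 ψ H0 C θ (P (-7 * h - 50)) r2 n2 i2 ∧ Node n2 i2 ⊆ Node n0 i ∧
      K + (2 * r2 + 2) ≤ n2 ∧ ∃ a' b' c' : ℤ, K ≤ Ht a' b' c' ∧ ¬ IsSquare (b' ^ 2 - 4 * a' * c') ∧
        ∀ x ∈ Node n2 i2, |Lv a' b' c' x| ≤ (1 + P (-g)) * ψ (Ht a' b' c')

def Low2Stmt : Prop :=
  ∀ (ψ : ℕ → ℝ) (C : ℕ → Finset ℕ) (θ : ℝ) (a b h : ℕ),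
    (∀ H H', 1 ≤ H → H ≤ H' → ψ H' ≤ ψ H) → (∀ H, 1 ≤ H → 0 < ψ H) →
    (∀ k : ℤ, ∃ N : ℕ, ∀ H : ℕ, N ≤ H → (H : ℝ) ^ 2 * ψ H ≤ P k) →
    (∀ M : ℕ, ∃ H : ℕ, M ≤ H ∧ 1 ≤ ψ H ^ b * (H : ℝ) ^ a) → 1 ≤ b → 2 * b ≤ a → 0 < θ → θ ≤ 1 →
    1 < θ ^ (a + b) * (8 - P (-h)) ^ (3 * b) →
    (∀ N, ∑ j ∈ Finset.range N, ((C j).card : ℝ) * θ ^ j ≤ P (-7 * h - 50)) →
    ∃ ξ : ℝ, (∃ H0 : ℕ, ∀ a' b' c' : ℤ, H0 ≤ Ht a' b' c' → ψ (Ht a' b' c') ≤ |Lv a' b' c' ξ|) ∧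
      (∀ g K : ℕ, ∃ a' b' c' : ℤ, K ≤ Ht a' b' c' ∧ ¬ IsSquare (b' ^ 2 - 4 * a' * c') ∧
        |Lv a' b' c' ξ| ≤ (1 + P (-g)) * ψ (Ht a' b' c')) ∧
      ∀ j, ∃ p, ξ ∈ Node j p ∧ p ∉ C j

def RootStmt : Prop :=
  ∀ (a b c : ℤ) (η : ℝ), b ^ 2 ≠ 4 * a * c → 4 * |(a : ℝ)| * η < 1 → ∃ x1 x2 : ℝ, ∀ x : ℝ,
    |Lv a b c x| ≤ η → 0 < b ^ 2 - 4 * a * c ∧
      (|x - x1| * √((b ^ 2 - 4 * a * c : ℤ) : ℝ) ≤ 2 * η ∨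
        |x - x2| * √((b ^ 2 - 4 * a * c : ℤ) : ℝ) ≤ 2 * η)

def DiscStmt : Prop :=
  ∀ (k m : ℕ) (T : Finset (ℤ × ℤ × ℤ)),
    (∀ Q ∈ T, Ht Q.1 Q.2.1 Q.2.2 ≤ 2 ^ k ∧ 0 < Q.2.1 ^ 2 - 4 * Q.1 * Q.2.2 ∧
      Q.2.1 ^ 2 - 4 * Q.1 * Q.2.2 ≤ 2 ^ m) →
    T.card ≤ 2 ^ (2 * k + 5) + (k + 1) * 2 ^ (k + m + 3)

def UpStmt : Prop :=
  ∀ w : ℝ, 2 ≤ w → dimH {ξ : ℝ | ∀ K : ℕ, ∃ a b c : ℤ, K ≤ Ht a b c ∧ b ^ 2 ≠ 4 * a * c ∧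
    |Lv a b c ξ| ≤ (Ht a b c : ℝ) ^ (-w)} ≤ ENNReal.ofReal (3 / (w + 1))

/-! ### dimension of the uniformly badly approximable sets: lower bound -/

def CntGStmt : Prop :=
  ∀ (α β γ : ℤ) (G : ℕ) (x : ℝ), (∀ a b c : ℤ, Bx α β γ x a b c → a = 0 ∧ b = 0 ∧ c = 0) →
    ∀ T : Finset (ℤ × ℤ × ℤ), (∀ Q ∈ T, Bx (α + G) (β + G) (γ + G) x Q.1 Q.2.1 Q.2.2) →
      (T.card : ℝ) ≤ P (2 * G + 5) + P (α + β + γ + 3 * G + 8)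

def KillGStmt : Prop :=
  ∀ (m j A G ρ : ℕ) (α0 β0 γ0 α β γ B : ℤ) (x0 : ℝ), x0 ∈ Node m A →
    (∀ a b c : ℤ, Bx α0 β0 γ0 x0 a b c → a = 0 ∧ b = 0 ∧ c = 0) →
    α ≤ α0 + G - 2 → β - 3 * m ≤ α0 + G - 2 → γ - 6 * m ≤ α0 + G - 2 → β ≤ β0 + G - 2 →
    γ - 3 * m ≤ β0 + G - 2 → γ ≤ γ0 + G → 2 + γ - 3 * m ≤ B → 2 + α + 3 * j ≤ ρ + B →
    ∀ T : Finset ℕ, (∀ i ∈ T, ∃ x, x ∈ Node m A ∧ x ∈ Node j i ∧ EvK α β γ B x) →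
      (T.card : ℝ) ≤ P (ρ + 2 * G + 7) + P (ρ + α0 + β0 + γ0 + 3 * G + 10)

def Kill3Stmt : Prop :=
  ∀ (r m j l F ρ : ℕ) (α β γ B : ℤ), l ≤ m → F + 2 ≤ 3 * (2 * r + 2) + 3 * l →
    α ≤ F - (2 * r + 2) - 2 * m - 2 * l → β ≤ F + m - (2 * r + 2) - 2 * l →
    γ ≤ F + m - (2 * r + 2) + l → 2 + γ - 3 * m ≤ B → 2 + α + 3 * j ≤ ρ + B →
    Few r m j (EvK α β γ B) (P (ρ + 2 * F + 15))

def LFew2Stmt : Prop :=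
  ∀ (r n m j t : ℕ) (lam : ℕ → ℝ) (μ : ℝ) (E : ℝ → Prop) (ν w : ℤ), n ≤ m → m + t < j →
    Few r m j E (P ν) → (∀ i, 7 ≤ lam i) → (∀ i, j ≤ i + t + 1 → μ ≤ lam i) → 0 ≤ μ →
    (8 : ℝ) ^ t ≤ 2 * μ ^ t → 5 * (ν + w + 1 - 3 * t) ≤ 14 * ((j : ℤ) - m - 1 - t) →
    Light2 r n j lam E (P (-w))

def LOr2Stmt : Prop :=
  ∀ (r n j : ℕ) (lam : ℕ → ℝ) (E E1 E2 : ℝ → Prop) (w w1 w2 : ℝ), Light2 r n j lam E1 w1 →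
    Light2 r n j lam E2 w2 → (∀ x, E x → E1 x ∨ E2 x) → w1 + w2 ≤ w → Light2 r n j lam E w

def LSum2Stmt : Prop :=
  ∀ (r n j N : ℕ) (lam : ℕ → ℝ) (C : ℕ → Prop) (E : ℕ → ℝ → Prop) (c : ℤ),
    (∀ l, l < N → C l → Light2 r n j lam (E l) (P (-(c + (l / 16 : ℕ))))) →
    Light2 r n j lam (fun x => ∃ l, l < N ∧ C l ∧ E l x) (P (5 - c))

def Main3Stmt : Prop :=
  ∀ (r j : ℕ) (lam : ℕ → ℝ), 200 ≤ r → 7 * (2 * r + 2) ≤ j → (∀ i, 7 ≤ lam i) →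
    (∀ i, 2 * r ≤ i → 8 - 1 / (2 * (r : ℝ) + 2) ≤ lam i) →
    Light2 r 0 (j + 1) lam (fun x => Good r j x ∧ ¬ Good r (j + 1) x) (P (32 - 3 * (2 * r + 2)))

def Low1Stmt : Prop :=
  ∀ (r : ℕ) (θ : ℝ) (C : ℕ → Finset ℕ), 200 ≤ r → 1 ≤ θ * (8 - P (33 - 3 * (2 * r + 2))) →
    (∀ N, ∑ j ∈ Finset.range N, ((C j).card : ℝ) * θ ^ j ≤ P (-10 * (2 * r + 2))) → θ ≤ 1 →
    ∃ ξ ∈ Icc (0 : ℝ) 1, (∀ j, Good r j ξ) ∧ ∀ j, ∃ p, ξ ∈ Node j p ∧ p ∉ C j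

def BadLowStmt : Prop :=
  ∃ C : ℝ, 0 < C ∧ ∀ t : ℝ, 0 < t → ENNReal.ofReal (1 - C * t) ≤
    dimH {x : ℝ | x ∈ Icc (0 : ℝ) 1 ∧ ∀ a b c : ℤ, ¬ (a = 0 ∧ b = 0 ∧ c = 0) →
      t ≤ |Lv a b c x| * (Ht a b c : ℝ) ^ 2}

/-! ### upper bound -/

def TRStmt : Prop :=
  ∀ (κ μ : ℕ) (ν : ℤ) (x : ℝ) (p q t : ℤ), InK κ x → |(p : ℝ)| ≤ P (2 * μ) →
    |(p : ℝ) * x - q| ≤ P ν → |(p : ℝ) * x ^ 2 - 2 * q * x + t| ≤ P ν → μ + ν + 14 ≤ -κ →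
    p = 0 ∧ q = 0 ∧ t = 0

def FreeStmt : Prop :=
  ∀ (κ m : ℕ) (x : ℝ), InK κ x → ∃ j0 : ℕ, m + 10 * κ + 220 ≤ j0 ∧ j0 ≤ m + 13 * κ + 284 ∧
    ∀ j, j0 ≤ j → j < j0 + κ → NoSp κ m j x

def NiceStmt : Prop :=
  ∀ (κ m t A : ℕ) (x0 : ℝ), x0 ∈ Node m A → InK κ x0 → κ + 40 ≤ t → t ≤ m →
    NoSp κ m (m + t) x0 → ∀ T : Finset ℕ,
      (∀ i ∈ T, i / 8 ^ t = A ∧ ∃ x ∈ Node (m + t) i, ¬ Nice (m + t) x) →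
      (T.card : ℝ) ≤ P (3 * t - 7)

def GapStmt : Prop :=
  ∀ (κ j i : ℕ), 10 ≤ j → (∀ x ∈ Node j i, Nice j x) →
    ∃ p, p / 8 ^ (κ / 3 + 30) = i ∧ ∀ x ∈ Node (j + (κ / 3 + 30)) p, ¬ InK κ x

/-- counting of overlapping gaps in the 8-adic tree. -/
def PorStmt : Prop :=
  ∀ (m A j0 k d T : ℕ) (N : ℕ → Finset ℕ) (gap : ℕ → ℕ → ℕ) (U : Finset ℕ), m ≤ j0 →
    j0 + k + d ≤ m + T → 10 * k ≤ 8 ^ d →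
    (∀ j, j0 ≤ j → j < j0 + k → 8 ^ (j - m) ≤ 2 * (N j).card ∧
      ∀ i ∈ N j, i / 8 ^ (j - m) = A ∧ gap j i / 8 ^ d = i) →
    (∀ p ∈ U, p / 8 ^ T = A ∧
      ∀ j, j0 ≤ j → j < j0 + k → ∀ i ∈ N j, p / 8 ^ (m + T - (j + d)) ≠ gap j i) →
    (U.card : ℝ) ≤ 8 ^ T * (1 - k / (4 * 8 ^ d))

def BoxStmt : Prop :=
  ∀ (E : Set ℝ) (m0 T : ℕ) (β : ℝ), E ⊆ Icc 0 1 → 1 ≤ T → 0 < β → β < 1 →
    (∀ m A, m0 ≤ m → (∃ x ∈ Node m A, x ∈ E) → ∀ U : Finset ℕ,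
      (∀ p ∈ U, p / 8 ^ T = A ∧ ∃ x ∈ Node (m + T) p, x ∈ E) →
      (U.card : ℝ) ≤ 8 ^ T * (1 - β)) →
    dimH E ≤ ENNReal.ofReal (1 - β / (3 * T))

def BadUpStmt : Prop :=
  ∀ κ : ℕ, 1 ≤ κ → dimH {x : ℝ | InK κ x} ≤ ENNReal.ofReal (1 - P (-κ - 102))

end ExOrd
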