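import Pool.Agent.Lib.MP_a94b90_nt.ED.Stmt

/-! ED: transference from the dual box. -/

namespace ExOrd
open Set

namespace DTR

theorem pigeon (p q t : ℤ) (x : ℝ) (N : ℕ) (hp : p ≠ 0) (hN : p.natAbs < (N + 1) * (N + 1)) :
    ∃ a b c : ℤ, ¬ (a = 0 ∧ b = 0) ∧ a * t + b * q + c * p = 0 ∧ |(a : ℝ)| ≤ N ∧
      |Dv a b x| ≤ N + 1 := by
  have : NeZero p.natAbs := ⟨Int.natAbs_ne_zero.2 hp⟩
  let f : Fin (N + 1) × Fin (N + 1) → ZMod p.natAbs := fun z =>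
    ((((z.1 : ℕ) : ℤ) * t + (((z.2 : ℕ) : ℤ) + ⌊-(2 * ((z.1 : ℕ) : ℝ) * x)⌋) * q : ℤ) :
      ZMod p.natAbs)
  obtain ⟨z, w, hzw, e⟩ := Fintype.exists_ne_map_eq_of_card_lt f (by simpa using hN)
  obtain ⟨c, hc⟩ := Int.natAbs_dvd.1 ((ZMod.intCast_eq_intCast_iff_dvd_sub _ _ _).1 e)
  have h1 : ((z.1 : ℕ) : ℝ) ≤ N := by exact_mod_cast Nat.lt_succ_iff.1 z.1.2
  have h2 : ((w.1 : ℕ) : ℝ) ≤ N := by exact_mod_cast Nat.lt_succ_iff.1 w.1.2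
  have h3 : ((z.2 : ℕ) : ℝ) ≤ N := by exact_mod_cast Nat.lt_succ_iff.1 z.2.2
  have h4 : ((w.2 : ℕ) : ℝ) ≤ N := by exact_mod_cast Nat.lt_succ_iff.1 w.2.2
  have h5 : (0 : ℝ) ≤ ((z.1 : ℕ) : ℝ) := Nat.cast_nonneg _
  have h6 : (0 : ℝ) ≤ ((w.1 : ℕ) : ℝ) := Nat.cast_nonneg _
  have h7 : (0 : ℝ) ≤ ((z.2 : ℕ) : ℝ) := Nat.cast_nonneg _
  have h8 : (0 : ℝ) ≤ ((w.2 : ℕ) : ℝ) := Nat.cast_nonneg _
  refine ⟨((w.1 : ℕ) : ℤ) - ((z.1 : ℕ) : ℤ),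
    (((w.2 : ℕ) : ℤ) + ⌊-(2 * ((w.1 : ℕ) : ℝ) * x)⌋) -
      (((z.2 : ℕ) : ℤ) + ⌊-(2 * ((z.1 : ℕ) : ℝ) * x)⌋), -c, ?_, by linear_combination hc, ?_, ?_⟩
  · rintro ⟨k1, k2⟩
    have k3 : z.1 = w.1 := Fin.ext (by omega)
    rw [k3] at k2
    exact hzw (Prod.ext k3 (Fin.ext (by omega)))
  · push_cast
    rw [abs_le]
    constructor <;> linarith
  · have k1 := Int.floor_le (-(2 * ((w.1 : ℕ) : ℝ) * x))
    have k2 := Int.lt_floor_add_one (-(2 * ((w.1 : ℕ) : ℝ) * x))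
    have k3 := Int.floor_le (-(2 * ((z.1 : ℕ) : ℝ) * x))
    have k4 := Int.lt_floor_add_one (-(2 * ((z.1 : ℕ) : ℝ) * x))
    unfold Dv
    push_cast
    rw [abs_le]
    constructor <;> linarith

end DTR

theorem tr : TRStmt := by
  intro κ μ ν x p q t hx hp h1 h2 h3
  by_cases h0 : p = 0
  · subst h0
    have hq : q = 0 := int_zero (a := ν) (by simpa using h1) (by omega)
    subst hq
    exact ⟨rfl, rfl, int_zero (a := ν) (by simpa using h2) (by omega)⟩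
  exfalso
  have hp1 : (1 : ℝ) ≤ |(p : ℝ)| := by exact_mod_cast Int.one_le_abs h0
  obtain ⟨k, k1, k2⟩ := exists_shell (u := |(p : ℝ)|) (by linarith)
  have k3 : 0 < k + 1 := lt_of_P_lt (P_zero ▸ hp1.trans_lt k2)
  have k4 : k ≤ 2 * μ := le_of_P_le (k1.trans hp)
  obtain ⟨u, hu⟩ : ∃ u : ℕ, (u : ℤ) = k / 2 + 1 := ⟨(k / 2 + 1).toNat, by omega⟩
  have e1 : ((2 ^ u : ℕ) : ℝ) = P u := by rw [P_nat]; push_cast; rfl
  have hN : p.natAbs < (2 ^ u + 1) * (2 ^ u + 1) := by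
    have k5 : P (k + 1) ≤ P u * P u := by rw [← P_add]; exact P_le (by omega)
    have k6 := P_pos u
    have k7 : (p.natAbs : ℝ) < (((2 ^ u : ℕ) : ℝ) + 1) * (((2 ^ u : ℕ) : ℝ) + 1) := by
      rw [e1, Nat.cast_natAbs, Int.cast_abs]
      nlinarith
    exact_mod_cast k7
  obtain ⟨a, b, c, hab, hc, ha, hD⟩ := DTR.pigeon p q t x (2 ^ u) h0 hN
  rw [e1] at ha hD
  have hD' : |Dv a b x| ≤ P (u + 1) := by
    have := one_le_P (a := u) (by omega)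
    rw [P_succ]
    linarith
  have hc' : (a : ℝ) * t + b * q + c * p = 0 := by exact_mod_cast hc
  have e2 : (p : ℝ) * Lv a b c x =
      (p * x - q) * Dv a b x - (p * x ^ 2 - 2 * q * x + t) * a := by
    unfold Lv Dv
    linear_combination hc'
  have hL : |(p : ℝ) * Lv a b c x| ≤ P (ν + u + 2) := by
    rw [e2]
    exact sub_le_P (mul_le_P h1 hD' le_rfl) (mul_le_P h2 ha le_rfl) (by omega) (by omega)
  have := zk (M := u + 1) hx ⟨div_le_P k1 hL le_rfl, hD', ha⟩ (by omega) le_rfl (by omega)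
    (by omega)
  exact hab ⟨this.1, this.2.1⟩

end ExOrd
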